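import Pool.Agent.WCC.FinalA

/-! # The contradiction -/

set_option autoImplicit false

namespace Pool.Agent.WCC

open Finset

/-- choice of `l` -/
theorem final_exists_l (K X : ℕ) (hK : 1 ≤ K) (hX : 2 * K ≤ X) :
    ∃ l : ℕ, 1 ≤ l ∧ 2 * K * 3 ^ (l - 1) ≤ X ∧ X < 2 * K * 3 ^ l := by
  refine ⟨Nat.log 3 (X / (2 * K)) + 1, by omega, ?_, ?_⟩
  · rw [Nat.add_sub_cancel]
    have h1 : X / (2 * K) ≠ 0 := by
      rw [Nat.div_ne_zero_iff]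
      omega
    have h2 := Nat.pow_log_le_self 3 h1
    calc 2 * K * 3 ^ Nat.log 3 (X / (2 * K)) ≤ 2 * K * (X / (2 * K)) := Nat.mul_le_mul_left _ h2
      _ ≤ X := Nat.mul_div_le _ _
  · have h2 := Nat.lt_pow_succ_log_self (b := 3) (by norm_num) (X / (2 * K))
    rw [Nat.div_lt_iff_lt_mul (by omega)] at h2
    rw [mul_comm]
    exact h2

/-- lower bound for the central binomial coefficient -/
theorem final_central (g : ℕ) (hg : 1 ≤ g) :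
    4 ^ (8 * g ^ 2) ≤ 6 * g * (2 * (8 * g ^ 2)).choose (8 * g ^ 2) := by
  set X := (2 * (8 * g ^ 2)).choose (8 * g ^ 2) with hX
  have h1 := central_lower (8 * g ^ 2) (by nlinarith)
  rw [← hX] at h1
  have h2 : (4 ^ (8 * g ^ 2)) ^ 2 ≤ (6 * g * X) ^ 2 := by
    calc (4 ^ (8 * g ^ 2)) ^ 2 = 16 ^ (8 * g ^ 2) := by
          rw [← pow_mul, mul_comm, pow_mul]; norm_num
      _ ≤ 4 * (8 * g ^ 2) * X ^ 2 := h1
      _ ≤ (6 * g * X) ^ 2 := by nlinarith [Nat.zero_le (g ^ 2 * X ^ 2)]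
  exact (Nat.pow_le_pow_iff_left (by norm_num)).mp h2

theorem final_big (g K : ℕ) (hg : 1 ≤ g) (hgK : K ≤ g) :
    2 * K ≤ (2 * (8 * g ^ 2)).choose (8 * g ^ 2) := by
  have h := Nat.four_pow_lt_mul_centralBinom (8 * g ^ 2) (by nlinarith)
  rw [Nat.centralBinom] at h
  set X := (2 * (8 * g ^ 2)).choose (8 * g ^ 2) with hX
  set j := 8 * g ^ 2 with hj
  have h1 : j < 2 ^ j := Nat.lt_two_pow_self
  have h2 : 4 ^ j = 2 ^ j * 2 ^ j := by rw [← mul_pow]; norm_num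
  have h3 : j * 2 ^ j < j * X := by
    calc j * 2 ^ j ≤ 2 ^ j * 2 ^ j := Nat.mul_le_mul_right _ h1.le
      _ = 4 ^ j := h2.symm
      _ < j * X := h
  have h4 : 2 ^ j < X := lt_of_mul_lt_mul_left h3 (Nat.zero_le _)
  have h5 : 2 * K ≤ j := by nlinarith
  omega

/-- the alive count in the form needed -/
theorem final_alive_real (B g M K : ℕ) (Cs : ℕ → ℝ) (hCs : ∀ κ, 0 < Cs κ)
    (hg : 1 ≤ g)
    (hnc : ∀ κ n : ℕ, 2 ≤ n →
      (nc n ⟨true, 1, -(κ : ℤ)⟩ : ℝ) ≤ Cs κ * Real.sqrt (Real.log n) * 2 ^ n / Real.sqrt n)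
    (hM : (24 * K * (B + 2) * (1 + ∑ κ ∈ range (3 * B + 1), Cs κ)) *
      Real.sqrt (Real.log (4 * (g : ℝ) ^ 2)) +
      (24 * K * (B + 2) * (1 + ∑ κ ∈ range (3 * B + 1), Cs κ)) ≤ M) (kmin : ℕ) :
    (((B + 2) * 2 ^ (12 * g ^ 2) * ((4 * g ^ 2).choose kmin +
      ∑ κ ∈ range (3 * B + 1), nc (4 * g ^ 2) ⟨true, 1, -(κ : ℤ)⟩) : ℕ) : ℝ) * (48 * K * g) ≤
      M * 4 ^ (8 * g ^ 2) := by
  have hg1 : (1 : ℝ) ≤ g := by exact_mod_cast hg
  have hg0 : (0 : ℝ) < g := by linarith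
  set n := 4 * g ^ 2 with hn
  have hnR : (n : ℝ) = 4 * (g : ℝ) ^ 2 := by rw [hn]; push_cast; ring
  have hsq : Real.sqrt n = 2 * g := by
    rw [hnR, show 4 * (g : ℝ) ^ 2 = (2 * g) ^ 2 by ring, Real.sqrt_sq (by positivity)]
  have hn2 : 2 ≤ n := by rw [hn]; nlinarith
  set Lg := Real.sqrt (Real.log (4 * (g : ℝ) ^ 2)) with hLg
  have hLg0 : 0 ≤ Lg := Real.sqrt_nonneg _
  -- choose
  have h1 : ((n.choose kmin : ℕ) : ℝ) * (2 * g) ≤ 2 ^ n := by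
    have h := choose_sq_mul_le n kmin
    have h' : ((n.choose kmin : ℕ) : ℝ) ^ 2 * n ≤ 4 ^ n := by exact_mod_cast h
    have h4 : (4 : ℝ) ^ n = (2 ^ n) ^ 2 := by
      rw [← pow_mul, mul_comm n 2, pow_mul (2 : ℝ) 2 n]; norm_num
    have h5 : (((n.choose kmin : ℕ) : ℝ) * (2 * g)) ^ 2 ≤ (2 ^ n) ^ 2 := by
      rw [← h4]
      calc (((n.choose kmin : ℕ) : ℝ) * (2 * g)) ^ 2 = ((n.choose kmin : ℕ) : ℝ) ^ 2 * n := by
            rw [hnR]; ring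
        _ ≤ 4 ^ n := h'
    exact (pow_le_pow_iff_left₀ (by positivity) (by positivity) (by norm_num)).mp h5
  -- nc
  have h2 : ∀ κ ∈ range (3 * B + 1), (nc n ⟨true, 1, -(κ : ℤ)⟩ : ℝ) * (2 * g) ≤
      Cs κ * Lg * 2 ^ n := by
    intro κ _
    have h := hnc κ n hn2
    rw [hsq, hnR] at h
    rw [le_div_iff₀ (by positivity)] at h
    exact h
  have h3 : (∑ κ ∈ range (3 * B + 1), (nc n ⟨true, 1, -(κ : ℤ)⟩ : ℝ)) * (2 * g) ≤
      (∑ κ ∈ range (3 * B + 1), Cs κ) * Lg * 2 ^ n := by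
    rw [sum_mul, sum_mul, sum_mul]
    exact sum_le_sum h2
  set SC := ∑ κ ∈ range (3 * B + 1), Cs κ with hSC
  have hSC0 : 0 ≤ SC := sum_nonneg fun κ _ => (hCs κ).le
  have h4 : (((n.choose kmin : ℕ) : ℝ) +
      ∑ κ ∈ range (3 * B + 1), (nc n ⟨true, 1, -(κ : ℤ)⟩ : ℝ)) * (2 * g) ≤
      (1 + SC * Lg) * 2 ^ n := by
    rw [add_mul]
    calc _ ≤ 2 ^ n + SC * Lg * 2 ^ n := add_le_add h1 h3
      _ = (1 + SC * Lg) * 2 ^ n := by ring
  have h5 : (1 + SC * Lg) ≤ (1 + SC) * Lg + (1 + SC) := by nlinarith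
  have hp : (4 : ℝ) ^ (8 * g ^ 2) = 2 ^ (12 * g ^ 2) * 2 ^ n := by
    rw [hn, ← pow_add, show (4 : ℝ) = 2 ^ 2 by norm_num, ← pow_mul]
    congr 1; ring
  push_cast
  have hK0 : (0 : ℝ) ≤ K := by positivity
  have hB0 : (0 : ℝ) ≤ B := by positivity
  calc ((B : ℝ) + 2) * 2 ^ (12 * g ^ 2) * (((n.choose kmin : ℕ) : ℝ) +
      ∑ κ ∈ range (3 * B + 1), (nc n ⟨true, 1, -(κ : ℤ)⟩ : ℝ)) * (48 * K * g)
      = (24 * K * ((B : ℝ) + 2) * 2 ^ (12 * g ^ 2)) * ((((n.choose kmin : ℕ) : ℝ) +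
      ∑ κ ∈ range (3 * B + 1), (nc n ⟨true, 1, -(κ : ℤ)⟩ : ℝ)) * (2 * g)) := by ring
    _ ≤ (24 * K * ((B : ℝ) + 2) * 2 ^ (12 * g ^ 2)) * (((1 + SC) * Lg + (1 + SC)) * 2 ^ n) := by
        apply mul_le_mul_of_nonneg_left _ (by positivity)
        exact h4.trans (mul_le_mul_of_nonneg_right h5 (by positivity))
    _ = ((24 * K * (B + 2) * (1 + SC)) * Lg + (24 * K * (B + 2) * (1 + SC))) *
        (2 ^ (12 * g ^ 2) * 2 ^ n) := by ring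
    _ ≤ M * (2 ^ (12 * g ^ 2) * 2 ^ n) := mul_le_mul_of_nonneg_right hM (by positivity)
    _ = M * 4 ^ (8 * g ^ 2) := by rw [hp]

/-- the bad set is small -/
theorem final_bad_real (K g : ℕ) (hK : 1 ≤ K) (hg : 1 ≤ g) :
    ((Zbad (g ^ 2) (2 * (30 * K * g)) ((10800 * K) ^ 2)).card : ℝ) * (450 * K) ≤
      2 ^ (15 * g ^ 2) := by
  have h := Zbad_card (g ^ 2) (2 * (30 * K * g)) ((10800 * K) ^ 2)
  set x1 := ((bits (4 * g ^ 2)).filter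
    (fun u => ((2 * (30 * K * g) : ℕ) : ℤ) ≤ |imb u|)).card with hx1
  set x2 := ((bits (11 * g ^ 2)).filter
    (fun l => (10800 * K) ^ 2 * 2 ^ (12 * g ^ 2) <
      3 ^ ones l * 3 ^ (g ^ 2) + 2 ^ (g ^ 2) * val l)).card with hx2
  have hK1 : (1 : ℝ) ≤ K := by exact_mod_cast hK
  have hg1 : (1 : ℝ) ≤ g := by exact_mod_cast hg
  have hc : (x1 : ℝ) * (900 * K) ≤ 2 ^ (4 * g ^ 2) := by
    have h1 := cheb (4 * g ^ 2) (2 * (30 * K * g))
    rw [← hx1] at h1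
    have h2 : (x1 : ℝ) * (2 * (30 * K * g)) ^ 2 ≤ (4 * g ^ 2) * 2 ^ (4 * g ^ 2) := by
      exact_mod_cast h1
    have h3 : ((x1 : ℝ) * (900 * K ^ 2)) * (4 * g ^ 2) ≤ 2 ^ (4 * g ^ 2) * (4 * g ^ 2) := by
      calc ((x1 : ℝ) * (900 * K ^ 2)) * (4 * g ^ 2) = (x1 : ℝ) * (2 * (30 * K * g)) ^ 2 := by ring
        _ ≤ _ := h2
        _ = _ := by ring
    have h4 : (x1 : ℝ) * (900 * K ^ 2) ≤ 2 ^ (4 * g ^ 2) :=
      le_of_mul_le_mul_right h3 (by positivity)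
    have h5 : (x1 : ℝ) * (900 * K) ≤ (x1 : ℝ) * (900 * K ^ 2) := by
      apply mul_le_mul_of_nonneg_left _ (by positivity)
      nlinarith
    linarith
  have hv : (x2 : ℝ) * (900 * K) ≤ 2 ^ (11 * g ^ 2) := by
    have h1 := val_moment (g ^ 2) ((10800 * K) ^ 2) (Nat.one_le_pow _ _ (by omega))
    rw [← hx2] at h1
    have h2 : Real.sqrt (((10800 * K) ^ 2 : ℕ) : ℝ) = 10800 * K := by
      push_cast
      rw [Real.sqrt_sq (by positivity)]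
    rw [h2] at h1
    linarith
  have h' : ((Zbad (g ^ 2) (2 * (30 * K * g)) ((10800 * K) ^ 2)).card : ℝ) ≤
      2 ^ (11 * g ^ 2) * x1 + x2 * 2 ^ (4 * g ^ 2) := by exact_mod_cast h
  have hp : (2 : ℝ) ^ (15 * g ^ 2) = 2 ^ (11 * g ^ 2) * 2 ^ (4 * g ^ 2) := by
    rw [← pow_add]; congr 1; ring
  rw [hp]
  have q1 : 2 ^ (11 * g ^ 2) * ((x1 : ℝ) * (900 * K)) ≤ 2 ^ (11 * g ^ 2) * 2 ^ (4 * g ^ 2) :=
    mul_le_mul_of_nonneg_left hc (by positivity)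
  have q2 : ((x2 : ℝ) * (900 * K)) * 2 ^ (4 * g ^ 2) ≤ 2 ^ (11 * g ^ 2) * 2 ^ (4 * g ^ 2) :=
    mul_le_mul_of_nonneg_right hv (by positivity)
  have q3 := mul_le_mul_of_nonneg_right h' (by positivity : (0 : ℝ) ≤ 450 * K)
  nlinarith

theorem final_contra (K : ℕ) (hK : 1 ≤ K)
    (H : ∀ j l : ℕ, 1 ≤ j → 1 ≤ l → 2 * K * 3 ^ (l - 1) ≤ (2 * j).choose j →
      ∀ r < 3 ^ l, ¬ 3 ∣ r →
        ∃ x : List Bool, x.length = 2 * j ∧ ones x = j ∧ val x % 3 ^ l = r) : False := by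
  obtain ⟨c, hc⟩ : ∃ c : ℕ, c = 30 * K := ⟨_, rfl⟩
  obtain ⟨B, hB⟩ : ∃ B : ℕ, B = (10800 * K) ^ 2 := ⟨_, rfl⟩
  choose Cs hCs hnc using nc_bound
  obtain ⟨C0, hC0⟩ : ∃ C0 : ℝ, C0 = 24 * K * (B + 2) * (1 + ∑ κ ∈ range (3 * B + 1), Cs κ) := ⟨_, rfl⟩
  obtain ⟨g1, hg1⟩ := asym C0 c
  obtain ⟨g2, hg2⟩ := asym2 (12 * K) c
  obtain ⟨g3, hg3⟩ := asym3 c
  obtain ⟨g, hgd⟩ : ∃ g : ℕ, g = g1 + g2 + g3 + K + c + 1 := ⟨_, rfl⟩
  have hgK : K ≤ g := by omega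
  have hgc : c ≤ g := by omega
  have hg : 1 ≤ g := by omega
  obtain ⟨M, hM1, hM2, hM3⟩ := hg1 g (by omega)
  have hA3 := hg3 g (by omega)
  -- parameters
  obtain ⟨q, hq⟩ : ∃ q : ℕ, q = g ^ 2 := ⟨_, rfl⟩
  obtain ⟨t, ht⟩ : ∃ t : ℕ, t = c * g := ⟨_, rfl⟩
  have htq : t ≤ q := by rw [ht, hq, sq]; exact Nat.mul_le_mul_right _ hgc
  have hq1 : 1 ≤ q := by rw [hq]; exact Nat.one_le_pow _ _ hg
  have ht1 : 1 ≤ t := by rw [ht]; exact Nat.mul_pos (by omega) hg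
  have hexp : 12 * q - 4 * c * g = 12 * q - 4 * t := by rw [ht]; congr 1; ring
  rw [← hq, ← ht, hexp] at hA3
  obtain ⟨N', hN'⟩ : ∃ N' : ℕ, N' = 3 ^ (2 * q + t) * 2 ^ (12 * q - 4 * t) := ⟨_, rfl⟩
  rw [← hN'] at hA3
  -- the choice of `l`
  obtain ⟨X, hX⟩ : ∃ X : ℕ, X = (2 * (8 * q)).choose (8 * q) := ⟨_, rfl⟩
  have hbig := final_big g K hg hgK
  rw [← hq, ← hX] at hbig
  obtain ⟨l, hl1, hl2, hl3⟩ := final_exists_l K X hK hbig
  have hcent := final_central g hg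
  rw [← hq, ← hX] at hcent
  have h4j : 4 ^ (8 * q) ≤ 12 * K * g * 3 ^ l := by
    calc 4 ^ (8 * q) ≤ 6 * g * X := hcent
      _ ≤ 6 * g * (2 * K * 3 ^ l) := Nat.mul_le_mul_left _ hl3.le
      _ = 12 * K * g * 3 ^ l := by ring
  have h4jR : (4 : ℝ) ^ (8 * q) ≤ 12 * K * g * 3 ^ l := by exact_mod_cast h4j
  have hNl4 : 4 * N' ≤ 3 ^ l := by
    have := hg2 g (by omega) l (by
      rw [← hq]
      calc (4 : ℝ) ^ (8 * q) ≤ 12 * K * g * 3 ^ l := h4jR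
        _ = 3 ^ l * (12 * K * g) := by ring)
    rw [← hq, ← ht, hexp, ← hN'] at this
    exact this
  rw [hX] at hl2
  have hH := H (8 * q) l (by omega) hl1 hl2
  -- R, R', F
  obtain ⟨R', hR'⟩ : ∃ R' : ℕ, R' = 10 * M * g := ⟨_, rfl⟩
  obtain ⟨R, hR⟩ : ∃ R : ℕ, R = 10 * M * g + 6 * t := ⟨_, rfl⟩
  obtain ⟨F, hF⟩ : ∃ F : ℕ, F = (2 ^ M - 1) * R := ⟨_, rfl⟩
  have hFq : 2 * F ≤ q := by
    have h1 : F ≤ 2 ^ M * R := by
      rw [hF]; exact Nat.mul_le_mul_right _ (Nat.sub_le _ _)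
    have h2 : 2 * (2 ^ M * R) ≤ q := by
      calc 2 * (2 ^ M * R) = (2 * 2 ^ M * (10 * M + 6 * c)) * g := by rw [hR, ht]; ring
        _ ≤ g * g := Nat.mul_le_mul_right _ hM3
        _ = q := by rw [hq, sq]
    omega
  obtain ⟨Cb, hCb⟩ : ∃ Cb : ℕ, Cb = (q - F).choose ((q - F) / 2) := ⟨_, rfl⟩
  have hw : ∀ u : List Bool, u.length = 4 * q → |imb u| ≤ ((2 * t : ℕ) : ℤ) →
      2 * q - t ≤ ones u ∧ ones u ≤ 2 * q + t := by
    intro u hu hi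
    unfold imb at hi
    rw [hu, abs_le] at hi
    push_cast at hi
    obtain ⟨h1, h2⟩ := hi
    constructor <;> omega
  have hNk : N' ≤ 3 ^ (2 * q - t) * 2 ^ (12 * q) := by
    rw [hN']
    have e1 : 3 ^ (2 * q + t) = 3 ^ (2 * q - t) * 9 ^ t := by
      rw [show (9 : ℕ) = 3 ^ 2 by norm_num, ← pow_mul, ← pow_add]; congr 1; omega
    have e2 : 2 ^ (12 * q) = 2 ^ (12 * q - 4 * t) * 16 ^ t := by
      rw [show (16 : ℕ) = 2 ^ 4 by norm_num, ← pow_mul, ← pow_add]; congr 1; omega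
    rw [e1, e2]
    have : (9 : ℕ) ^ t ≤ 16 ^ t := Nat.pow_le_pow_left (by norm_num) t
    calc 3 ^ (2 * q - t) * 9 ^ t * 2 ^ (12 * q - 4 * t)
        = 3 ^ (2 * q - t) * 2 ^ (12 * q - 4 * t) * 9 ^ t := by ring
      _ ≤ 3 ^ (2 * q - t) * 2 ^ (12 * q - 4 * t) * 16 ^ t := Nat.mul_le_mul_left _ this
      _ = _ := by ring
  obtain ⟨G, hGi, hGii⟩ := core (8 * q) (4 * q) (12 * q) (12 * q - 4 * t) q F (2 * q + t)
    (2 * q - t) l M R R' (2 * t) B N' Cb (by omega) (by omega) (by omega) (by omega) (by omega)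
    (by omega) (by omega) hN' (by omega) hA3 hNk (by rw [hB]; exact Nat.one_le_pow _ _ (by omega))
    hw hF (by rw [hR, hR']; omega) (by rw [hCb]; exact fun k => Nat.choose_le_middle k (q - F))
    (Zbad q (2 * t) B)
    (by
      classical
      unfold Zbad
      rw [show 2 * (8 * q) - q = 11 * q + 4 * q by omega]
      exact filter_subset _ _)
    (fun x hx h => Zbad_mem q (2 * t) B x hx h) hH
  -- the number of units
  have h3N : 3 ∣ 3 ^ l - N' := by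
    apply Nat.dvd_sub (dvd_pow_self 3 (by omega))
    rw [hN']
    exact Dvd.dvd.mul_right (dvd_pow_self 3 (by omega)) _
  obtain ⟨qq, hqq⟩ := h3N
  rw [hqq, final_card_units] at hGi
  -- real forms
  have hgR : (1 : ℝ) ≤ g := by exact_mod_cast hg
  have hKR : (1 : ℝ) ≤ K := by exact_mod_cast hK
  have hMR : (1 : ℝ) ≤ M := by exact_mod_cast hM1
  have hqqR : (3 : ℝ) ^ l ≤ 2 * (2 * qq) := by
    have : 3 ^ l ≤ 2 * (2 * qq) := by omega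
    exact_mod_cast this
  rw [hC0] at hM2
  have hal := final_alive_real B g M K Cs hCs hg hnc hM2 (2 * q - t)
  rw [← hq] at hal
  obtain ⟨AL, hAL⟩ : ∃ AL : ℕ, AL = (B + 2) * 2 ^ (12 * q) * ((4 * q).choose (2 * q - t) +
    ∑ κ ∈ range (3 * B + 1), nc (4 * q) ⟨true, 1, -(κ : ℤ)⟩) := ⟨_, rfl⟩
  rw [← hAL] at hal hGi
  have hGiR : ((M : ℝ) + 1) * (2 * qq) ≤ (M + 1) * G + AL := by exact_mod_cast hGi
  have hKg : (0 : ℝ) < K * g := by positivity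
  have hALR : (AL : ℝ) ≤ M * (2 * qq) / 2 := by
    have h1 : (AL : ℝ) * (48 * K * g) ≤ (M * (2 * qq) / 2) * (48 * K * g) := by
      calc (AL : ℝ) * (48 * K * g) ≤ M * 4 ^ (8 * q) := hal
        _ ≤ M * (12 * K * g * 3 ^ l) := mul_le_mul_of_nonneg_left h4jR (by positivity)
        _ ≤ M * (12 * K * g * (2 * (2 * qq))) := by
            apply mul_le_mul_of_nonneg_left _ (by positivity)
            apply mul_le_mul_of_nonneg_left hqqR (by positivity)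
        _ = (M * (2 * qq) / 2) * (48 * K * g) := by ring
    exact le_of_mul_le_mul_right h1 (by positivity)
  have hGge : (3 : ℝ) ^ l ≤ 4 * G := by
    have h1 : ((M : ℝ) + 1) * (2 * qq) / 2 ≤ (M + 1) * G := by
      have : (0 : ℝ) ≤ 2 * (qq : ℝ) := by positivity
      nlinarith
    have h2 : (2 * (qq : ℝ)) / 2 ≤ G := by
      have h3 : ((M : ℝ) + 1) * ((2 * qq) / 2) ≤ (M + 1) * G := by linarith
      exact le_of_mul_le_mul_left h3 (by positivity)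
    linarith
  have hG0 : (0 : ℝ) < G := by
    have : (0 : ℝ) < 3 ^ l := by positivity
    linarith
  -- failure count
  obtain ⟨fl, hfl⟩ : ∃ fl : ℕ,
    fl = ((bits (12 * q - 4 * t - F)).filter (fun f => (R' : ℤ) ≤ |imb f|)).card := ⟨_, rfl⟩
  rw [← hfl] at hGii
  obtain ⟨P, hP⟩ : ∃ P : ℝ, P = 2 ^ (12 * q - 4 * t - F) := ⟨_, rfl⟩
  have hP0 : 0 < P := by rw [hP]; positivity
  have hflR : (M : ℝ) * fl ≤ P / 8 := by
    have h1 := cheb (12 * q - 4 * t - F) R'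
    rw [← hfl] at h1
    have h2 : fl * R' ^ 2 ≤ 12 * q * 2 ^ (12 * q - 4 * t - F) :=
      h1.trans (Nat.mul_le_mul_right _ (by omega))
    have h3 : (fl : ℝ) * (10 * M * g) ^ 2 ≤ 12 * g ^ 2 * P := by
      have : ((fl * R' ^ 2 : ℕ) : ℝ) ≤ ((12 * q * 2 ^ (12 * q - 4 * t - F) : ℕ) : ℝ) := by
        exact_mod_cast h2
      rw [hR', hq] at this
      push_cast at this
      rw [hP, hq]
      linarith
    have h4 : ((fl : ℝ) * (100 * M ^ 2)) * g ^ 2 ≤ (12 * P) * g ^ 2 := by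
      calc ((fl : ℝ) * (100 * M ^ 2)) * g ^ 2 = (fl : ℝ) * (10 * M * g) ^ 2 := by ring
        _ ≤ 12 * g ^ 2 * P := h3
        _ = _ := by ring
    have h5 : (fl : ℝ) * (100 * M ^ 2) ≤ 12 * P := le_of_mul_le_mul_right h4 (by positivity)
    have h6 : (M : ℝ) * fl ≤ fl * M ^ 2 := by
      have : (0 : ℝ) ≤ fl := by positivity
      nlinarith [mul_nonneg this (by linarith : (0 : ℝ) ≤ M - 1)]
    linarith
  -- binomial in the bad count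
  have hCbR : 2 * (Cb : ℝ) * g ≤ 3 * 2 ^ (q - F) := by
    have h1 := choose_sq_mul_le (q - F) ((q - F) / 2)
    rw [← hCb] at h1
    have h2 : (2 * Cb * g) ^ 2 ≤ (3 * 2 ^ (q - F)) ^ 2 := by
      have h3 : g ^ 2 ≤ 2 * (q - F) := by omega
      calc (2 * Cb * g) ^ 2 = 4 * (Cb ^ 2 * g ^ 2) := by ring
        _ ≤ 4 * (Cb ^ 2 * (2 * (q - F))) := Nat.mul_le_mul_left _ (Nat.mul_le_mul_left _ h3)
        _ = 8 * (Cb ^ 2 * (q - F)) := by ring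
        _ ≤ 8 * 4 ^ (q - F) := Nat.mul_le_mul_left _ h1
        _ ≤ 9 * 4 ^ (q - F) := Nat.mul_le_mul_right _ (by norm_num)
        _ = (3 * 2 ^ (q - F)) ^ 2 := by
            rw [mul_pow, ← pow_mul, mul_comm (q - F) 2, pow_mul]; norm_num
    have h4 : 2 * Cb * g ≤ 3 * 2 ^ (q - F) := (Nat.pow_le_pow_iff_left (by norm_num)).mp h2
    exact_mod_cast h4
  -- the bad set
  have hZ := final_bad_real K g hK hg
  rw [← hB, ← hc, ← ht, ← hq] at hZ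
  obtain ⟨zc, hzc⟩ : ∃ zc : ℕ, zc = (Zbad q (2 * t) B).card := ⟨_, rfl⟩
  rw [← hzc] at hZ hGii
  have hGiiR : (G : ℝ) * P ≤ G * (M * fl) + zc * (3 * 2 ^ (12 * q - 4 * t)) * Cb := by
    rw [hP]
    exact_mod_cast hGii
  have hbad : (zc : ℝ) * (3 * 2 ^ (12 * q - 4 * t)) * Cb ≤ (1 / 2) * (G * P) := by
    have e1 : (2 : ℝ) ^ (12 * q - 4 * t) = P * 2 ^ F := by
      rw [hP, ← pow_add]; congr 1; omega
    have e2 : (2 : ℝ) ^ (15 * q) * (2 ^ F * 2 ^ (q - F)) = 4 ^ (8 * q) := by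
      rw [← pow_add, ← pow_add, show (4 : ℝ) = 2 ^ 2 by norm_num, ← pow_mul]
      congr 1; omega
    have h1 : ((zc : ℝ) * (450 * K)) * (2 * Cb * g) ≤ 2 ^ (15 * q) * (3 * 2 ^ (q - F)) :=
      mul_le_mul hZ hCbR (by positivity) (by positivity)
    have h2 : ((zc : ℝ) * (450 * K)) * (2 * Cb * g) * (2 ^ F * P) ≤
        (3 * 4 ^ (8 * q)) * P := by
      calc ((zc : ℝ) * (450 * K)) * (2 * Cb * g) * (2 ^ F * P) ≤
            2 ^ (15 * q) * (3 * 2 ^ (q - F)) * (2 ^ F * P) :=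
              mul_le_mul_of_nonneg_right h1 (by positivity)
        _ = 3 * (2 ^ (15 * q) * (2 ^ F * 2 ^ (q - F))) * P := by ring
        _ = (3 * 4 ^ (8 * q)) * P := by rw [e2]
    have h3 : (3 * 4 ^ (8 * q)) * P ≤ (3 * (12 * K * g * (4 * G))) * P := by
      apply mul_le_mul_of_nonneg_right _ hP0.le
      have : (12 * K * g * 3 ^ l : ℝ) ≤ 12 * K * g * (4 * G) :=
        mul_le_mul_of_nonneg_left hGge (by positivity)
      linarith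
    have h4 : ((zc : ℝ) * (3 * 2 ^ (12 * q - 4 * t)) * Cb) * (300 * (K * g)) ≤
        ((1 / 2) * (G * P)) * (300 * (K * g)) := by
      calc ((zc : ℝ) * (3 * 2 ^ (12 * q - 4 * t)) * Cb) * (300 * (K * g)) =
            ((zc : ℝ) * (450 * K)) * (2 * Cb * g) * (2 ^ F * P) := by rw [e1]; ring
        _ ≤ (3 * (12 * K * g * (4 * G))) * P := h2.trans h3
        _ ≤ ((1 / 2) * (G * P)) * (300 * (K * g)) := by
            have : 0 ≤ (K : ℝ) * g * (G * P) := by positivity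
            nlinarith
    exact le_of_mul_le_mul_right h4 (by positivity)
  have hGP : 0 < (G : ℝ) * P := by positivity
  have hfin : (G : ℝ) * (M * fl) ≤ G * (P / 8) := mul_le_mul_of_nonneg_left hflR hG0.le
  nlinarith

end Pool.Agent.WCC
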