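import Pool.Agent.WCC.Mom

/-! # Link with the frozen statement: `R_{j-1,j}` is the set of values of balanced bit lists -/

set_option autoImplicit false

namespace Pool.Agent.WCC

open Finset

theorem link_to_list (N : ℕ) : ∀ (k : ℕ) (α : Fin k → ℕ), StrictAnti α → (∀ i, α i < N) →
    ∃ l : List Bool, l.length = N ∧ ones l = k ∧ ∑ i, 2 ^ (α i) * 3 ^ (i : ℕ) = val l := by
  induction N with
  | zero =>
    intro k α _ hb
    cases k with
    | zero => exact ⟨[], rfl, rfl, by simp [val]⟩
    | succ k => exact absurd (hb 0) (Nat.not_lt_zero _)
  | succ N ih =>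
    intro k α hα hb
    cases k with
    | zero =>
      obtain ⟨l, h1, h2, h3⟩ := ih 0 (fun i => i.elim0) (fun i => i.elim0) (fun i => i.elim0)
      refine ⟨false :: l, by simp [h1], by simp [ones_cons, h2], ?_⟩
      rw [val_cons, ← h3]
      simp
    | succ k =>
      by_cases h0 : α (Fin.last k) = 0
      · have hpos : ∀ i : Fin k, 0 < α i.castSucc := by
          intro i
          have h4 : α (Fin.last k) < α i.castSucc := hα (Fin.castSucc_lt_last i)
          omega
        obtain ⟨l, h1, h2, h3⟩ := ih k (fun i => α i.castSucc - 1)
          (fun i i' hi => by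
            have h5 : α i'.castSucc < α i.castSucc := hα (Fin.castSucc_lt_castSucc_iff.2 hi)
            have := hpos i'
            show α i'.castSucc - 1 < α i.castSucc - 1
            omega)
          (fun i => by
            have := hpos i
            have := hb i.castSucc
            show α i.castSucc - 1 < N
            omega)
        refine ⟨true :: l, by simp [h1], by simp [ones_cons, h2], ?_⟩
        rw [val_cons, ← h3, Fin.sum_univ_castSucc, h0, h2, Finset.mul_sum]
        simp only [if_true, pow_zero, one_mul, Fin.val_last, Fin.val_castSucc]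
        congr 1
        refine Finset.sum_congr rfl fun i _ => ?_
        have h6 : α i.castSucc = (α i.castSucc - 1) + 1 := by
          have := hpos i
          omega
        conv_lhs => rw [h6, pow_succ]
        ring
      · have hpos : ∀ i : Fin (k + 1), 0 < α i := by
          intro i
          have h4 : α (Fin.last k) ≤ α i := hα.antitone (Fin.le_last i)
          omega
        obtain ⟨l, h1, h2, h3⟩ := ih (k + 1) (fun i => α i - 1)
          (fun i i' hi => by
            have h5 : α i' < α i := hα hi
            have := hpos i'
            show α i' - 1 < α i - 1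
            omega)
          (fun i => by
            have := hpos i
            have := hb i
            show α i - 1 < N
            omega)
        refine ⟨false :: l, by simp [h1], by simp [ones_cons, h2], ?_⟩
        rw [val_cons, ← h3, Finset.mul_sum]
        simp only [Bool.false_eq_true, if_false, add_zero]
        refine Finset.sum_congr rfl fun i _ => ?_
        have h6 : α i = (α i - 1) + 1 := by
          have := hpos i
          omega
        conv_lhs => rw [h6, pow_succ]
        ring

theorem link_of_list (l : List Bool) : ∃ α : Fin (ones l) → ℕ, StrictAnti α ∧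
    (∀ i, α i < l.length) ∧ val l = ∑ i, 2 ^ (α i) * 3 ^ (i : ℕ) := by
  induction l with
  | nil =>
    have e : ones [] = 0 := rfl
    rw [e]
    exact ⟨fun i => i.elim0, fun i => i.elim0, fun i => i.elim0, by simp [val]⟩
  | cons b l ih =>
    obtain ⟨α, h1, h2, h3⟩ := ih
    cases b
    · have e : ones (false :: l) = ones l := by simp [ones_cons]
      rw [e]
      refine ⟨fun i => α i + 1, fun i i' hi => ?_, fun i => ?_, ?_⟩
      · have := h1 hi
        show α i' + 1 < α i + 1
        omega
      · have := h2 i
        simp only [List.length_cons]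
        omega
      · rw [val_cons, h3, Finset.mul_sum]
        simp only [Bool.false_eq_true, if_false, add_zero]
        refine Finset.sum_congr rfl fun i _ => ?_
        rw [pow_succ]
        ring
    · have e : ones (true :: l) = ones l + 1 := by simp [ones_cons]
      rw [e]
      refine ⟨Fin.snoc (α := fun _ => ℕ) (fun i => α i + 1) 0, ?_, ?_, ?_⟩
      · intro i i' hi
        induction i' using Fin.lastCases with
        | last =>
          induction i using Fin.lastCases with
          | last => exact absurd hi (lt_irrefl _)
          | cast i =>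
            rw [Fin.snoc_last, Fin.snoc_castSucc]
            omega
        | cast i' =>
          induction i using Fin.lastCases with
          | last => exact absurd hi (not_lt.2 (Fin.le_last _))
          | cast i =>
            rw [Fin.snoc_castSucc, Fin.snoc_castSucc]
            have := h1 (Fin.castSucc_lt_castSucc_iff.1 hi)
            omega
      · intro i
        induction i using Fin.lastCases with
        | last => rw [Fin.snoc_last]; simp
        | cast i =>
          rw [Fin.snoc_castSucc, List.length_cons]
          have := h2 i
          omega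
      · rw [val_cons, h3, Finset.mul_sum, Fin.sum_univ_castSucc, Fin.snoc_last]
        simp only [if_true, pow_zero, one_mul, Fin.val_last, Fin.val_castSucc, Fin.snoc_castSucc]
        congr 1
        refine Finset.sum_congr rfl fun i _ => ?_
        rw [pow_succ]
        ring

theorem frozen_set_eq (j : ℕ) (hj : 1 ≤ j) :
    {n : ℕ | ∃ α : Fin j → ℕ, StrictAnti α ∧ (∀ i, α i ≤ 2 * j - 1) ∧
      n = ∑ i, 2 ^ (α i) * 3 ^ (i : ℕ)} =
    {n : ℕ | ∃ l : List Bool, l.length = 2 * j ∧ ones l = j ∧ n = val l} := by
  ext n
  simp only [Set.mem_ofPred_eq]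
  constructor
  · rintro ⟨α, h1, h2, h3⟩
    obtain ⟨l, h4, h5, h6⟩ := link_to_list (2 * j) j α h1 (fun i => by
      have := h2 i
      omega)
    exact ⟨l, h4, h5, h3.trans h6⟩
  · rintro ⟨l, h4, h5, h6⟩
    obtain ⟨α, h1, h2, h3⟩ := link_of_list l
    subst h5
    exact ⟨α, h1, fun i => by have := h2 i; omega, h6.trans h3⟩

theorem frozen_ncard (j : ℕ) (hj : 1 ≤ j) :
    Set.ncard {n : ℕ | ∃ α : Fin j → ℕ, StrictAnti α ∧ (∀ i, α i ≤ 2 * j - 1) ∧
      n = ∑ i, 2 ^ (α i) * 3 ^ (i : ℕ)} = (2 * j).choose j := by
  rw [frozen_set_eq j hj, ← card_ones (2 * j) j]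
  have h : {n : ℕ | ∃ l : List Bool, l.length = 2 * j ∧ ones l = j ∧ n = val l} =
      ((((bits (2 * j)).filter (fun l => ones l = j)).image val : Finset ℕ) : Set ℕ) := by
    ext n
    simp only [Set.mem_ofPred_eq, Finset.coe_image, Set.mem_image, Finset.mem_coe,
      Finset.mem_filter, mem_bits]
    constructor
    · rintro ⟨l, h1, h2, h3⟩
      exact ⟨l, ⟨h1, h2⟩, h3.symm⟩
    · rintro ⟨l, ⟨h1, h2⟩, h3⟩
      exact ⟨l, h1, h2, h3.symm⟩
  rw [h, Set.ncard_coe_finset, Finset.card_image_of_injOn]
  intro a ha b hb hab
  simp only [Finset.coe_filter, Set.mem_ofPred_eq, mem_bits] at ha hb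
  exact val_inj a b (by rw [ha.1, hb.1]) (by rw [ha.2, hb.2]) hab

end Pool.Agent.WCC
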