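import Pool.Agent.WCC.Coal

/-! # Counting alive `Y` -/

set_option autoImplicit false

namespace Pool.Agent.WCC

open Finset

/-- `Y` is alive: some late pattern `u` of length `n` with `kmin ≤ ones u ≤ kmax` is compatible
with the cell starting at `Y` -/
def AliveY (n s N' B kmin kmax Y : ℕ) : Prop :=
  ∃ u : List Bool, u.length = n ∧ kmin ≤ ones u ∧ ones u ≤ kmax ∧
    (2 ^ s * val u) % 3 ^ ones u = Y % 3 ^ ones u ∧
    2 ^ s * val u < Y + N' ∧ Y ≤ 2 ^ s * val u + B * 3 ^ ones u * 2 ^ s

theorem alive_card_ones (n k : ℕ) :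
    ((bits n).filter (fun l => ones l = k)).card = n.choose k := by
  induction n generalizing k with
  | zero =>
    cases k with
    | zero => rfl
    | succ k => rfl
  | succ n ih =>
    rw [card_filter, sum_bits_succ, sum_add_distrib, ← card_filter, ← card_filter]
    cases k with
    | zero =>
      have h1 : ((bits n).filter (fun l => ones (false :: l) = 0)).card = n.choose 0 := by
        rw [← ih 0]; simp [ones_cons]
      have h2 : ((bits n).filter (fun l => ones (true :: l) = 0)).card = 0 := by
        rw [card_eq_zero, filter_eq_empty_iff]; intro l _; simp [ones_cons]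
      rw [h1, h2]; simp
    | succ k =>
      have h1 : ((bits n).filter (fun l => ones (false :: l) = k + 1)).card
          = n.choose (k + 1) := by
        rw [← ih (k + 1)]; simp [ones_cons]
      have h2 : ((bits n).filter (fun l => ones (true :: l) = k + 1)).card = n.choose k := by
        rw [← ih k]; simp [ones_cons]
      rw [h1, h2, Nat.choose_succ_succ, add_comm]

/-- the `Y` compatible with `u` -/
def aliveComp (s N' B Z : ℕ) (u : List Bool) : Finset ℕ :=
  (range Z).filter (fun Y => (2 ^ s * val u) % 3 ^ ones u = Y % 3 ^ ones u ∧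
    2 ^ s * val u < Y + N' ∧ Y ≤ 2 ^ s * val u + B * 3 ^ ones u * 2 ^ s)

theorem alive_comp_card (s N' B Z : ℕ) (u : List Bool) (hN : N' ≤ 3 ^ ones u * 2 ^ s) :
    (aliveComp s N' B Z u).card ≤ (B + 2) * 2 ^ s := by
  have hcard : ((range ((B + 2) * 2 ^ s))).card = (B + 2) * 2 ^ s := card_range _
  rw [← hcard]
  set z := 2 ^ s * val u with hz
  set q := 3 ^ ones u with hq
  have hqpos : 0 < q := by positivity
  refine card_le_card_of_injOn (fun Y => (Y + q * 2 ^ s - z) / q) ?_ ?_
  · intro Y hY
    simp only [aliveComp, coe_filter, mem_range, Set.mem_ofPred_eq] at hY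
    obtain ⟨_, hmod, h1, h2⟩ := hY
    rw [← hq] at h2
    simp only [coe_range, Set.mem_Iio]
    rw [Nat.div_lt_iff_lt_mul hqpos]
    have h3 : 0 < q * 2 ^ s := by positivity
    have h4 : (B + 2) * 2 ^ s * q = B * q * 2 ^ s + q * 2 ^ s + q * 2 ^ s := by ring
    rw [h4]
    omega
  · intro Y hY Y' hY' he
    simp only [aliveComp, coe_filter, mem_range, Set.mem_ofPred_eq] at hY hY'
    obtain ⟨_, hmod, h1, _⟩ := hY
    obtain ⟨_, hmod', h1', _⟩ := hY'
    simp only at he
    have h5 : (Y + q * 2 ^ s - z) % q = 0 := by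
      have hle : z ≤ Y + q * 2 ^ s := by omega
      apply Nat.mod_eq_zero_of_dvd
      rw [← Nat.modEq_iff_dvd' hle]
      have : z ≡ Y [MOD q] := hmod
      calc z ≡ Y [MOD q] := this
        _ ≡ Y + q * 2 ^ s [MOD q] := by simp [Nat.ModEq]
    have h6 : (Y' + q * 2 ^ s - z) % q = 0 := by
      have hle : z ≤ Y' + q * 2 ^ s := by omega
      apply Nat.mod_eq_zero_of_dvd
      rw [← Nat.modEq_iff_dvd' hle]
      have : z ≡ Y' [MOD q] := hmod'
      calc z ≡ Y' [MOD q] := this
        _ ≡ Y' + q * 2 ^ s [MOD q] := by simp [Nat.ModEq]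
    have h7 := Nat.div_add_mod (Y + q * 2 ^ s - z) q
    have h8 := Nat.div_add_mod (Y' + q * 2 ^ s - z) q
    rw [he, h5] at h7
    rw [h6] at h8
    omega

open Classical in
theorem alive_count_aux (n s N' B kmin kmax Z : ℕ) (hB : 1 ≤ B) (hN : N' ≤ 3 ^ kmin * 2 ^ s)
    (coal_ex : ∀ (κ : ℕ) (u : List Bool), coal u ⟨true, 1, -(κ : ℤ)⟩ →
      ∃ u' : List Bool, u'.length = u.length ∧ ones u = ones u' + 1 ∧
        val u' = val u + 3 ^ ones u' * κ) :
    ((range Z).filter (fun Y => AliveY n s N' B kmin kmax Y)).card ≤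
      (B + 2) * 2 ^ s * (n.choose kmin +
        ∑ κ ∈ range (3 * B + 1), nc n ⟨true, 1, -(κ : ℤ)⟩) := by
  set T1 := (bits n).filter (fun l => ones l = kmin) with hT1
  set T2 := (range (3 * B + 1)).biUnion (fun κ =>
    ((bits n).filter (fun u => ¬ coal u ⟨true, 1, -(κ : ℤ)⟩)).filter
      (fun u => kmin ≤ ones u)) with hT2
  have hsub : (range Z).filter (fun Y => AliveY n s N' B kmin kmax Y) ⊆
      (T1 ∪ T2).biUnion (fun u => aliveComp s N' B Z u) := by
    intro Y hY
    simp only [mem_filter, mem_range] at hY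
    obtain ⟨hYZ, hY⟩ := hY
    -- minimal number of ones
    have hex : ∃ k, ∃ u : List Bool, ones u = k ∧ u.length = n ∧ kmin ≤ ones u ∧
        ones u ≤ kmax ∧ (2 ^ s * val u) % 3 ^ ones u = Y % 3 ^ ones u ∧
        2 ^ s * val u < Y + N' ∧ Y ≤ 2 ^ s * val u + B * 3 ^ ones u * 2 ^ s := by
      obtain ⟨u, hu⟩ := hY
      exact ⟨ones u, u, rfl, hu⟩
    obtain ⟨u, hk, hlen, hmin, hmax, hmod, hlt, hle⟩ := Nat.find_spec hex
    have hnot := fun m hm => Nat.find_min hex (m := m) hm
    rw [mem_biUnion]
    refine ⟨u, ?_, ?_⟩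
    · rw [mem_union]
      rcases Nat.eq_or_lt_of_le hmin with he | hgt
      · left
        rw [hT1, mem_filter, mem_bits]
        exact ⟨hlen, he.symm⟩
      · right
        set z := 2 ^ s * val u with hz
        set c := 3 ^ (ones u - 1) * 2 ^ s with hc
        have hcpos : 0 < c := by positivity
        have h3c : B * 3 ^ ones u * 2 ^ s = (3 * B) * c := by
          rw [hc]
          have : 3 ^ ones u = 3 * 3 ^ (ones u - 1) := by
            rw [← pow_succ']; congr 1; omega
          rw [this]; ring
        set κ := (Y - z - 1) / c with hκ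
        have hκlt : κ < 3 * B + 1 := by
          have : κ ≤ 3 * B := by
            rw [hκ]
            apply Nat.le_of_lt_succ
            rw [Nat.div_lt_iff_lt_mul hcpos, Nat.succ_mul]
            omega
          omega
        rw [hT2, mem_biUnion]
        refine ⟨κ, mem_range.2 hκlt, ?_⟩
        rw [mem_filter, mem_filter, mem_bits]
        refine ⟨⟨hlen, ?_⟩, hmin⟩
        intro hcoal
        obtain ⟨u', hl', ho', hv'⟩ := coal_ex κ u hcoal
        have hk' : ones u' = ones u - 1 := by omega
        refine hnot (ones u') (by omega) ⟨u', rfl, by omega, by omega, by omega, ?_, ?_, ?_⟩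
        · have e : 2 ^ s * val u' = z + 3 ^ ones u' * (2 ^ s * κ) := by
            rw [hv', hz]; ring
          rw [e, Nat.add_mul_mod_self_left]
          have hd : 3 ^ ones u' ∣ 3 ^ ones u := pow_dvd_pow 3 (by omega)
          exact (Nat.ModEq.of_dvd hd hmod : z ≡ Y [MOD 3 ^ ones u'])
        · have e : 2 ^ s * val u' = z + c * κ := by
            rw [hv', hz, hc, hk']; ring
          rw [e]
          have h9 : c * κ ≤ Y - z - 1 := by rw [hκ]; exact Nat.mul_div_le _ _
          omega
        · have e : 2 ^ s * val u' = z + c * κ := by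
            rw [hv', hz, hc, hk']; ring
          have e2 : B * 3 ^ ones u' * 2 ^ s = B * c := by rw [hc, hk']; ring
          rw [e, e2]
          have h10 : Y - z - 1 < c * (κ + 1) := by
            rw [hκ]; exact Nat.lt_mul_div_succ _ hcpos
          have h11 : c ≤ B * c := Nat.le_mul_of_pos_left _ hB
          rw [mul_add] at h10
          omega
    · simp only [aliveComp, mem_filter, mem_range]
      exact ⟨hYZ, hmod, hlt, hle⟩
  have hkm : ∀ u ∈ T1 ∪ T2, kmin ≤ ones u := by
    intro u hu
    rw [mem_union] at hu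
    rcases hu with hu | hu
    · rw [hT1, mem_filter] at hu; omega
    · rw [hT2, mem_biUnion] at hu
      obtain ⟨κ, _, hu⟩ := hu
      exact (mem_filter.1 hu).2
  calc ((range Z).filter (fun Y => AliveY n s N' B kmin kmax Y)).card
      ≤ ((T1 ∪ T2).biUnion (fun u => aliveComp s N' B Z u)).card := card_le_card hsub
    _ ≤ (T1 ∪ T2).card * ((B + 2) * 2 ^ s) := by
        apply card_biUnion_le_card_mul
        intro u hu
        apply alive_comp_card
        exact hN.trans (Nat.mul_le_mul_right _ (Nat.pow_le_pow_right (by norm_num) (hkm u hu)))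
    _ ≤ (n.choose kmin + ∑ κ ∈ range (3 * B + 1), nc n ⟨true, 1, -(κ : ℤ)⟩) *
          ((B + 2) * 2 ^ s) := by
        apply Nat.mul_le_mul_right
        refine (card_union_le _ _).trans (Nat.add_le_add ?_ ?_)
        · rw [hT1, alive_card_ones]
        · refine card_biUnion_le.trans (sum_le_sum fun κ _ => ?_)
          exact card_le_card (filter_subset _ _)
    _ = _ := by ring

open Classical in
theorem alive_count (n s N' B kmin kmax Z : ℕ) (hB : 1 ≤ B) (hN : N' ≤ 3 ^ kmin * 2 ^ s) :
    ((range Z).filter (fun Y => AliveY n s N' B kmin kmax Y)).card ≤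
      (B + 2) * 2 ^ s * (n.choose kmin +
        ∑ κ ∈ range (3 * B + 1), nc n ⟨true, 1, -(κ : ℤ)⟩) :=
  alive_count_aux n s N' B kmin kmax Z hB hN coal_exists

end Pool.Agent.WCC
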