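import Mathlib

/-! # Module Asym (MP_77f1eb_nt): elementary asymptotics -/

set_option autoImplicit false

namespace Pool.Agent.WCC

theorem asym (C : ℝ) (c : ℕ) : ∃ g0 : ℕ, ∀ g : ℕ, g0 ≤ g → ∃ M : ℕ, 1 ≤ M ∧
    C * Real.sqrt (Real.log (4 * (g : ℝ) ^ 2)) + C ≤ M ∧
    2 * 2 ^ M * (10 * M + 6 * c) ≤ g := by
  set A : ℝ := |C| with hA
  have hA0 : 0 ≤ A := abs_nonneg C
  have hCA : C ≤ A := le_abs_self C
  set L0 : ℝ := 60 + 2 * c + 18 * A ^ 2 + 6 * A with hL0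
  refine ⟨⌈Real.exp L0⌉₊, fun g hg => ?_⟩
  have hgR : Real.exp L0 ≤ (g : ℝ) := by
    have := Nat.ceil_le.mp hg
    exact this
  have hgpos : (0 : ℝ) < g := lt_of_lt_of_le (Real.exp_pos _) hgR
  set L : ℝ := Real.log g with hL
  have hLL0 : L0 ≤ L := by
    rw [hL, Real.le_log_iff_exp_le hgpos]; exact hgR
  have hexpL : Real.exp L = g := Real.exp_log hgpos
  have hc0 : (0 : ℝ) ≤ c := Nat.cast_nonneg c
  have hL60 : 60 ≤ L := by
    have : 60 ≤ L0 := by rw [hL0]; nlinarith [sq_nonneg A]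
    linarith
  have hL2c : 2 * (c : ℝ) ≤ L := by
    have : 2 * (c : ℝ) ≤ L0 := by rw [hL0]; nlinarith [sq_nonneg A]
    linarith
  set M : ℕ := ⌊L / 3⌋₊ with hM
  have hMle : (M : ℝ) ≤ L / 3 := Nat.floor_le (by linarith)
  have hMlt : L / 3 < M + 1 := Nat.lt_floor_add_one _
  refine ⟨M, ?_, ?_, ?_⟩
  · rw [hM, Nat.one_le_floor_iff]; linarith
  · -- square root estimate
    have hlog : Real.log (4 * (g : ℝ) ^ 2) = Real.log 4 + 2 * L := by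
      rw [Real.log_mul (by norm_num) (by positivity), Real.log_pow]; norm_num [hL]
    have hlog4 : Real.log 4 ≤ 2 := by
      have h4 : (4 : ℝ) = 2 ^ 2 := by norm_num
      rw [h4, Real.log_pow]
      have := Real.log_two_lt_d9
      push_cast; linarith
    have hlog4' : 0 ≤ Real.log 4 := Real.log_nonneg (by norm_num)
    set t : ℝ := Real.log (4 * (g : ℝ) ^ 2) with ht
    have ht0 : 0 ≤ t := by rw [hlog]; linarith
    have hs := Real.sq_sqrt ht0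
    have hsn := Real.sqrt_nonneg t
    have h1 : A * Real.sqrt t ≤ t / 12 + 3 * A ^ 2 := by
      nlinarith [sq_nonneg (Real.sqrt t - 6 * A)]
    have h2 : C * Real.sqrt t ≤ A * Real.sqrt t := mul_le_mul_of_nonneg_right hCA hsn
    have h3 : t ≤ 2 + 2 * L := by rw [hlog]; linarith
    have h4 : L0 ≤ L := hLL0
    rw [hL0] at h4
    nlinarith
  · -- exponential estimate
    have h2M : (2 : ℝ) ^ M ≤ Real.exp (L / 3) := by
      have h1 : (2 : ℝ) ≤ Real.exp 1 := by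
        have := Real.exp_one_gt_d9; linarith
      calc (2 : ℝ) ^ M ≤ (Real.exp 1) ^ M := pow_le_pow_left₀ (by norm_num) h1 M
        _ = Real.exp M := by rw [← Real.exp_nat_mul]; simp
        _ ≤ Real.exp (L / 3) := Real.exp_le_exp.mpr hMle
    have hquad : 2 * (L / 3) ^ 2 ≤ Real.exp (2 * L / 3) := by
      have h := Real.quadratic_le_exp_of_nonneg (x := 2 * L / 3) (by linarith)
      nlinarith
    have h3 : 2 * (10 * (M : ℝ) + 6 * c) ≤ Real.exp (2 * L / 3) := by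
      refine le_trans ?_ hquad
      nlinarith
    have hmul : Real.exp (L / 3) * Real.exp (2 * L / 3) = g := by
      rw [← Real.exp_add, ← hexpL]; congr 1; ring
    have key : ((2 * 2 ^ M * (10 * M + 6 * c) : ℕ) : ℝ) ≤ (g : ℝ) := by
      push_cast
      calc (2 : ℝ) * 2 ^ M * (10 * M + 6 * c) = 2 ^ M * (2 * (10 * (M : ℝ) + 6 * c)) := by ring
        _ ≤ Real.exp (L / 3) * Real.exp (2 * L / 3) := by
            apply mul_le_mul h2M h3 (by positivity) (Real.exp_pos _).le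
        _ = g := hmul
    exact_mod_cast key

/-- exponential beats polynomial: `3^l` dominates the cell size -/
theorem asym2 (K : ℝ) (c : ℕ) : ∃ g0 : ℕ, ∀ g : ℕ, g0 ≤ g → ∀ l : ℕ,
    (4 : ℝ) ^ (8 * g ^ 2) ≤ 3 ^ l * (K * g) →
    4 * (3 ^ (2 * g ^ 2 + c * g) * 2 ^ (12 * g ^ 2 - 4 * c * g)) ≤ 3 ^ l := by
  refine ⟨max (c + 1) ⌈36 * |K| / 7⌉₊, fun g hg l h => ?_⟩
  have hgc : c + 1 ≤ g := le_trans (le_max_left _ _) hg
  have hgK : 36 * |K| / 7 ≤ (g : ℝ) := Nat.ceil_le.mp (le_trans (le_max_right _ _) hg)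
  have hg1 : 1 ≤ g := by omega
  have hgR : (0 : ℝ) < g := by exact_mod_cast hg1
  have hsub : 4 * c * g ≤ 12 * g ^ 2 := by nlinarith
  have hKpos : 0 < K * g := by
    by_contra hcon
    push Not at hcon
    have h1 : (0 : ℝ) < 4 ^ (8 * g ^ 2) := by positivity
    have h2 : (3 : ℝ) ^ l * (K * g) ≤ 0 := mul_nonpos_of_nonneg_of_nonpos (by positivity) hcon
    linarith
  -- the main inequality
  have hb : 4 * (K * g) * 9 ^ (g ^ 2) ≤ (16 : ℝ) ^ (g ^ 2) := by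
    have hbern : 1 + (g ^ 2 : ℕ) * (7 / 9 : ℝ) ≤ (1 + 7 / 9 : ℝ) ^ (g ^ 2) :=
      one_add_mul_le_pow (by norm_num) _
    have h1 : 4 * (K * g) ≤ (1 + 7 / 9 : ℝ) ^ (g ^ 2) := by
      refine le_trans ?_ hbern
      have hK : K ≤ |K| := le_abs_self K
      have h2 : K * g ≤ |K| * g := mul_le_mul_of_nonneg_right hK hgR.le
      have h3 : 36 * |K| * g ≤ 7 * (g : ℝ) * g := by
        have : 36 * |K| ≤ 7 * (g : ℝ) := by linarith
        exact mul_le_mul_of_nonneg_right this hgR.le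
      push_cast
      nlinarith
    calc 4 * (K * g) * 9 ^ (g ^ 2) ≤ (1 + 7 / 9 : ℝ) ^ (g ^ 2) * 9 ^ (g ^ 2) :=
          mul_le_mul_of_nonneg_right h1 (by positivity)
      _ = (16 : ℝ) ^ (g ^ 2) := by rw [← mul_pow]; norm_num
  have hc2 : (3 : ℝ) ^ (c * g) ≤ 2 ^ (4 * c * g) := by
    have : (2 : ℝ) ^ (4 * c * g) = 16 ^ (c * g) := by
      rw [show 4 * c * g = 4 * (c * g) by ring, pow_mul]; norm_num
    rw [this]
    exact pow_le_pow_left₀ (by norm_num) (by norm_num) _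
  have h12 : (2 : ℝ) ^ (12 * g ^ 2 - 4 * c * g) * 2 ^ (4 * c * g) = 2 ^ (12 * g ^ 2) := by
    rw [← pow_add]; congr 1; omega
  have h4 : (4 : ℝ) ^ (8 * g ^ 2) = 2 ^ (12 * g ^ 2) * 16 ^ (g ^ 2) := by
    rw [show (4 : ℝ) = 2 ^ 2 by norm_num, show (16 : ℝ) = 2 ^ 4 by norm_num, ← pow_mul, ← pow_mul,
      ← pow_add]
    congr 1; ring
  have h9 : (3 : ℝ) ^ (2 * g ^ 2 + c * g) = 9 ^ (g ^ 2) * 3 ^ (c * g) := by
    rw [pow_add, pow_mul]; norm_num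
  have key : (4 * (3 ^ (2 * g ^ 2 + c * g) * 2 ^ (12 * g ^ 2 - 4 * c * g)) : ℝ) * (K * g) ≤
      3 ^ l * (K * g) := by
    refine le_trans ?_ h
    rw [h4, h9]
    calc (4 * (9 ^ (g ^ 2) * 3 ^ (c * g) * 2 ^ (12 * g ^ 2 - 4 * c * g)) : ℝ) * (K * g)
        = (4 * (K * g) * 9 ^ (g ^ 2)) * (2 ^ (12 * g ^ 2 - 4 * c * g) * 3 ^ (c * g)) := by ring
      _ ≤ (16 : ℝ) ^ (g ^ 2) * (2 ^ (12 * g ^ 2 - 4 * c * g) * 2 ^ (4 * c * g)) := by
          apply mul_le_mul hb _ (by positivity) (by positivity)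
          exact mul_le_mul_of_nonneg_left hc2 (by positivity)
      _ = 2 ^ (12 * g ^ 2) * 16 ^ (g ^ 2) := by rw [h12]; ring
  have key2 : (4 * (3 ^ (2 * g ^ 2 + c * g) * 2 ^ (12 * g ^ 2 - 4 * c * g)) : ℝ) ≤ 3 ^ l :=
    le_of_mul_le_mul_right key hKpos
  exact_mod_cast key2

theorem asym3 (c : ℕ) : ∃ g0 : ℕ, ∀ g : ℕ, g0 ≤ g →
    3 ^ (8 * g ^ 2) * 2 ^ (g ^ 2) ≤ 3 ^ (2 * g ^ 2 + c * g) * 2 ^ (12 * g ^ 2 - 4 * c * g) := by
  refine ⟨2 * c, fun g hg => ?_⟩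
  obtain ⟨d, rfl⟩ : ∃ d, g = 2 * c + d := ⟨g - 2 * c, by omega⟩
  set g := 2 * c + d with hgd
  have hsub : 4 * c * g ≤ 12 * g ^ 2 := by nlinarith
  have hsq : g ^ 2 = 2 * (c * g) + d * g := by rw [hgd]; ring
  -- multiply by `2^(4cg)`
  have h2 : (0 : ℕ) < 2 ^ (4 * c * g) := by positivity
  refine Nat.le_of_mul_le_mul_right ?_ h2
  have e1 : 3 ^ (2 * g ^ 2 + c * g) * 2 ^ (12 * g ^ 2 - 4 * c * g) * 2 ^ (4 * c * g) =
      3 ^ (2 * g ^ 2) * (3 ^ (c * g) * 2 ^ (12 * g ^ 2)) := by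
    rw [mul_assoc, ← pow_add, Nat.sub_add_cancel hsub, pow_add]; ring
  have e2 : 3 ^ (8 * g ^ 2) * 2 ^ (g ^ 2) * 2 ^ (4 * c * g) =
      3 ^ (2 * g ^ 2) * (3 ^ (6 * g ^ 2) * 2 ^ (g ^ 2) * 2 ^ (4 * c * g)) := by
    rw [show 8 * g ^ 2 = 2 * g ^ 2 + 6 * g ^ 2 by ring, pow_add]; ring
  rw [e1, e2]
  apply Nat.mul_le_mul_left
  have f1 : 3 ^ (6 * g ^ 2) * 2 ^ (g ^ 2) = 1458 ^ (g ^ 2) := by
    rw [pow_mul, ← mul_pow]; norm_num
  have f2 : 2 ^ (12 * g ^ 2) = 4096 ^ (g ^ 2) := by rw [pow_mul]; norm_num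
  have f3 : 2 ^ (4 * c * g) = 16 ^ (c * g) := by
    rw [show 4 * c * g = 4 * (c * g) by ring, pow_mul]; norm_num
  have g1 : 1458 ^ (2 * (c * g)) = (1458 ^ 2) ^ (c * g) := by rw [pow_mul]
  have g2 : 4096 ^ (2 * (c * g)) = (4096 ^ 2) ^ (c * g) := by rw [pow_mul]
  rw [f1, f2, f3, hsq, pow_add, pow_add, g1, g2]
  calc (1458 ^ 2) ^ (c * g) * 1458 ^ (d * g) * 16 ^ (c * g)
      = (1458 ^ 2 * 16) ^ (c * g) * 1458 ^ (d * g) := by rw [mul_pow]; ring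
    _ ≤ (3 * 4096 ^ 2) ^ (c * g) * 4096 ^ (d * g) :=
        Nat.mul_le_mul (Nat.pow_le_pow_left (by norm_num) _) (Nat.pow_le_pow_left (by norm_num) _)
    _ = 3 ^ (c * g) * ((4096 ^ 2) ^ (c * g) * 4096 ^ (d * g)) := by rw [mul_pow]; ring

end Pool.Agent.WCC
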