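import Pool.Agent.WCC.Pat

/-! # Module Bad: counting the hits whose late part lies in a bad set -/

set_option autoImplicit false

namespace Pool.Agent.WCC

open Finset

theorem bad_card_ones (n k : ℕ) : ((bits n).filter (fun l => ones l = k)).card = n.choose k := by
  induction n generalizing k with
  | zero =>
    cases k with
    | zero => simp [bits, ones, Finset.filter_singleton]
    | succ k => simp [bits, ones, Finset.filter_singleton]
  | succ n ih =>
    rw [card_eq_sum_ones, sum_filter, sum_bits_succ, sum_add_distrib]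
    have h1 : ∑ l ∈ bits n, (if ones (false :: l) = k then 1 else 0) = n.choose k := by
      rw [← ih k, card_eq_sum_ones, sum_filter]
      refine sum_congr rfl fun l _ => ?_
      simp [ones_cons]
    rw [h1]
    cases k with
    | zero =>
      have h2 : ∑ l ∈ bits n, (if ones (true :: l) = 0 then 1 else 0) = 0 := by
        refine sum_eq_zero fun l _ => ?_
        simp [ones_cons]
      rw [h2]
      simp
    | succ k =>
      have h2 : ∑ l ∈ bits n, (if ones (true :: l) = k + 1 then 1 else 0) = n.choose k := by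
        rw [← ih k, card_eq_sum_ones, sum_filter]
        refine sum_congr rfl fun l _ => ?_
        simp [ones_cons]
      rw [h2, Nat.choose_succ_succ]
      ring

/-- the values of `Y` compatible with the late part of value `A` -/
def badY (m s1 A : ℕ) : Finset ℕ :=
  (range (A + 3 ^ m * 2 ^ s1 + 1)).filter
    (fun Y => A < Y + 3 ^ m * 2 ^ s1 ∧ Y % 3 ^ m = A % 3 ^ m)

theorem badY_card (m s1 A : ℕ) : (badY m s1 A).card ≤ 3 * 2 ^ s1 := by
  have h3 : 0 < 3 ^ m := by positivity
  have key : ∀ Y ∈ badY m s1 A, ∃ q, 1 ≤ q ∧ q ≤ 2 * 2 ^ s1 ∧ Y + 3 ^ m * 2 ^ s1 = A + 3 ^ m * q := by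
    intro Y hY
    unfold badY at hY
    rw [mem_filter, mem_range] at hY
    obtain ⟨h1, h2, h4⟩ := hY
    have h5 : A ≡ Y + 3 ^ m * 2 ^ s1 [MOD 3 ^ m] := by
      have h6 : Y + 3 ^ m * 2 ^ s1 ≡ Y [MOD 3 ^ m] := by
        unfold Nat.ModEq
        rw [Nat.add_mul_mod_self_left]
      exact (h6.trans h4).symm
    obtain ⟨q, hq⟩ := (Nat.modEq_iff_dvd' h2.le).1 h5
    refine ⟨q, ?_, ?_, by omega⟩
    · rcases Nat.eq_zero_or_pos q with h | h
      · rw [h] at hq; omega
      · exact h
    · have h7 : 3 ^ m * q ≤ 3 ^ m * (2 * 2 ^ s1) := by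
        have : 3 ^ m * (2 * 2 ^ s1) = 3 ^ m * 2 ^ s1 + 3 ^ m * 2 ^ s1 := by ring
        omega
      exact Nat.le_of_mul_le_mul_left h7 h3
  calc (badY m s1 A).card ≤ (Finset.Icc 1 (2 * 2 ^ s1)).card := by
        refine card_le_card_of_injOn (fun Y => (Y + 3 ^ m * 2 ^ s1 - A) / 3 ^ m) ?_ ?_
        · intro Y hY
          obtain ⟨q, hq1, hq2, hq⟩ := key Y hY
          have : (Y + 3 ^ m * 2 ^ s1 - A) / 3 ^ m = q := by
            rw [hq, Nat.add_sub_cancel_left, Nat.mul_div_cancel_left _ h3]
          simp only [this, coe_Icc, Set.mem_Icc]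
          exact ⟨hq1, hq2⟩
        · intro Y hY Y' hY' h
          obtain ⟨q, -, -, hq⟩ := key Y hY
          obtain ⟨q', -, -, hq'⟩ := key Y' hY'
          simp only at h
          rw [hq, hq', Nat.add_sub_cancel_left, Nat.add_sub_cancel_left,
            Nat.mul_div_cancel_left _ h3, Nat.mul_div_cancel_left _ h3] at h
          rw [h] at hq
          omega
    _ ≤ 3 * 2 ^ s1 := by
        rw [Nat.card_Icc]
        omega

open Classical in
/-- number of pairs `(Y, i)` such that `Y + 3^m i` is a hit whose first `F` bits are `V Y` and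
whose part above `s2` lies in the bad set `Zb` -/
theorem bad_count (j s1 s2 F m N' C : ℕ) (V : ℕ → List Bool) (hV : ∀ Y, (V Y).length = F)
    (hN' : N' = 3 ^ m * 2 ^ s1) (hL : 3 ^ j * 2 ^ s2 ≤ N') (hm : m + s2 ≤ j) (hF : F ≤ s2)
    (Zb : Finset (List Bool)) (hZ : Zb ⊆ bits (2 * j - s2)) (hs2 : s2 ≤ 2 * j)
    (hC : ∀ k, (s2 - F).choose k ≤ C)
    (S : Finset (ℕ × ℕ))
    (hS : ∀ p ∈ S, p.2 < 2 ^ s1 ∧ ∃ x : List Bool, x.length = 2 * j ∧ ones x = j ∧
      val x = p.1 + 3 ^ m * p.2 ∧ x.take F = V p.1 ∧ x.drop s2 ∈ Zb) :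
    S.card ≤ Zb.card * (3 * 2 ^ s1) * C := by
  have h3 : 0 < 3 ^ m := by positivity
  -- the triples
  let T : Finset (List Bool × ℕ × List Bool) :=
    Zb.biUnion fun z => (badY m s1 (2 ^ s2 * val z)).biUnion fun Y =>
      ((bits (s2 - F)).filter (fun f => ones f = j - ones z - ones (V Y))).image
        (fun f => (z, Y, f))
  have hT : T.card ≤ Zb.card * (3 * 2 ^ s1) * C := by
    calc T.card ≤ ∑ z ∈ Zb, ((badY m s1 (2 ^ s2 * val z)).biUnion fun Y =>
          ((bits (s2 - F)).filter (fun f => ones f = j - ones z - ones (V Y))).image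
            (fun f => (z, Y, f))).card := card_biUnion_le
      _ ≤ ∑ z ∈ Zb, ∑ Y ∈ badY m s1 (2 ^ s2 * val z),
          (((bits (s2 - F)).filter (fun f => ones f = j - ones z - ones (V Y))).image
            (fun f => (z, Y, f))).card := sum_le_sum fun z _ => card_biUnion_le
      _ ≤ ∑ z ∈ Zb, ∑ Y ∈ badY m s1 (2 ^ s2 * val z), C := by
          refine sum_le_sum fun z _ => sum_le_sum fun Y _ => ?_
          refine card_image_le.trans ?_
          rw [bad_card_ones]
          exact hC _
      _ ≤ ∑ _z ∈ Zb, (3 * 2 ^ s1) * C := by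
          refine sum_le_sum fun z _ => ?_
          rw [sum_const, smul_eq_mul]
          exact Nat.mul_le_mul_right _ (badY_card _ _ _)
      _ = Zb.card * (3 * 2 ^ s1) * C := by
          rw [sum_const, smul_eq_mul]
          ring
  refine le_trans ?_ hT
  choose! x hx using fun p (hp : p ∈ S) => (hS p hp).2
  have hdec : ∀ p ∈ S, x p = V p.1 ++ (((x p).take s2).drop F ++ (x p).drop s2) := by
    intro p hp
    obtain ⟨h1, h2, h4, h5, h6⟩ := hx p hp
    have e1 : (x p).take s2 = V p.1 ++ ((x p).take s2).drop F := by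
      conv_lhs => rw [← List.take_append_drop F ((x p).take s2)]
      rw [List.take_take, min_eq_left hF, h5]
    calc x p = (x p).take s2 ++ (x p).drop s2 := (List.take_append_drop s2 (x p)).symm
      _ = (V p.1 ++ ((x p).take s2).drop F) ++ (x p).drop s2 := by rw [← e1]
      _ = _ := List.append_assoc _ _ _
  refine card_le_card_of_injOn (fun p => ((x p).drop s2, p.1, ((x p).take s2).drop F)) ?_ ?_
  · intro p hp
    have hp' : p ∈ S := hp
    obtain ⟨h1, h2, h4, h5, h6⟩ := hx p hp'
    have hi := (hS p hp').1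
    have hlen : ((x p).take s2).length = s2 := by
      rw [List.length_take, h1, min_eq_left hs2]
    have hval := val_append ((x p).take s2) ((x p).drop s2)
    rw [List.take_append_drop, hlen] at hval
    have hones := ones_append ((x p).take s2) ((x p).drop s2)
    rw [List.take_append_drop, h2] at hones
    have hlow := ones_le_length ((x p).take s2)
    rw [hlen] at hlow
    have hmul := val_mul_le ((x p).take s2)
    rw [hlen] at hmul
    simp only [T, mem_coe, mem_biUnion, mem_image, mem_filter, Prod.mk.injEq]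
    refine ⟨(x p).drop s2, h6, p.1, ?_, ((x p).take s2).drop F, ⟨?_, ?_⟩, rfl, rfl, rfl⟩
    · -- the residue condition
      set z := (x p).drop s2 with hz
      set low := (x p).take s2 with hlowdef
      have hmz : m ≤ ones z := by omega
      have hb : 3 ^ ones z * val low ≤ N' := by
        refine le_trans ?_ hL
        have e2 : val low ≤ 2 ^ s2 * 3 ^ ones low := by
          have e3 : val low * 1 ≤ val low * 2 ^ ones low :=
            Nat.mul_le_mul_left _ (Nat.one_le_two_pow)
          omega
        calc 3 ^ ones z * val low ≤ 3 ^ ones z * (2 ^ s2 * 3 ^ ones low) :=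
              Nat.mul_le_mul_left _ e2
          _ = 3 ^ (ones low + ones z) * 2 ^ s2 := by rw [pow_add]; ring
          _ = 3 ^ j * 2 ^ s2 := by rw [← hones]
      have hi2 : 3 ^ m * p.2 < N' := by
        rw [hN']
        exact Nat.mul_lt_mul_of_pos_left hi h3
      unfold badY
      rw [mem_filter, mem_range, ← hN']
      refine ⟨by omega, by omega, ?_⟩
      have e4 : (p.1 + 3 ^ m * p.2) % 3 ^ m = p.1 % 3 ^ m := Nat.add_mul_mod_self_left _ _ _
      rw [← e4, ← h4, hval]
      obtain ⟨k, hk⟩ := Nat.exists_eq_add_of_le hmz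
      rw [hk, pow_add, mul_assoc, add_comm, Nat.add_mul_mod_self_left]
    · rw [mem_bits, List.length_drop, hlen]
    · have e5 := hdec p hp'
      have e6 := congrArg ones e5
      rw [ones_append, ones_append, h2] at e6
      omega
  · intro p hp p' hp' h
    simp only [Prod.mk.injEq] at h
    obtain ⟨e1, e2, e3⟩ := h
    have hxx : x p = x p' := by
      rw [hdec p hp, hdec p' hp', e1, e2, e3]
    have h4 := (hx p hp).2.2.1
    have h4' := (hx p' hp').2.2.1
    rw [hxx, h4', e2] at h4
    have h5 : 3 ^ m * p'.2 = 3 ^ m * p.2 := by omega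
    have h6 := Nat.eq_of_mul_eq_mul_left h3 h5
    exact Prod.ext e2 h6.symm

end Pool.Agent.WCC
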