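import Pool.Agent.WCC.Pat

/-! # Reachability of `(0,0)` and the finite-horizon functions -/

set_option autoImplicit false

namespace Pool.Agent.WCC

open Finset

theorem nc_zero (s : St) : nc 0 s = if absorbed s then 0 else 1 := by
  unfold nc bits
  rw [Finset.filter_singleton]
  by_cases h : absorbed s
  · rw [if_pos h, if_neg (by simpa [coal] using h)]
    rfl
  · rw [if_neg h, if_pos (by simpa [coal] using h)]
    rfl

theorem chi_coal_of_absorbed (u : List Bool) (s : St) (h : absorbed s) : coal u s := by
  cases u with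
  | nil => exact h
  | cons b l => exact Or.inl h

theorem chi_coal_cons (b : Bool) (l : List Bool) (s : St) (h : ¬ absorbed s) :
    coal (b :: l) s ↔ coal l (step b s) := by
  show (absorbed s ∨ coal l (step b s)) ↔ _
  exact ⟨fun h' => h'.resolve_left h, Or.inr⟩

theorem nc_succ (n : ℕ) (s : St) :
    nc (n + 1) s = if absorbed s then 0 else nc n (step false s) + nc n (step true s) := by
  by_cases h : absorbed s
  · rw [if_pos h]
    unfold nc
    rw [Finset.card_eq_zero, Finset.filter_eq_empty_iff]
    intro u _ hu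
    exact hu (chi_coal_of_absorbed u s h)
  · rw [if_neg h]
    unfold nc
    rw [Finset.card_filter, sum_bits_succ, Finset.sum_add_distrib, Finset.card_filter,
      Finset.card_filter]
    congr 1
    · refine Finset.sum_congr rfl fun l _ => ?_
      simp only [chi_coal_cons _ l s h]
    · refine Finset.sum_congr rfl fun l _ => ?_
      simp only [chi_coal_cons _ l s h]

theorem nc_le (n : ℕ) (s : St) : nc n s ≤ 2 ^ n := by
  rw [← card_bits n]
  exact Finset.card_filter_le _ _

theorem chi_coal_append (u v : List Bool) (s : St) (h : coal u s) : coal (u ++ v) s := by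
  induction u generalizing s with
  | nil => exact chi_coal_of_absorbed _ _ h
  | cons b l ih =>
    rcases h with h | h
    · exact Or.inl h
    · exact Or.inr (ih _ h)

theorem chi_pad (u : List Bool) (s : St) (L : ℕ) (hL : u.length ≤ L) (h : coal u s) :
    ∃ u' : List Bool, u'.length = L ∧ coal u' s :=
  ⟨u ++ List.replicate (L - u.length) false, by simp; omega, chi_coal_append _ _ _ h⟩

/-- one coalescing list of the given length -/
theorem chi_nc_of_coal (u : List Bool) (s : St) (h : coal u s) : nc u.length s + 1 ≤ 2 ^ u.length := by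
  rw [← card_bits u.length]
  apply Finset.card_lt_card
  rw [Finset.filter_ssubset]
  exact ⟨u, (mem_bits _ _).2 rfl, fun h' => h' h⟩

/-- from `(o, 1, E)` with `E` odd the decreasing coin gives `(o, 0, (E - 1) / 2)` -/
theorem chi_down (o : Bool) (E : ℤ) (hE : E % 2 = 1) :
    step o ⟨o, 1, E⟩ = ⟨o, 0, (E - 1) / 2⟩ := by
  have h : ¬ (E % 2 = 0) := by omega
  simp [step, h]

theorem chi_even (s : St) (h : s.D % 2 = 0) : step false s = ⟨s.o, s.e, s.D / 2⟩ := by
  simp [step, h]

theorem chi_up (o : Bool) (D : ℤ) (hD : D % 2 = 1) :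
    step (!o) ⟨o, 0, D⟩ = ⟨o, 1, (3 * D + 1) / 2⟩ := by
  have h : ¬ (D % 2 = 0) := by omega
  cases o <;> simp [step, h]

theorem chi_flip (o : Bool) (D : ℤ) (hD : D % 2 = 1) :
    step o ⟨o, 0, D⟩ = ⟨!o, 1, (1 - 3 * D) / 2⟩ := by
  have h : ¬ (D % 2 = 0) := by omega
  simp [step, h]

theorem chi_reach_one (o : Bool) : coal [false, o] ⟨o, 1, 2⟩ := by
  refine Or.inr ?_
  rw [chi_even _ (by norm_num)]
  refine Or.inr ?_
  have h : (2 : ℤ) / 2 = 1 := by norm_num
  simp only [h]
  rw [chi_down o 1 (by norm_num)]
  exact ⟨rfl, by norm_num⟩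

theorem chi_reach (B : ℕ) : ∃ L : ℕ, ∀ s : St, s.e = 0 → |s.D| ≤ B →
    ∃ u : List Bool, u.length = L ∧ coal u s := by
  induction B with
  | zero =>
    refine ⟨0, fun s he hD => ⟨[], rfl, he, ?_⟩⟩
    simpa using hD
  | succ B ih =>
    obtain ⟨L, hL⟩ := ih
    refine ⟨L + 3, fun s he hD => ?_⟩
    by_cases h1 : |s.D| ≤ B
    · obtain ⟨u, hu, hc⟩ := hL s he h1
      exact chi_pad u s (L + 3) (by omega) hc
    · obtain ⟨o, e, D⟩ := s
      simp only at he hD h1
      subst he
      have habs : |D| = B + 1 := by push_cast at hD; omega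
      by_cases hpar : D % 2 = 0
      · -- even
        have h2 : |D / 2| ≤ B := by
          rw [abs_le]
          rcases abs_cases D with ⟨h3, _⟩ | ⟨h3, _⟩ <;> omega
        obtain ⟨u, hu, hc⟩ := hL ⟨o, 0, D / 2⟩ rfl h2
        refine chi_pad (false :: u) _ (L + 3) (by simp [hu]) (Or.inr ?_)
        rw [chi_even _ hpar]
        exact hc
      · have hodd : D % 2 = 1 := by omega
        by_cases hB : B = 0
        · -- D = 1 or -1
          subst hB
          have h3 : D = 1 ∨ D = -1 := by
            rcases abs_cases D with ⟨h3, _⟩ | ⟨h3, _⟩ <;> omega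
          rcases h3 with h3 | h3
          · subst h3
            refine chi_pad [!o, false, o] _ (L + 3) (by simp) (Or.inr ?_)
            rw [chi_up o 1 (by norm_num)]
            have h4 : ((3 * 1 + 1) / 2 : ℤ) = 2 := by norm_num
            rw [h4]
            exact chi_reach_one o
          · subst h3
            refine chi_pad [o, false, !o] _ (L + 3) (by simp) (Or.inr ?_)
            rw [chi_flip o (-1) (by norm_num)]
            have h4 : ((1 - 3 * (-1)) / 2 : ℤ) = 2 := by norm_num
            rw [h4]
            exact chi_reach_one (!o)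
        · by_cases hE : (3 * D + 1) / 2 % 2 = 1
          · have h2 : |((3 * D + 1) / 2 - 1) / 2| ≤ B := by
              rw [abs_le]
              rcases abs_cases D with ⟨h3, _⟩ | ⟨h3, _⟩ <;> omega
            obtain ⟨u, hu, hc⟩ := hL ⟨o, 0, ((3 * D + 1) / 2 - 1) / 2⟩ rfl h2
            refine chi_pad ((!o) :: o :: u) _ (L + 3) (by simp [hu]) (Or.inr ?_)
            rw [chi_up o D hodd]
            refine Or.inr ?_
            rw [chi_down o _ hE]
            exact hc
          · have hE' : (1 - 3 * D) / 2 % 2 = 1 := by omega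
            have h2 : |((1 - 3 * D) / 2 - 1) / 2| ≤ B := by
              rw [abs_le]
              rcases abs_cases D with ⟨h3, _⟩ | ⟨h3, _⟩ <;> omega
            obtain ⟨u, hu, hc⟩ := hL ⟨!o, 0, ((1 - 3 * D) / 2 - 1) / 2⟩ rfl h2
            refine chi_pad (o :: (!o) :: u) _ (L + 3) (by simp [hu]) (Or.inr ?_)
            rw [chi_flip o D hodd]
            refine Or.inr ?_
            rw [chi_down (!o) _ hE']
            exact hc

/-- from height `0` the pair can coalesce within a bounded number of steps -/
theorem reach (B : ℕ) : ∃ L : ℕ, ∀ s : St, s.e = 0 → |s.D| ≤ B → nc L s + 1 ≤ 2 ^ L := by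
  obtain ⟨L, hL⟩ := chi_reach B
  refine ⟨L, fun s he hD => ?_⟩
  obtain ⟨u, hu, hc⟩ := hL s he hD
  have := chi_nc_of_coal u s hc
  rwa [hu] at this

end Pool.Agent.WCC
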