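import Pool.Agent.WCC.Pat

/-! # Module Coal: coalescing pairs give companion patterns -/

set_option autoImplicit false

namespace Pool.Agent.WCC

/-- the relation between the two patterns encoded by a state -/
def CoalRel (s : St) (u u' : List Bool) : Prop :=
  if s.o then ones u = ones u' + s.e ∧ (val u' : ℤ) = val u - 3 ^ ones u' * s.D
  else ones u' = ones u + s.e ∧ (val u : ℤ) = val u' - 3 ^ ones u * s.D

theorem coal_rel (u : List Bool) : ∀ s : St, coal u s →
    ∃ u' : List Bool, u'.length = u.length ∧ CoalRel s u u' := by
  induction u with
  | nil =>
    intro s hs
    have hs' : absorbed s := hs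
    refine ⟨[], rfl, ?_⟩
    unfold CoalRel
    rw [hs'.1, hs'.2]
    split_ifs <;> simp
  | cons b l ih =>
    intro s hs
    have hs' : absorbed s ∨ coal l (step b s) := hs
    rcases hs' with hs' | hs'
    · refine ⟨b :: l, rfl, ?_⟩
      unfold CoalRel
      rw [hs'.1, hs'.2]
      split_ifs <;> simp
    · obtain ⟨u1, hl, hr⟩ := ih _ hs'
      obtain ⟨o, e, D⟩ := s
      by_cases hD : D % 2 = 0
      · obtain ⟨D1, hD1⟩ : ∃ D1, D = 2 * D1 := ⟨D / 2, by omega⟩
        refine ⟨b :: u1, by simp [hl], ?_⟩
        cases b with
        | false =>
          have hst : step false ⟨o, e, D⟩ = ⟨o, e, D1⟩ := by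
            unfold step
            simp only [hD, if_true]
            simp
            omega
          rw [hst] at hr
          unfold CoalRel at hr ⊢
          simp only [ones_cons, val_cons, Bool.false_eq_true, if_false, add_zero] at hr ⊢
          cases o with
          | true =>
            simp only [if_true] at hr ⊢
            refine ⟨hr.1, ?_⟩
            push_cast
            rw [hr.2, hD1]
            ring
          | false =>
            simp only [Bool.false_eq_true, if_false] at hr ⊢
            refine ⟨hr.1, ?_⟩
            push_cast
            rw [hr.2, hD1]
            ring
        | true =>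
          have hodd : (3 : ℤ) ^ e % 2 = 1 := by
            have : Odd ((3 : ℤ) ^ e) := Odd.pow (by decide)
            exact Int.odd_iff.1 this
          obtain ⟨D2, hD2⟩ : ∃ D2, 3 * D + 1 - 3 ^ e = 2 * D2 := ⟨(3 * D + 1 - 3 ^ e) / 2, by omega⟩
          have hst : step true ⟨o, e, D⟩ = ⟨o, e, D2⟩ := by
            unfold step
            simp only [hD, if_true]
            simp
            omega
          rw [hst] at hr
          unfold CoalRel at hr ⊢
          simp only [ones_cons, val_cons, if_true] at hr ⊢
          cases o with
          | true =>
            simp only [if_true] at hr ⊢
            refine ⟨by omega, ?_⟩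
            push_cast
            rw [hr.2, hr.1]
            have : (2 : ℤ) * D2 = 3 * D + 1 - 3 ^ e := hD2.symm
            rw [pow_add, pow_succ]
            linear_combination (-(3 : ℤ) ^ ones u1) * this
          | false =>
            simp only [Bool.false_eq_true, if_false] at hr ⊢
            refine ⟨by omega, ?_⟩
            push_cast
            rw [hr.2, hr.1]
            have : (2 : ℤ) * D2 = 3 * D + 1 - 3 ^ e := hD2.symm
            rw [pow_add, pow_succ]
            linear_combination (-(3 : ℤ) ^ ones l) * this
      · -- `D` odd: the companion bit is the opposite one
        refine ⟨(!b) :: u1, by simp [hl], ?_⟩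
        by_cases hbo : b = o
        · subst hbo
          cases e with
          | zero =>
            obtain ⟨D2, hD2⟩ : ∃ D2, 1 - 3 * D = 2 * D2 := ⟨(1 - 3 * D) / 2, by omega⟩
            have hst : step b ⟨b, 0, D⟩ = ⟨!b, 1, D2⟩ := by
              unfold step
              simp only [hD, if_false, if_true]
              simp
              omega
            rw [hst] at hr
            unfold CoalRel at hr ⊢
            cases b with
            | true =>
              simp only [ones_cons, val_cons, if_true, Bool.not_true, Bool.false_eq_true,
                if_false, add_zero] at hr ⊢
              refine ⟨by omega, ?_⟩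
              push_cast
              rw [hr.2, hr.1, pow_succ]
              linear_combination (-(3 : ℤ) ^ ones l) * hD2
            | false =>
              simp only [ones_cons, val_cons, if_true, Bool.not_false, Bool.false_eq_true,
                if_false, add_zero] at hr ⊢
              refine ⟨by omega, ?_⟩
              push_cast
              rw [hr.2, hr.1, pow_succ]
              linear_combination (-(3 : ℤ) ^ ones u1) * hD2
          | succ e =>
            have hodd : (3 : ℤ) ^ e % 2 = 1 := by
              have : Odd ((3 : ℤ) ^ e) := Odd.pow (by decide)
              exact Int.odd_iff.1 this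
            obtain ⟨D2, hD2⟩ : ∃ D2, D - 3 ^ e = 2 * D2 := ⟨(D - 3 ^ e) / 2, by omega⟩
            have hst : step b ⟨b, e + 1, D⟩ = ⟨b, e, D2⟩ := by
              unfold step
              simp only [hD, if_false, if_true]
              simp
              omega
            rw [hst] at hr
            unfold CoalRel at hr ⊢
            cases b with
            | true =>
              simp only [ones_cons, val_cons, if_true, Bool.not_true, Bool.false_eq_true,
                if_false, add_zero] at hr ⊢
              refine ⟨by omega, ?_⟩
              push_cast
              rw [hr.2, hr.1, pow_add]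
              linear_combination ((3 : ℤ) ^ ones u1) * hD2
            | false =>
              simp only [ones_cons, val_cons, if_true, Bool.not_false, Bool.false_eq_true,
                if_false, add_zero] at hr ⊢
              refine ⟨by omega, ?_⟩
              push_cast
              rw [hr.2, hr.1, pow_add]
              linear_combination ((3 : ℤ) ^ ones l) * hD2
        · have hb : b = !o := by
            cases b <;> cases o <;> simp_all
          obtain ⟨D2, hD2⟩ : ∃ D2, 3 * D + 1 = 2 * D2 := ⟨(3 * D + 1) / 2, by omega⟩
          have hst : step b ⟨o, e, D⟩ = ⟨o, e + 1, D2⟩ := by
            unfold step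
            simp only [hD, if_false, hbo]
            simp
            omega
          rw [hst] at hr
          subst hb
          unfold CoalRel at hr ⊢
          cases o with
          | true =>
            simp only [ones_cons, val_cons, if_true, Bool.not_true, Bool.not_false,
              Bool.false_eq_true, if_false, add_zero] at hr ⊢
            refine ⟨by omega, ?_⟩
            push_cast
            rw [hr.2, pow_succ]
            linear_combination ((3 : ℤ) ^ ones u1) * hD2
          | false =>
            simp only [ones_cons, val_cons, if_true, Bool.not_true, Bool.not_false,
              Bool.false_eq_true, if_false, add_zero] at hr ⊢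
            refine ⟨by omega, ?_⟩
            push_cast
            rw [hr.2, pow_succ]
            linear_combination ((3 : ℤ) ^ ones l) * hD2

/-- if the pair chain started at `(+, 1, -κ)` and driven by `u` coalesces, there is a companion
pattern with one 1 less and value `val u + 3^(ones u') κ` -/
theorem coal_exists (κ : ℕ) (u : List Bool) (h : coal u ⟨true, 1, -(κ : ℤ)⟩) :
    ∃ u' : List Bool, u'.length = u.length ∧ ones u = ones u' + 1 ∧
      val u' = val u + 3 ^ ones u' * κ := by
  obtain ⟨u', hl, hr⟩ := coal_rel u _ h
  unfold CoalRel at hr
  simp only [if_true] at hr
  refine ⟨u', hl, hr.1, ?_⟩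
  have := hr.2
  have h2 : (val u' : ℤ) = ((val u + 3 ^ ones u' * κ : ℕ) : ℤ) := by
    rw [this]; push_cast; ring
  exact_mod_cast h2

end Pool.Agent.WCC
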