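import Pool.Agent.WCC.Pat

/-! # Module Fail -/

set_option autoImplicit false

namespace Pool.Agent.WCC

open Finset

open Classical in
/-- For a fixed `Y` and a fixed initial pattern `v1` with large imbalance, hits `Y + 3^m i` with
a nearly balanced late part force the middle bits to be unbalanced. -/
theorem fail_count (j s s1 F m w R R' Y : ℕ) (v1 : List Bool) (hs : s ≤ 2 * j) (hs1 : s1 ≤ s)
    (hF : F ≤ s1) (hv1 : v1.length = F) (hR : (R : ℤ) ≤ |imb v1|)
    (hR' : R' + w + (s - s1) ≤ R) :
    ((range (2 ^ s1)).filter (fun i => ∃ x : List Bool, x.length = 2 * j ∧ ones x = j ∧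
      val x = Y + 3 ^ m * i ∧ x.take F = v1 ∧ |imb (x.drop s)| ≤ (w : ℤ))).card ≤
    ((bits (s1 - F)).filter (fun f => (R' : ℤ) ≤ |imb f|)).card := by
  have hex : ∀ i : ℕ, ∃ x : List Bool, (∃ x : List Bool, x.length = 2 * j ∧ ones x = j ∧
      val x = Y + 3 ^ m * i ∧ x.take F = v1 ∧ |imb (x.drop s)| ≤ (w : ℤ)) →
      (x.length = 2 * j ∧ ones x = j ∧
      val x = Y + 3 ^ m * i ∧ x.take F = v1 ∧ |imb (x.drop s)| ≤ (w : ℤ)) := by
    intro i
    by_cases h : ∃ x : List Bool, x.length = 2 * j ∧ ones x = j ∧
      val x = Y + 3 ^ m * i ∧ x.take F = v1 ∧ |imb (x.drop s)| ≤ (w : ℤ)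
    · obtain ⟨x, hx⟩ := h
      exact ⟨x, fun _ => hx⟩
    · exact ⟨[], fun h' => absurd h' h⟩
  choose X hX using hex
  refine card_le_card_of_injOn (fun i => ((X i).drop F).take (s1 - F)) ?_ ?_
  · intro i hi
    rw [mem_coe, mem_filter] at hi
    obtain ⟨h1, h2, h3, h4, h5⟩ := hX i hi.2
    rw [mem_coe, mem_filter, mem_bits]
    constructor
    · rw [List.length_take, List.length_drop, h1]
      omega
    · have e1 : X i = v1 ++ ((X i).drop F) := by
        conv_lhs => rw [← List.take_append_drop F (X i)]
        rw [h4]
      have e2 : (X i).drop F = ((X i).drop F).take (s1 - F) ++ (X i).drop s1 := by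
        conv_lhs => rw [← List.take_append_drop (s1 - F) ((X i).drop F)]
        rw [List.drop_drop]
        congr 2
        omega
      have e3 : (X i).drop s1 = ((X i).drop s1).take (s - s1) ++ (X i).drop s := by
        conv_lhs => rw [← List.take_append_drop (s - s1) ((X i).drop s1)]
        rw [List.drop_drop]
        congr 2
        omega
      have h0 : imb (X i) = 0 := by
        unfold imb
        rw [h1, h2]
        push_cast
        ring
      have h6 : imb (X i) = imb v1 + (imb (((X i).drop F).take (s1 - F)) +
          (imb (((X i).drop s1).take (s - s1)) + imb ((X i).drop s))) := by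
        conv_lhs => rw [e1, imb_append, e2, imb_append, e3, imb_append]
      have h7 := abs_imb_le (((X i).drop s1).take (s - s1))
      have h8 : (((X i).drop s1).take (s - s1)).length ≤ s - s1 := by
        rw [List.length_take]
        exact Nat.min_le_left _ _
      have h9 : imb v1 = -(imb (((X i).drop F).take (s1 - F)) +
          (imb (((X i).drop s1).take (s - s1)) + imb ((X i).drop s))) := by linarith
      rw [h9, abs_neg] at hR
      have h10 := abs_add_le (imb (((X i).drop F).take (s1 - F)))
        (imb (((X i).drop s1).take (s - s1)) + imb ((X i).drop s))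
      have h11 := abs_add_le (imb (((X i).drop s1).take (s - s1))) (imb ((X i).drop s))
      have h12 : ((((X i).drop s1).take (s - s1)).length : ℤ) ≤ ((s - s1 : ℕ) : ℤ) := by
        exact_mod_cast h8
      have h13 : ((R' + w + (s - s1) : ℕ) : ℤ) ≤ R := by exact_mod_cast hR'
      push_cast at h13
      linarith
  · intro i hi i' hi' hii
    rw [mem_coe, mem_filter, mem_range] at hi hi'
    obtain ⟨h1, h2, h3, h4, h5⟩ := hX i hi.2
    obtain ⟨h1', h2', h3', h4', h5'⟩ := hX i' hi'.2
    simp only at hii
    have ht : (X i).take s1 = (X i').take s1 := by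
      have e : ∀ y : List Bool, y.take s1 = y.take F ++ (y.drop F).take (s1 - F) := by
        intro y
        conv_lhs => rw [show s1 = F + (s1 - F) by omega, List.take_add]
      rw [e, e (X i'), h4, h4', hii]
    have hlen : ((X i).take s1).length = s1 := by
      rw [List.length_take, h1]; omega
    have ho : ones ((X i).drop s1) = ones ((X i').drop s1) := by
      have a1 : ones (X i) = ones ((X i).take s1) + ones ((X i).drop s1) := by
        rw [← ones_append, List.take_append_drop]
      have a2 : ones (X i') = ones ((X i').take s1) + ones ((X i').drop s1) := by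
        rw [← ones_append, List.take_append_drop]
      rw [ht] at a1
      omega
    have hv := val_mod_congr ((X i).take s1) ((X i).drop s1) ((X i').drop s1) ho
    rw [List.take_append_drop, ht, List.take_append_drop, ← ht, hlen, h3, h3'] at hv
    have hv2 : 3 ^ m * i ≡ 3 ^ m * i' [MOD 2 ^ s1] := Nat.ModEq.add_left_cancel' Y hv
    have hc : Nat.Coprime (2 ^ s1) (3 ^ m) := Nat.Coprime.pow _ _ (by norm_num)
    have hv3 : i ≡ i' [MOD 2 ^ s1] := Nat.ModEq.cancel_left_of_coprime hc hv2
    exact Nat.ModEq.eq_of_lt_of_lt hv3 hi.1 hi'.1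

end Pool.Agent.WCC
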