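import Pool.Agent.WCC.Pat

/-! # Module Mom: binomial and moment bounds -/

set_option autoImplicit false

namespace Pool.Agent.WCC

open Finset

theorem mom_central_upper (m : ℕ) : (Nat.centralBinom m) ^ 2 * (2 * m + 1) ≤ 16 ^ m := by
  induction m with
  | zero => simp
  | succ m ih =>
    have h := Nat.succ_mul_centralBinom_succ m
    have h1 : (m + 1) ^ 2 * ((Nat.centralBinom (m + 1)) ^ 2 * (2 * (m + 1) + 1)) =
        4 * (2 * m + 1) * (2 * m + 3) * ((Nat.centralBinom m) ^ 2 * (2 * m + 1)) := by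
      have : (m + 1) ^ 2 * ((Nat.centralBinom (m + 1)) ^ 2 * (2 * (m + 1) + 1)) =
        ((m + 1) * Nat.centralBinom (m + 1)) ^ 2 * (2 * m + 3) := by ring
      rw [this, h]
      ring
    have h2 : (m + 1) ^ 2 * ((Nat.centralBinom (m + 1)) ^ 2 * (2 * (m + 1) + 1)) ≤
        (m + 1) ^ 2 * 16 ^ (m + 1) := by
      rw [h1]
      calc 4 * (2 * m + 1) * (2 * m + 3) * ((Nat.centralBinom m) ^ 2 * (2 * m + 1))
          ≤ 4 * (2 * m + 1) * (2 * m + 3) * 16 ^ m := Nat.mul_le_mul_left _ ih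
        _ ≤ (16 * (m + 1) ^ 2) * 16 ^ m := by
            apply Nat.mul_le_mul_right
            nlinarith
        _ = (m + 1) ^ 2 * 16 ^ (m + 1) := by ring
    exact Nat.le_of_mul_le_mul_left h2 (by positivity)

theorem choose_sq_mul_le (n k : ℕ) : (n.choose k) ^ 2 * n ≤ 4 ^ n := by
  have h0 : n.choose k ≤ n.choose (n / 2) := Nat.choose_le_middle k n
  have h1 : (n.choose k) ^ 2 * n ≤ (n.choose (n / 2)) ^ 2 * n :=
    Nat.mul_le_mul_right _ (Nat.pow_le_pow_left h0 2)
  refine h1.trans ?_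
  obtain ⟨m, hm | hm⟩ : ∃ m, n = 2 * m ∨ n = 2 * m + 1 := ⟨n / 2, by omega⟩
  · subst hm
    rw [show 2 * m / 2 = m by omega, pow_mul, show (4 : ℕ) ^ 2 = 16 by norm_num]
    calc ((2 * m).choose m) ^ 2 * (2 * m) ≤ (Nat.centralBinom m) ^ 2 * (2 * m + 1) := by
          rw [Nat.centralBinom_eq_two_mul_choose]
          exact Nat.mul_le_mul_left _ (by omega)
      _ ≤ 16 ^ m := mom_central_upper m
  · subst hm
    rw [show (2 * m + 1) / 2 = m by omega]
    have h2 : Nat.centralBinom (m + 1) = 2 * (2 * m + 1).choose m := by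
      rw [Nat.centralBinom_eq_two_mul_choose, show 2 * (m + 1) = (2 * m + 1) + 1 by ring,
        Nat.choose_succ_succ', ← Nat.choose_symm_half]
      ring
    have h3 := mom_central_upper (m + 1)
    rw [h2] at h3
    have h4 : 4 * (((2 * m + 1).choose m) ^ 2 * (2 * m + 1)) ≤ 4 * 4 ^ (2 * m + 1) := by
      calc 4 * (((2 * m + 1).choose m) ^ 2 * (2 * m + 1))
          ≤ (2 * (2 * m + 1).choose m) ^ 2 * (2 * (m + 1) + 1) := by nlinarith [sq_nonneg ((2 * m + 1).choose m)]
        _ ≤ 16 ^ (m + 1) := h3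
        _ = 4 * 4 ^ (2 * m + 1) := by
            rw [show (16 : ℕ) = 4 ^ 2 by norm_num, ← pow_mul]
            ring
    omega

theorem central_lower (j : ℕ) (hj : 1 ≤ j) : 16 ^ j ≤ 4 * j * ((2 * j).choose j) ^ 2 := by
  rw [← Nat.centralBinom_eq_two_mul_choose]
  induction j, hj using Nat.le_induction with
  | base => simp [Nat.centralBinom_eq_two_mul_choose, Nat.choose]
  | succ j hj ih =>
    have h := Nat.succ_mul_centralBinom_succ j
    have h1 : (j + 1) * (4 * (j + 1) * (Nat.centralBinom (j + 1)) ^ 2) =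
        16 * (2 * j + 1) ^ 2 * (Nat.centralBinom j) ^ 2 := by
      have : (j + 1) * (4 * (j + 1) * (Nat.centralBinom (j + 1)) ^ 2) =
        4 * ((j + 1) * Nat.centralBinom (j + 1)) ^ 2 := by ring
      rw [this, h]
      ring
    have h2 : (j + 1) * 16 ^ (j + 1) ≤ (j + 1) * (4 * (j + 1) * (Nat.centralBinom (j + 1)) ^ 2) := by
      rw [h1]
      calc (j + 1) * 16 ^ (j + 1) = (16 * (j + 1)) * 16 ^ j := by ring
        _ ≤ (16 * (j + 1)) * (4 * j * (Nat.centralBinom j) ^ 2) := Nat.mul_le_mul_left _ ih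
        _ = (64 * j * (j + 1)) * (Nat.centralBinom j) ^ 2 := by ring
        _ ≤ (16 * (2 * j + 1) ^ 2) * (Nat.centralBinom j) ^ 2 := by
            apply Nat.mul_le_mul_right
            nlinarith
    exact Nat.le_of_mul_le_mul_left h2 (by omega)

theorem card_ones (n k : ℕ) : ((bits n).filter (fun l => ones l = k)).card = n.choose k := by
  have key : ∀ n k : ℕ, ∑ l ∈ bits n, (if ones l = k then 1 else 0) = n.choose k := by
    intro n
    induction n with
    | zero =>
      intro k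
      cases k with
      | zero => simp [bits, ones]
      | succ k => simp [bits, ones]
    | succ n ih =>
      intro k
      rw [sum_bits_succ, sum_add_distrib]
      cases k with
      | zero =>
        have h1 : ∀ l : List Bool, (if ones (false :: l) = 0 then 1 else 0) =
            (if ones l = 0 then (1 : ℕ) else 0) := by
          intro l; simp [ones_cons]
        have h2 : ∀ l : List Bool, (if ones (true :: l) = 0 then 1 else 0) = (0 : ℕ) := by
          intro l; simp [ones_cons]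
        simp only [h1, h2, ih, sum_const_zero, Nat.choose_zero_right, add_zero]
      | succ k =>
        have h1 : ∀ l : List Bool, (if ones (false :: l) = k + 1 then 1 else 0) =
            (if ones l = k + 1 then (1 : ℕ) else 0) := by
          intro l; simp [ones_cons]
        have h2 : ∀ l : List Bool, (if ones (true :: l) = k + 1 then 1 else 0) =
            (if ones l = k then (1 : ℕ) else 0) := by
          intro l; simp [ones_cons]
        simp only [h1, h2, ih]
        rw [Nat.choose_succ_succ', add_comm]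
  rw [card_filter]
  exact key n k

theorem mom_sqrt_pow (x : ℝ) (hx : 0 ≤ x) (n : ℕ) : Real.sqrt (x ^ n) = (Real.sqrt x) ^ n := by
  induction n with
  | zero => simp
  | succ n ih => rw [pow_succ, Real.sqrt_mul (by positivity), ih, pow_succ]

theorem mom_sum_imb (n : ℕ) : ∑ l ∈ bits n, (imb l) ^ 2 = (n : ℤ) * 2 ^ n := by
  induction n with
  | zero => simp [bits, imb, ones]
  | succ n ih =>
    rw [sum_bits_succ]
    have h : ∀ l : List Bool, (imb (false :: l)) ^ 2 + (imb (true :: l)) ^ 2 =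
        2 * (imb l) ^ 2 + 2 := by
      intro l
      unfold imb
      rw [ones_cons, ones_cons, List.length_cons]
      push_cast
      simp
      ring
    simp only [h]
    rw [sum_add_distrib, ← mul_sum, ih, sum_const, card_bits]
    simp only [nsmul_eq_mul]
    push_cast
    ring

theorem cheb (n r : ℕ) :
    ((bits n).filter (fun l => (r : ℤ) ≤ |imb l|)).card * r ^ 2 ≤ n * 2 ^ n := by
  have h : (((bits n).filter (fun l => (r : ℤ) ≤ |imb l|)).card : ℤ) * r ^ 2 ≤
      (n : ℤ) * 2 ^ n := by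
    rw [← mom_sum_imb n]
    calc (((bits n).filter (fun l => (r : ℤ) ≤ |imb l|)).card : ℤ) * r ^ 2
        = ∑ l ∈ (bits n).filter (fun l => (r : ℤ) ≤ |imb l|), (r : ℤ) ^ 2 := by
          rw [sum_const, nsmul_eq_mul]
      _ ≤ ∑ l ∈ (bits n).filter (fun l => (r : ℤ) ≤ |imb l|), (imb l) ^ 2 := by
          apply sum_le_sum
          intro l hl
          rw [mem_filter] at hl
          rw [← sq_abs (imb l)]
          exact pow_le_pow_left₀ (by positivity) hl.2 2
      _ ≤ ∑ l ∈ bits n, (imb l) ^ 2 := by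
          apply sum_le_sum_of_subset_of_nonneg (filter_subset _ _)
          intro l _ _
          positivity
  exact_mod_cast h

theorem mom_sum_sqrt (n : ℕ) :
    ∑ l ∈ bits n, Real.sqrt (3 ^ ones l) = (1 + Real.sqrt 3) ^ n := by
  induction n with
  | zero => simp [bits, ones]
  | succ n ih =>
    rw [sum_bits_succ]
    have h : ∀ l : List Bool, Real.sqrt (3 ^ ones (false :: l)) + Real.sqrt (3 ^ ones (true :: l)) =
        Real.sqrt (3 ^ ones l) * (1 + Real.sqrt 3) := by
      intro l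
      rw [ones_cons, ones_cons]
      simp only [Bool.false_eq_true, if_false, add_zero, if_true]
      rw [pow_succ, Real.sqrt_mul (by positivity)]
      ring
    simp only [h]
    rw [← sum_mul, ih, pow_succ]

theorem mom_sqrt3 : Real.sqrt 3 ≤ 17321 / 10000 := by
  rw [Real.sqrt_le_left (by norm_num)]
  norm_num

theorem mom_sqrt2 : (14142 / 10000 : ℝ) ≤ Real.sqrt 2 := by
  apply Real.le_sqrt_of_sq_le
  norm_num

/-- the constant `(1 + √3)/√2` -/
theorem mom_a_le : (1 + Real.sqrt 3) / Real.sqrt 2 ≤ 1932 / 1000 := by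
  have h2 : 0 < Real.sqrt 2 := by positivity
  rw [div_le_iff₀ h2]
  nlinarith [mom_sqrt3, mom_sqrt2]

theorem mom_S (n : ℕ) :
    ∑ l ∈ bits n, Real.sqrt ((val l : ℝ) / 2 ^ n) ≤
      11 * (2 ^ n - ((1 + Real.sqrt 3) / Real.sqrt 2) ^ n) := by
  induction n with
  | zero => simp [bits, val]
  | succ n ih =>
    rw [sum_bits_succ]
    have h : ∀ l ∈ bits n, Real.sqrt ((val (false :: l) : ℝ) / 2 ^ (n + 1)) +
        Real.sqrt ((val (true :: l) : ℝ) / 2 ^ (n + 1)) ≤
        2 * Real.sqrt ((val l : ℝ) / 2 ^ n) +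
          Real.sqrt (3 ^ ones l) * (1 / Real.sqrt (2 ^ (n + 1))) := by
      intro l _
      have e1 : (val (false :: l) : ℝ) / 2 ^ (n + 1) = (val l : ℝ) / 2 ^ n := by
        rw [val_cons]
        push_cast
        simp
        rw [pow_succ]
        field_simp
      have e2 : (val (true :: l) : ℝ) / 2 ^ (n + 1) =
          (val l : ℝ) / 2 ^ n + 3 ^ ones l / 2 ^ (n + 1) := by
        rw [val_cons]
        push_cast
        simp
        rw [pow_succ]
        field_simp
      rw [e1, e2]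
      have h1 : Real.sqrt ((val l : ℝ) / 2 ^ n + 3 ^ ones l / 2 ^ (n + 1)) ≤
          Real.sqrt ((val l : ℝ) / 2 ^ n) + Real.sqrt (3 ^ ones l / 2 ^ (n + 1)) := by
        rw [Real.sqrt_le_left (by positivity)]
        have a1 := Real.sq_sqrt (show (0 : ℝ) ≤ (val l : ℝ) / 2 ^ n by positivity)
        have a2 := Real.sq_sqrt (show (0 : ℝ) ≤ (3 : ℝ) ^ ones l / 2 ^ (n + 1) by positivity)
        have a3 : 0 ≤ Real.sqrt ((val l : ℝ) / 2 ^ n) * Real.sqrt (3 ^ ones l / 2 ^ (n + 1)) := by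
          positivity
        nlinarith
      have h2 : Real.sqrt (3 ^ ones l / 2 ^ (n + 1)) =
          Real.sqrt (3 ^ ones l) * (1 / Real.sqrt (2 ^ (n + 1))) := by
        rw [Real.sqrt_div (by positivity)]
        ring
      rw [← h2]
      linarith
    have h3 := sum_le_sum h
    refine h3.trans ?_
    rw [sum_add_distrib, ← mul_sum, ← sum_mul, mom_sum_sqrt]
    have e3 : (1 + Real.sqrt 3) ^ n * (1 / Real.sqrt (2 ^ (n + 1))) =
        ((1 + Real.sqrt 3) / Real.sqrt 2) ^ n * (1 / Real.sqrt 2) := by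
      rw [pow_succ, Real.sqrt_mul (by positivity), div_pow,
        mom_sqrt_pow 2 (by norm_num) n]
      field_simp
    rw [e3]
    set a := (1 + Real.sqrt 3) / Real.sqrt 2 with ha
    have ha0 : 0 ≤ a := by positivity
    have ha1 : a ≤ 1932 / 1000 := mom_a_le
    have hs : 1 / Real.sqrt 2 ≤ 748 / 1000 := by
      have h2 : 0 < Real.sqrt 2 := by positivity
      rw [div_le_iff₀ h2]
      nlinarith [mom_sqrt2]
    have hp : 0 ≤ a ^ n := by positivity
    have : a ^ n * (1 / Real.sqrt 2) ≤ a ^ n * (22 - 11 * a) :=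
      mul_le_mul_of_nonneg_left (by linarith) hp
    calc 2 * (∑ l ∈ bits n, Real.sqrt ((val l : ℝ) / 2 ^ n)) + a ^ n * (1 / Real.sqrt 2)
        ≤ 2 * (11 * (2 ^ n - a ^ n)) + a ^ n * (22 - 11 * a) := by linarith
      _ = 11 * (2 ^ (n + 1) - a ^ (n + 1)) := by ring

theorem mom_num : (1 + Real.sqrt 3) ^ 11 * Real.sqrt 3 ≤ 131072 := by
  have h3 : Real.sqrt 3 ^ 2 = 3 := Real.sq_sqrt (by norm_num)
  have e : (1 + Real.sqrt 3) ^ 11 * Real.sqrt 3 = 31648 * Real.sqrt 3 + 54816 := by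
    have e2 : (1 + Real.sqrt 3) ^ 2 = 4 + 2 * Real.sqrt 3 := by nlinarith
    have e4 : (1 + Real.sqrt 3) ^ 4 = 28 + 16 * Real.sqrt 3 := by
      calc (1 + Real.sqrt 3) ^ 4 = ((1 + Real.sqrt 3) ^ 2) ^ 2 := by ring
        _ = (4 + 2 * Real.sqrt 3) ^ 2 := by rw [e2]
        _ = _ := by nlinarith
    have e8 : (1 + Real.sqrt 3) ^ 8 = 1552 + 896 * Real.sqrt 3 := by
      calc (1 + Real.sqrt 3) ^ 8 = ((1 + Real.sqrt 3) ^ 4) ^ 2 := by ring
        _ = (28 + 16 * Real.sqrt 3) ^ 2 := by rw [e4]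
        _ = _ := by nlinarith
    have e10 : (1 + Real.sqrt 3) ^ 10 = 11584 + 6688 * Real.sqrt 3 := by
      calc (1 + Real.sqrt 3) ^ 10 = (1 + Real.sqrt 3) ^ 8 * (1 + Real.sqrt 3) ^ 2 := by ring
        _ = (1552 + 896 * Real.sqrt 3) * (4 + 2 * Real.sqrt 3) := by rw [e8, e2]
        _ = _ := by nlinarith
    calc (1 + Real.sqrt 3) ^ 11 * Real.sqrt 3 =
          (1 + Real.sqrt 3) ^ 10 * ((1 + Real.sqrt 3) * Real.sqrt 3) := by ring
      _ = (11584 + 6688 * Real.sqrt 3) * (Real.sqrt 3 + 3) := by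
          rw [e10]
          have : (1 + Real.sqrt 3) * Real.sqrt 3 = Real.sqrt 3 + 3 := by nlinarith
          rw [this]
      _ = _ := by nlinarith
  rw [e]
  nlinarith [mom_sqrt3]

theorem val_moment (q B : ℕ) (hB : 1 ≤ B) :
    (((bits (11 * q)).filter
      (fun l => B * 2 ^ (12 * q) < 3 ^ ones l * 3 ^ q + 2 ^ q * val l)).card : ℝ) *
      Real.sqrt B ≤ 12 * 2 ^ (11 * q) := by
  set c : ℝ := Real.sqrt (3 ^ q) / Real.sqrt (2 ^ (12 * q)) with hc
  have key : ∀ l : List Bool, B * 2 ^ (12 * q) < 3 ^ ones l * 3 ^ q + 2 ^ q * val l →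
      Real.sqrt B ≤ Real.sqrt (3 ^ ones l) * c + Real.sqrt ((val l : ℝ) / 2 ^ (11 * q)) := by
    intro l hl
    have h1 : (B : ℝ) * 2 ^ (12 * q) ≤ 3 ^ ones l * 3 ^ q + 2 ^ q * val l := by
      exact_mod_cast hl.le
    have h2 : (B : ℝ) ≤ 3 ^ ones l * 3 ^ q / 2 ^ (12 * q) + (val l : ℝ) / 2 ^ (11 * q) := by
      have e : 3 ^ ones l * 3 ^ q / 2 ^ (12 * q) + (val l : ℝ) / 2 ^ (11 * q) =
          (3 ^ ones l * 3 ^ q + 2 ^ q * val l) / 2 ^ (12 * q) := by
        rw [show 12 * q = 11 * q + q by ring, pow_add]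
        field_simp
      rw [e, le_div_iff₀ (by positivity)]
      exact h1
    have e1 : Real.sqrt (3 ^ ones l) * c = Real.sqrt (3 ^ ones l * 3 ^ q / 2 ^ (12 * q)) := by
      rw [hc, Real.sqrt_div (by positivity), Real.sqrt_mul (by positivity)]
      ring
    rw [e1]
    rw [Real.sqrt_le_left (by positivity)]
    have a1 := Real.sq_sqrt (show (0 : ℝ) ≤ 3 ^ ones l * 3 ^ q / 2 ^ (12 * q) by positivity)
    have a2 := Real.sq_sqrt (show (0 : ℝ) ≤ (val l : ℝ) / 2 ^ (11 * q) by positivity)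
    have a3 : 0 ≤ Real.sqrt (3 ^ ones l * 3 ^ q / 2 ^ (12 * q)) *
        Real.sqrt ((val l : ℝ) / 2 ^ (11 * q)) := by positivity
    nlinarith
  have h1 : (((bits (11 * q)).filter
      (fun l => B * 2 ^ (12 * q) < 3 ^ ones l * 3 ^ q + 2 ^ q * val l)).card : ℝ) *
      Real.sqrt B ≤ ∑ l ∈ bits (11 * q),
        (Real.sqrt (3 ^ ones l) * c + Real.sqrt ((val l : ℝ) / 2 ^ (11 * q))) := by
    rw [← nsmul_eq_mul, ← sum_const]
    calc ∑ _l ∈ (bits (11 * q)).filter
          (fun l => B * 2 ^ (12 * q) < 3 ^ ones l * 3 ^ q + 2 ^ q * val l), Real.sqrt B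
        ≤ ∑ l ∈ (bits (11 * q)).filter
          (fun l => B * 2 ^ (12 * q) < 3 ^ ones l * 3 ^ q + 2 ^ q * val l),
          (Real.sqrt (3 ^ ones l) * c + Real.sqrt ((val l : ℝ) / 2 ^ (11 * q))) := by
          apply sum_le_sum
          intro l hl
          rw [mem_filter] at hl
          exact key l hl.2
      _ ≤ _ := by
          apply sum_le_sum_of_subset_of_nonneg (filter_subset _ _)
          intro l _ _
          positivity
  refine h1.trans ?_
  rw [sum_add_distrib, ← sum_mul, mom_sum_sqrt]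
  have h2 : (1 + Real.sqrt 3) ^ (11 * q) * c ≤ 2 ^ (11 * q) := by
    have e : (1 + Real.sqrt 3) ^ (11 * q) * c = ((1 + Real.sqrt 3) ^ 11 * Real.sqrt 3 / 64) ^ q := by
      rw [hc, show (2 : ℝ) ^ (12 * q) = ((64 : ℝ) ^ q) ^ 2 by
        rw [← pow_mul, show (64 : ℝ) = 2 ^ 6 by norm_num, ← pow_mul]; congr 1; ring]
      rw [Real.sqrt_sq (by positivity), mom_sqrt_pow 3 (by norm_num), pow_mul, div_pow, mul_pow]
      ring
    rw [e, pow_mul]
    apply pow_le_pow_left₀ (by positivity)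
    rw [div_le_iff₀ (by norm_num)]
    refine mom_num.trans ?_
    norm_num
  have h3 := mom_S (11 * q)
  have h4 : 0 ≤ ((1 + Real.sqrt 3) / Real.sqrt 2) ^ (11 * q) := by positivity
  linarith

end Pool.Agent.WCC
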