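import Pool.Agent.WCC.Pat

/-! # Patterns of integers and steering -/

set_option autoImplicit false

namespace Pool.Agent.WCC

open Finset

theorem patt_length (j F : ℕ) (y : ℤ) : (patt j F y).length = F := by
  induction F generalizing j y with
  | zero => simp [patt]
  | succ F ih =>
    rw [patt]
    split_ifs
    · rw [List.length_cons, ih]
    · rw [List.length_cons, ih]

theorem patt_spec (v u : List Bool) :
    patt (ones (v ++ u)) v.length (val (v ++ u) : ℤ) = v := by
  induction v with
  | nil => simp [patt]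
  | cons b v ih =>
    have hm := val_cons_mod_two b (v ++ u)
    rw [List.cons_append, List.length_cons, patt]
    cases b
    · have h0 : ((val (false :: (v ++ u)) : ℕ) : ℤ) % 2 = 0 := by
        have : val (false :: (v ++ u)) % 2 = 0 := by simpa using hm
        omega
      rw [if_pos h0]
      have h1 : ones (false :: (v ++ u)) = ones (v ++ u) := by simp [ones_cons]
      have h2 : ((val (false :: (v ++ u)) : ℕ) : ℤ) / 2 = (val (v ++ u) : ℤ) := by
        rw [val_cons]; simp
      rw [h1, h2, ih]
    · have h0 : ¬ ((val (true :: (v ++ u)) : ℕ) : ℤ) % 2 = 0 := by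
        have : val (true :: (v ++ u)) % 2 = 1 := by simpa using hm
        omega
      rw [if_neg h0]
      have h1 : ones (true :: (v ++ u)) - 1 = ones (v ++ u) := by simp [ones_cons]
      have h2 : (((val (true :: (v ++ u)) : ℕ) : ℤ) - 3 ^ (ones (true :: (v ++ u)) - 1)) / 2
          = (val (v ++ u) : ℤ) := by
        rw [h1, val_cons]
        simp only [if_true]
        push_cast
        rw [show (2 * (val (v ++ u) : ℤ) + 3 ^ ones (v ++ u) - 3 ^ ones (v ++ u))
          = 2 * (val (v ++ u) : ℤ) by ring]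
        omega
      rw [h2, h1, ih]

theorem steer_pow_odd (k : ℕ) : ((3 : ℤ) ^ k) % 2 = 1 := by
  induction k with
  | zero => norm_num
  | succ k ih => rw [pow_succ]; omega

theorem patt_congr (j F : ℕ) (y y' : ℤ) (h : (2 : ℤ) ^ F ∣ y - y') :
    patt j F y = patt j F y' := by
  induction F generalizing j y y' with
  | zero => simp [patt]
  | succ F ih =>
    obtain ⟨c, hc⟩ := h
    have hc' : y = y' + 2 * (2 ^ F * c) := by
      rw [pow_succ] at hc; linarith
    rw [patt, patt]
    by_cases h0 : y % 2 = 0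
    · have h0' : y' % 2 = 0 := by omega
      rw [if_pos h0, if_pos h0']
      rw [ih j (y / 2) (y' / 2) ⟨c, by omega⟩]
    · have h0' : ¬ y' % 2 = 0 := by omega
      rw [if_neg h0, if_neg h0']
      have h3 := steer_pow_odd (j - 1)
      rw [ih (j - 1) ((y - 3 ^ (j - 1)) / 2) ((y' - 3 ^ (j - 1)) / 2) ⟨c, by omega⟩]

/-- the state after `F` steps -/
def pst : ℕ → ℕ → ℤ → ℕ × ℤ
  | j, 0, y => (j, y)
  | j, F + 1, y =>
      if y % 2 = 0 then pst j F (y / 2)
      else pst (j - 1) F ((y - 3 ^ (j - 1)) / 2)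

theorem steer_patt_append (j F1 F2 : ℕ) (y : ℤ) :
    patt j (F1 + F2) y = patt j F1 y ++ patt (pst j F1 y).1 F2 (pst j F1 y).2 := by
  induction F1 generalizing j y with
  | zero => simp [patt, pst]
  | succ F1 ih =>
    rw [show F1 + 1 + F2 = (F1 + F2) + 1 by ring, patt, patt, pst]
    by_cases h0 : y % 2 = 0
    · rw [if_pos h0, if_pos h0, if_pos h0, ih, List.cons_append]
    · rw [if_neg h0, if_neg h0, if_neg h0, ih, List.cons_append]

theorem steer_pst_add (j F : ℕ) (y c : ℤ) :
    pst j F (y + 2 ^ F * c) = ((pst j F y).1, (pst j F y).2 + c) := by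
  induction F generalizing j y with
  | zero => simp [pst]
  | succ F ih =>
    rw [pst, pst]
    have e : y + 2 ^ (F + 1) * c = y + 2 * (2 ^ F * c) := by ring
    rw [e]
    by_cases h0 : y % 2 = 0
    · have h0' : (y + 2 * (2 ^ F * c)) % 2 = 0 := by omega
      rw [if_pos h0, if_pos h0', ← ih]
      congr 1
      omega
    · have h0' : ¬ (y + 2 * (2 ^ F * c)) % 2 = 0 := by omega
      rw [if_neg h0, if_neg h0', ← ih]
      congr 1
      have h3 := steer_pow_odd (j - 1)
      omega

theorem steer_window (t : Bool) (j F : ℕ) (y : ℤ) :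
    ∃ c : ℕ, c < 2 ^ F ∧ patt j F (y + c) = List.replicate F t := by
  induction F generalizing j y with
  | zero => exact ⟨0, by simp, by simp [patt]⟩
  | succ F ih =>
    have h3 := steer_pow_odd (j - 1)
    cases t
    · -- want even
      obtain ⟨c0, hc0, hpar⟩ : ∃ c0 : ℕ, c0 ≤ 1 ∧ (y + c0) % 2 = 0 := by
        rcases Int.emod_two_eq_zero_or_one y with h | h
        · exact ⟨0, by omega, by push_cast; omega⟩
        · exact ⟨1, by omega, by push_cast; omega⟩
      obtain ⟨c', hc', hp⟩ := ih j ((y + c0) / 2)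
      refine ⟨c0 + 2 * c', ?_, ?_⟩
      · rw [pow_succ]; omega
      · rw [patt]
        have h0 : (y + ((c0 + 2 * c' : ℕ) : ℤ)) % 2 = 0 := by push_cast; omega
        rw [if_pos h0, List.replicate_succ]
        have : (y + ((c0 + 2 * c' : ℕ) : ℤ)) / 2 = (y + c0) / 2 + c' := by push_cast; omega
        rw [this, hp]
    · obtain ⟨c0, hc0, hpar⟩ : ∃ c0 : ℕ, c0 ≤ 1 ∧ (y + c0) % 2 = 1 := by
        rcases Int.emod_two_eq_zero_or_one y with h | h
        · exact ⟨1, by omega, by push_cast; omega⟩
        · exact ⟨0, by omega, by push_cast; omega⟩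
      obtain ⟨c', hc', hp⟩ := ih (j - 1) ((y + c0 - 3 ^ (j - 1)) / 2)
      refine ⟨c0 + 2 * c', ?_, ?_⟩
      · rw [pow_succ]; omega
      · rw [patt]
        have h0 : ¬ (y + ((c0 + 2 * c' : ℕ) : ℤ)) % 2 = 0 := by push_cast; omega
        rw [if_neg h0, List.replicate_succ]
        have : (y + ((c0 + 2 * c' : ℕ) : ℤ) - 3 ^ (j - 1)) / 2
            = (y + c0 - 3 ^ (j - 1)) / 2 + c' := by push_cast; omega
        rw [this, hp]

theorem steer_imb_replicate (F : ℕ) (t : Bool) :
    imb (List.replicate F t) = if t then (F : ℤ) else -(F : ℤ) := by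
  unfold imb ones
  cases t
  · simp [List.count_replicate]
  · simp [List.count_replicate]; ring

theorem steer_gen (M R : ℕ) (L : List (ℤ × ℕ × ℤ)) (hL : L.length ≤ M) :
    ∃ c : ℕ, c < 2 ^ ((2 ^ M - 1) * R) ∧
      ∀ w ∈ L, (R : ℤ) ≤ |w.2.2 + imb (patt w.2.1 ((2 ^ M - 1) * R) (w.1 + c))| := by
  induction M generalizing L with
  | zero =>
    have : L = [] := List.length_eq_zero_iff.1 (Nat.le_zero.1 hL)
    subst this
    exact ⟨0, by simp, by simp⟩
  | succ M ih =>
    cases L with
    | nil => exact ⟨0, by positivity, by simp⟩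
    | cons w L =>
      have hL' : L.length ≤ M := by simpa using hL
      obtain ⟨y, j, A⟩ := w
      have h1 : 1 ≤ 2 ^ M := Nat.one_le_two_pow
      have hF : (2 ^ (M + 1) - 1) * R = 2 ^ M * R + (2 ^ M - 1) * R := by
        rw [← add_mul]
        congr 1
        rw [pow_succ]; omega
      rw [hF]
      have hFR : 2 ^ M * R = (2 ^ M - 1) * R + R := by
        conv_lhs => rw [show 2 ^ M = (2 ^ M - 1) + 1 by omega]
        ring
      set F1 := 2 ^ M * R with hF1
      set F2 := (2 ^ M - 1) * R with hF2
      obtain ⟨c1, hc1, hp1⟩ := steer_window (decide (0 ≤ A)) j F1 y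
      obtain ⟨c2, hc2, hp2⟩ := ih (L.map (fun w =>
        ((pst w.2.1 F1 (w.1 + c1)).2, (pst w.2.1 F1 (w.1 + c1)).1,
          w.2.2 + imb (patt w.2.1 F1 (w.1 + c1))))) (by simpa using hL')
      refine ⟨c1 + 2 ^ F1 * c2, ?_, ?_⟩
      · rw [pow_add]
        calc c1 + 2 ^ F1 * c2 < 2 ^ F1 + 2 ^ F1 * c2 := by omega
          _ = 2 ^ F1 * (c2 + 1) := by ring
          _ ≤ 2 ^ F1 * 2 ^ F2 := Nat.mul_le_mul_left _ hc2
      · have key : ∀ (y' : ℤ) (j' : ℕ),
            imb (patt j' (F1 + F2) (y' + ((c1 + 2 ^ F1 * c2 : ℕ) : ℤ))) =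
              imb (patt j' F1 (y' + c1)) +
              imb (patt (pst j' F1 (y' + c1)).1 F2 ((pst j' F1 (y' + c1)).2 + c2)) := by
          intro y' j'
          rw [steer_patt_append, imb_append]
          have e1 : y' + ((c1 + 2 ^ F1 * c2 : ℕ) : ℤ) = (y' + c1) + 2 ^ F1 * (c2 : ℤ) := by
            push_cast; ring
          rw [e1, steer_pst_add]
          congr 2
          exact patt_congr _ _ _ _ ⟨c2, by ring⟩
        intro w hw
        rcases List.mem_cons.1 hw with rfl | hw
        · simp only
          rw [key, hp1, steer_imb_replicate]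
          have hb := abs_imb_le (patt (pst j F1 (y + c1)).1 F2 ((pst j F1 (y + c1)).2 + c2))
          rw [patt_length] at hb
          rw [abs_le] at hb
          by_cases hA : 0 ≤ A
          · simp only [hA, decide_true, if_true]
            rw [le_abs]
            left
            have : (F1 : ℤ) = F2 + R := by exact_mod_cast hFR
            linarith [hb.1]
          · simp only [hA, decide_false, Bool.false_eq_true, if_false]
            rw [le_abs]
            right
            have : (F1 : ℤ) = F2 + R := by exact_mod_cast hFR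
            push Not at hA
            linarith [hb.2]
        · have := hp2 _ (List.mem_map_of_mem hw)
          simp only at this
          rw [key, ← add_assoc]
          exact this

theorem steer (M R j : ℕ) (W : Finset ℤ) (hW : W.card ≤ M) :
    ∃ b : ℕ, b < 2 ^ ((2 ^ M - 1) * R) ∧
      ∀ τ ∈ W, (R : ℤ) ≤ |imb (patt j ((2 ^ M - 1) * R) ((b : ℤ) + τ))| := by
  obtain ⟨c, hc, h⟩ := steer_gen M R (W.toList.map (fun τ => (τ, j, 0))) (by simpa using hW)
  refine ⟨c, hc, fun τ hτ => ?_⟩
  have := h (τ, j, 0) (List.mem_map_of_mem (Finset.mem_toList.2 hτ))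
  simpa [add_comm] using this

end Pool.Agent.WCC
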