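import Pool.Agent.WCC.Coal
import Pool.Agent.WCC.Mom
import Pool.Agent.WCC.Steer
import Pool.Agent.WCC.Alive
import Pool.Agent.WCC.Fail
import Pool.Agent.WCC.Bad

/-! # The combinatorial core of the disproof: if all unit classes are hit, two counting
inequalities hold -/

set_option autoImplicit false

namespace Pool.Agent.WCC

open Finset

theorem val_le_three_pow (l : List Bool) : val l ≤ 3 ^ l.length := by
  exact le_trans (Nat.le_add_right _ _) (val_add_le l)

/-- a nice hit gives an alive cell -/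
theorem nice_alive (j n s s1 m kmin w B N' Y i : ℕ) (hj : 2 * j = s + n)
    (hN' : N' = 3 ^ m * 2 ^ s1) (hi : i < 2 ^ s1)
    (hw : ∀ u : List Bool, u.length = n → |imb u| ≤ (w : ℤ) → kmin ≤ ones u ∧ ones u ≤ m)
    (x : List Bool) (hx : x.length = 2 * j) (hv : val x = Y + 3 ^ m * i)
    (h1 : val (x.take s) ≤ B * 2 ^ s) (h2 : |imb (x.drop s)| ≤ (w : ℤ)) :
    AliveY n s N' B kmin m Y := by
  have hlen : (x.drop s).length = n := by rw [List.length_drop]; omega
  obtain ⟨hk1, hk2⟩ := hw _ hlen h2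
  have htake : (x.take s).length = s := by rw [List.length_take]; omega
  have hval : val x = 3 ^ ones (x.drop s) * val (x.take s) + 2 ^ s * val (x.drop s) := by
    conv_lhs => rw [← List.take_append_drop s x]
    rw [val_append, htake]
  set k := ones (x.drop s) with hk
  refine ⟨x.drop s, hlen, hk1, hk2, ?_, ?_, ?_⟩
  · -- congruence mod 3^k
    rw [← hk]
    have h3 : 3 ^ m * i = 3 ^ k * (3 ^ (m - k) * i) := by
      rw [← mul_assoc, ← pow_add]; congr 2; omega
    have e1 : 2 ^ s * val (x.drop s) ≡ val x [MOD 3 ^ k] := by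
      rw [hval]
      have : 3 ^ k * val (x.take s) + 2 ^ s * val (x.drop s) ≡
          0 + 2 ^ s * val (x.drop s) [MOD 3 ^ k] :=
        Nat.ModEq.add_right _ ((Nat.modEq_zero_iff_dvd).mpr (Dvd.intro _ rfl))
      rw [zero_add] at this
      exact this.symm
    have e2 : val x ≡ Y [MOD 3 ^ k] := by
      rw [hv, h3]
      have : Y + 3 ^ k * (3 ^ (m - k) * i) ≡ Y + 0 [MOD 3 ^ k] :=
        Nat.ModEq.add_left _ ((Nat.modEq_zero_iff_dvd).mpr (Dvd.intro _ rfl))
      rw [add_zero] at this
      exact this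
    exact e1.trans e2
  · have : 3 ^ m * i < N' := by
      rw [hN']; exact Nat.mul_lt_mul_of_pos_left hi (by positivity)
    omega
  · rw [← hk]
    have : 3 ^ k * val (x.take s) ≤ B * 3 ^ k * 2 ^ s := by
      calc 3 ^ k * val (x.take s) ≤ 3 ^ k * (B * 2 ^ s) := Nat.mul_le_mul_left _ h1
        _ = B * 3 ^ k * 2 ^ s := by ring
    have hY : Y ≤ val x := by omega
    omega

/-- number of `i < 2^s1` in a prescribed class mod `2^F` -/
theorem core_class (s1 F m : ℕ) (hF : F ≤ s1) (d : ℤ) :
    2 ^ (s1 - F) ≤ ((range (2 ^ s1)).filter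
      (fun i : ℕ => (2 : ℤ) ^ F ∣ 3 ^ m * (i : ℤ) - d)).card := by
  -- find the residue
  have hcop : IsCoprime ((3 : ℤ) ^ m) ((2 : ℤ) ^ F) := by
    apply IsCoprime.pow
    exact ⟨1, -1, by norm_num⟩
  obtain ⟨a, b, hab⟩ := hcop
  set i0 : ℤ := (a * d) % 2 ^ F with hi0
  have h2 : (0 : ℤ) < 2 ^ F := by positivity
  have hi00 : 0 ≤ i0 := Int.emod_nonneg _ h2.ne'
  have hi01 : i0 < 2 ^ F := Int.emod_lt_of_pos _ h2
  have hdvd : (2 : ℤ) ^ F ∣ 3 ^ m * i0 - d := by
    have h3 : (2 : ℤ) ^ F ∣ a * d - i0 := by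
      rw [hi0]; exact Int.dvd_self_sub_emod
    have h4 : 3 ^ m * i0 - d = -(3 ^ m * (a * d - i0)) + (-(b * d)) * 2 ^ F := by
      have : (a * 3 ^ m + b * 2 ^ F) * d = d := by rw [hab, one_mul]
      linear_combination this
    rw [h4]
    exact dvd_add ((dvd_neg).mpr (Dvd.dvd.mul_left h3 _)) (Dvd.intro_left _ rfl)
  obtain ⟨i1, hi1⟩ : ∃ i1 : ℕ, (i1 : ℤ) = i0 := ⟨i0.toNat, Int.toNat_of_nonneg hi00⟩
  have hi1lt : i1 < 2 ^ F := by
    have : (i1 : ℤ) < 2 ^ F := by rw [hi1]; exact hi01
    exact_mod_cast this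
  calc 2 ^ (s1 - F) = (range (2 ^ (s1 - F))).card := (card_range _).symm
    _ ≤ _ := by
      apply card_le_card_of_injOn (fun q => i1 + 2 ^ F * q)
      · intro q hq
        simp only [coe_range, Set.mem_Iio] at hq
        simp only [coe_filter, mem_range, Set.mem_setOf_eq]
        constructor
        · calc i1 + 2 ^ F * q < 2 ^ F + 2 ^ F * q := by omega
            _ = 2 ^ F * (q + 1) := by ring
            _ ≤ 2 ^ F * 2 ^ (s1 - F) := Nat.mul_le_mul_left _ hq
            _ = 2 ^ s1 := by rw [← pow_add]; congr 1; omega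
        · push_cast
          rw [hi1]
          have : (3 : ℤ) ^ m * (i0 + 2 ^ F * q) - d = (3 ^ m * i0 - d) + 2 ^ F * (3 ^ m * q) := by
            ring
          rw [this]
          exact dvd_add hdvd (Dvd.intro _ rfl)
      · intro q _ q' _ h
        simp only at h
        have h5 : 2 ^ F * q = 2 ^ F * q' := by omega
        exact Nat.eq_of_mul_eq_mul_left (by positivity) h5

open Classical in
theorem core (j n s s1 s2 F m kmin l M R R' w B N' C : ℕ)
    (hj : 2 * j = s + n) (hs2 : s2 ≤ s) (hs1 : s1 ≤ s) (hF : F ≤ s2) (hF1 : F ≤ s1)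
    (hm1 : 1 ≤ m) (hm : m + s2 ≤ j) (hN' : N' = 3 ^ m * 2 ^ s1) (hNl : N' ≤ 3 ^ l)
    (hL : 3 ^ j * 2 ^ s2 ≤ N') (hN : N' ≤ 3 ^ kmin * 2 ^ s) (hB : 1 ≤ B)
    (hw : ∀ u : List Bool, u.length = n → |imb u| ≤ (w : ℤ) → kmin ≤ ones u ∧ ones u ≤ m)
    (hFM : F = (2 ^ M - 1) * R) (hR' : R' + w + (s - s1) ≤ R)
    (hC : ∀ k, (s2 - F).choose k ≤ C)
    (Zb : Finset (List Bool)) (hZ : Zb ⊆ bits (2 * j - s2))
    (hZb : ∀ x : List Bool, x.length = 2 * j →
      ¬ (val (x.take s) ≤ B * 2 ^ s ∧ |imb (x.drop s)| ≤ (w : ℤ)) → x.drop s2 ∈ Zb)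
    (H : ∀ r < 3 ^ l, ¬ 3 ∣ r →
      ∃ x : List Bool, x.length = 2 * j ∧ ones x = j ∧ val x % 3 ^ l = r) :
    ∃ G : ℕ,
      (M + 1) * ((range (3 ^ l - N')).filter (fun a => ¬ 3 ∣ a)).card ≤ (M + 1) * G +
        (B + 2) * 2 ^ s * (n.choose kmin + ∑ κ ∈ range (3 * B + 1), nc n ⟨true, 1, -(κ : ℤ)⟩) ∧
      G * 2 ^ (s1 - F) ≤
        G * (M * ((bits (s1 - F)).filter (fun f => (R' : ℤ) ≤ |imb f|)).card) +
        Zb.card * (3 * 2 ^ s1) * C := by
  set Z : ℕ := 2 ^ s * 3 ^ n + B * 3 ^ m * 2 ^ s + 1 with hZd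
  set U : Finset ℕ := (range (3 ^ l - N')).filter (fun a => ¬ 3 ∣ a) with hU
  set al : ℕ → Finset ℕ :=
    fun a => (range Z).filter (fun Y => AliveY n s N' B kmin m Y ∧ Y % 3 ^ l = a) with hal
  set G : Finset ℕ := U.filter (fun a => (al a).card ≤ M) with hG
  have hUlt : ∀ a ∈ U, a + N' < 3 ^ l := by
    intro a ha
    rw [hU, mem_filter, mem_range] at ha
    omega
  -- alive cells are below `Z`
  have haliveZ : ∀ Y, AliveY n s N' B kmin m Y → Y < Z := by
    rintro Y ⟨u, hu, _, hu2, _, _, hu3⟩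
    have h1 : val u ≤ 3 ^ n := by rw [← hu]; exact val_le_three_pow u
    have h2 : (3 : ℕ) ^ ones u ≤ 3 ^ m := Nat.pow_le_pow_right (by norm_num) hu2
    have h3 : 2 ^ s * val u ≤ 2 ^ s * 3 ^ n := Nat.mul_le_mul_left _ h1
    have h4 : B * 3 ^ ones u * 2 ^ s ≤ B * 3 ^ m * 2 ^ s :=
      Nat.mul_le_mul_right _ (Nat.mul_le_mul_left _ h2)
    omega
  refine ⟨G.card, ?_, ?_⟩
  · -- Markov
    have hsum : ∑ a ∈ U, (al a).card ≤
        ((range Z).filter (fun Y => AliveY n s N' B kmin m Y)).card := by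
      rw [card_eq_sum_card_fiberwise (f := fun Y => Y % 3 ^ l) (t := range (3 ^ l))]
      · have hsub : U ⊆ range (3 ^ l) := by
          intro a ha
          rw [mem_range]
          have := hUlt a ha
          omega
        calc ∑ a ∈ U, (al a).card ≤ ∑ a ∈ range (3 ^ l), (al a).card :=
              sum_le_sum_of_subset hsub
          _ = _ := by
            apply sum_congr rfl
            intro a _
            congr 1
            ext Y
            simp only [hal, mem_filter]
            tauto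
      · intro Y _
        simp only [coe_range, Set.mem_Iio]
        exact Nat.mod_lt _ (by positivity)
    have halive := alive_count n s N' B kmin m Z hB hN
    have hsplit : U.card = G.card + (U.filter (fun a => ¬ (al a).card ≤ M)).card := by
      rw [hG]
      exact (card_filter_add_card_filter_not _).symm
    have hbig : (M + 1) * (U.filter (fun a => ¬ (al a).card ≤ M)).card ≤
        ∑ a ∈ U, (al a).card := by
      calc (M + 1) * (U.filter (fun a => ¬ (al a).card ≤ M)).card =
            ∑ a ∈ U.filter (fun a => ¬ (al a).card ≤ M), (M + 1) := by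
              rw [sum_const, smul_eq_mul, mul_comm]
        _ ≤ ∑ a ∈ U.filter (fun a => ¬ (al a).card ≤ M), (al a).card := by
              apply sum_le_sum
              intro a ha
              have := (mem_filter.mp ha).2
              omega
        _ ≤ ∑ a ∈ U, (al a).card := sum_le_sum_of_subset (filter_subset _ _)
    rw [hsplit, mul_add]
    have := hbig.trans (hsum.trans halive)
    omega
  · -- steering
    have hst : ∀ a : ℕ, ∃ b : ℕ, (al a).card ≤ M →
        ∀ Y ∈ al a, (R : ℤ) ≤ |imb (patt j F ((b : ℤ) + ((Y : ℤ) - a)))| := by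
      intro a
      by_cases ha : (al a).card ≤ M
      · obtain ⟨b, _, hb⟩ := steer M R j ((al a).image (fun Y : ℕ => (Y : ℤ) - a))
          (card_image_le.trans ha)
        refine ⟨b, fun _ Y hY => ?_⟩
        rw [hFM]
        exact hb _ (mem_image_of_mem _ hY)
      · exact ⟨0, fun h => absurd h ha⟩
    choose b hb using hst
    set V : ℕ → List Bool := fun Y =>
      patt j F ((b (Y % 3 ^ l) : ℤ) + ((Y : ℤ) - ((Y % 3 ^ l : ℕ) : ℤ))) with hV
    have hVlen : ∀ Y, (V Y).length = F := fun Y => patt_length _ _ _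
    set I : ℕ → Finset ℕ := fun a => (range (2 ^ s1)).filter
      (fun i : ℕ => (2 : ℤ) ^ F ∣ 3 ^ m * (i : ℤ) - ((b a : ℤ) - a)) with hI
    -- the hits
    have hit : ∀ a i : ℕ, ∃ x : List Bool, ∃ Y : ℕ, a ∈ U → i < 2 ^ s1 →
        x.length = 2 * j ∧ ones x = j ∧ val x = Y + 3 ^ m * i ∧ Y % 3 ^ l = a := by
      intro a i
      by_cases ha : a ∈ U
      · by_cases hi : i < 2 ^ s1
        · have hi2 : 3 ^ m * i < N' := by
            rw [hN']; exact Nat.mul_lt_mul_of_pos_left hi (by positivity)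
          have h1 := hUlt a ha
          have h3 : ¬ 3 ∣ a + 3 ^ m * i := by
            have h4 : 3 ∣ 3 ^ m * i := Dvd.dvd.mul_right (dvd_pow_self 3 (by omega)) i
            have h5 : ¬ 3 ∣ a := by
              rw [hU, mem_filter] at ha; exact ha.2
            intro h6
            exact h5 ((Nat.dvd_add_left h4).mp h6)
          obtain ⟨x, hx1, hx2, hx3⟩ := H (a + 3 ^ m * i) (by omega) h3
          refine ⟨x, a + 3 ^ l * (val x / 3 ^ l), fun _ _ => ⟨hx1, hx2, ?_, ?_⟩⟩
          · have := Nat.div_add_mod (val x) (3 ^ l)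
            omega
          · rw [Nat.add_mul_mod_self_left]
            exact Nat.mod_eq_of_lt (by omega)
        · exact ⟨[], 0, fun _ h => absurd h hi⟩
      · exact ⟨[], 0, fun h => absurd h ha⟩
    choose x Y hxY using hit
    -- the pattern of a hit
    have hpat : ∀ a ∈ G, ∀ i ∈ I a, (x a i).take F = V (Y a i) := by
      intro a ha i hi
      have haU : a ∈ U := (mem_filter.mp ha).1
      have hi1 : i < 2 ^ s1 := mem_range.mp (mem_filter.mp hi).1
      obtain ⟨h1, h2, h3, h4⟩ := hxY a i haU hi1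
      have hd := (mem_filter.mp hi).2
      simp only [hV]
      rw [h4]
      have hF2 : ((x a i).take F).length = F := by rw [List.length_take]; omega
      have e1 : patt j F (val (x a i) : ℤ) = (x a i).take F := by
        have := patt_spec ((x a i).take F) ((x a i).drop F)
        rw [List.take_append_drop, h2, hF2] at this
        exact this
      rw [← e1, h3]
      apply patt_congr
      push_cast
      have : (Y a i : ℤ) + 3 ^ m * (i : ℤ) - ((b a : ℤ) + ((Y a i : ℤ) - (a : ℤ))) =
          3 ^ m * (i : ℤ) - ((b a : ℤ) - a) := by ring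
      rw [this]
      exact hd
    set nice : ℕ → ℕ → Prop := fun a i =>
      val ((x a i).take s) ≤ B * 2 ^ s ∧ |imb ((x a i).drop s)| ≤ (w : ℤ) with hnice
    -- the three counts
    have h1 : ∀ a ∈ G, 2 ^ (s1 - F) ≤ (I a).card := fun a _ => core_class s1 F m hF1 _
    have h2 : ∀ a ∈ G, ((I a).filter (fun i => nice a i)).card ≤
        M * ((bits (s1 - F)).filter (fun f => (R' : ℤ) ≤ |imb f|)).card := by
      intro a ha
      have haU : a ∈ U := (mem_filter.mp ha).1
      have haM : (al a).card ≤ M := (mem_filter.mp ha).2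
      have hsub : (I a).filter (fun i => nice a i) ⊆ (al a).biUnion (fun Y' =>
          (range (2 ^ s1)).filter (fun i => ∃ x : List Bool, x.length = 2 * j ∧ ones x = j ∧
            val x = Y' + 3 ^ m * i ∧ x.take F = V Y' ∧ |imb (x.drop s)| ≤ (w : ℤ))) := by
        intro i hi
        rw [mem_filter] at hi
        obtain ⟨hiI, hn1, hn2⟩ := hi
        have hi1 : i < 2 ^ s1 := mem_range.mp (mem_filter.mp hiI).1
        obtain ⟨g1, g2, g3, g4⟩ := hxY a i haU hi1
        have hal1 : AliveY n s N' B kmin m (Y a i) :=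
          nice_alive j n s s1 m kmin w B N' (Y a i) i hj hN' hi1 hw (x a i) g1 g3 hn1 hn2
        rw [mem_biUnion]
        refine ⟨Y a i, ?_, ?_⟩
        · simp only [hal, mem_filter, mem_range]
          exact ⟨haliveZ _ hal1, hal1, g4⟩
        · rw [mem_filter, mem_range]
          exact ⟨hi1, x a i, g1, g2, g3, hpat a ha i hiI, hn2⟩
      calc ((I a).filter (fun i => nice a i)).card ≤ _ := card_le_card hsub
        _ ≤ ∑ Y' ∈ al a, ((range (2 ^ s1)).filter (fun i => ∃ x : List Bool,
            x.length = 2 * j ∧ ones x = j ∧ val x = Y' + 3 ^ m * i ∧ x.take F = V Y' ∧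
            |imb (x.drop s)| ≤ (w : ℤ))).card := card_biUnion_le
        _ ≤ ∑ Y' ∈ al a, ((bits (s1 - F)).filter (fun f => (R' : ℤ) ≤ |imb f|)).card := by
            apply sum_le_sum
            intro Y' hY'
            apply fail_count j s s1 F m w R R' Y' (V Y') (by omega) hs1 hF1 (hVlen _) _ hR'
            have h4 : Y' % 3 ^ l = a := (mem_filter.mp hY').2.2
            have := hb a haM Y' hY'
            simp only [hV]
            rw [h4]
            exact this
        _ = (al a).card * ((bits (s1 - F)).filter (fun f => (R' : ℤ) ≤ |imb f|)).card := by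
            rw [sum_const, smul_eq_mul]
        _ ≤ _ := Nat.mul_le_mul_right _ haM
    have h3 : (G.sigma (fun a => (I a).filter (fun i => ¬ nice a i))).card ≤
        Zb.card * (3 * 2 ^ s1) * C := by
      have hinj : Set.InjOn (fun p : (_ : ℕ) × ℕ => (Y p.1 p.2, p.2))
          (G.sigma (fun a => (I a).filter (fun i => ¬ nice a i)) : Set ((_ : ℕ) × ℕ)) := by
        rintro ⟨a, i⟩ hp ⟨a', i'⟩ hp' h
        simp only [Prod.mk.injEq] at h
        obtain ⟨hY, hi⟩ := h
        subst hi
        rw [mem_coe, mem_sigma] at hp hp'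
        obtain ⟨q1, q2⟩ := hp
        obtain ⟨q1', q2'⟩ := hp'
        simp only at q1 q2 q1' q2'
        have hi1 : i < 2 ^ s1 := mem_range.mp (mem_filter.mp (mem_filter.mp q2).1).1
        have e1 := (hxY a i (mem_filter.mp q1).1 hi1).2.2.2
        have e2 := (hxY a' i (mem_filter.mp q1').1 hi1).2.2.2
        have : a = a' := by rw [← e1, ← e2, hY]
        subst this
        rfl
      rw [← card_image_of_injOn hinj]
      apply bad_count j s1 s2 F m N' C V hVlen hN' hL hm hF Zb hZ (by omega) hC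
      intro p hp
      rw [mem_image] at hp
      obtain ⟨⟨a, i⟩, hq, rfl⟩ := hp
      rw [mem_sigma] at hq
      obtain ⟨q1, q2⟩ := hq
      simp only at q1 q2 ⊢
      have q3 := mem_filter.mp q2
      have hi1 : i < 2 ^ s1 := mem_range.mp (mem_filter.mp q3.1).1
      obtain ⟨g1, g2, g3, g4⟩ := hxY a i (mem_filter.mp q1).1 hi1
      exact ⟨hi1, x a i, g1, g2, g3, hpat a q1 i q3.1, hZb _ g1 q3.2⟩
    calc G.card * 2 ^ (s1 - F) = ∑ a ∈ G, 2 ^ (s1 - F) := by rw [sum_const, smul_eq_mul]
      _ ≤ ∑ a ∈ G, (I a).card := sum_le_sum h1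
      _ = ∑ a ∈ G, (((I a).filter (fun i => nice a i)).card +
            ((I a).filter (fun i => ¬ nice a i)).card) := by
          apply sum_congr rfl
          intro a _
          exact (card_filter_add_card_filter_not _).symm
      _ = ∑ a ∈ G, ((I a).filter (fun i => nice a i)).card +
            ∑ a ∈ G, ((I a).filter (fun i => ¬ nice a i)).card := sum_add_distrib
      _ ≤ ∑ a ∈ G, (M * ((bits (s1 - F)).filter (fun f => (R' : ℤ) ≤ |imb f|)).card) +
            (G.sigma (fun a => (I a).filter (fun i => ¬ nice a i))).card := by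
          rw [card_sigma]
          exact Nat.add_le_add_right (sum_le_sum h2) _
      _ ≤ _ := by
          rw [sum_const, smul_eq_mul]
          exact Nat.add_le_add_left h3 _

end Pool.Agent.WCC
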