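import Mathlib

/-!
# Wirsching's covering conjecture (MP_77f1eb_nt): definitions

Patterns are bit lists, *lowest exponent first*.  `val l = ∑ 2^p 3^{#ones above p}` over the
positions `p` of the ones of `l`.  See BLUEPRINT.md in this folder.
-/

set_option autoImplicit false

namespace Pool.Agent.WCC

/-- number of ones of a bit list -/
def ones (l : List Bool) : ℕ := l.count true

/-- value of a bit list (lowest exponent first) -/
def val : List Bool → ℕ
  | [] => 0
  | b :: l => 2 * val l + (if b then 3 ^ ones l else 0)

/-- the finite set of bit lists of length `n` -/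
def bits : ℕ → Finset (List Bool)
  | 0 => {[]}
  | n + 1 => (bits n).image (List.cons false) ∪ (bits n).image (List.cons true)

/-- state of the pair chain: orientation `o`, height `e`, difference `D`.
`o = true` means `M' = 3^e M + D`, `o = false` means `M = 3^e M' + D`. -/
structure St where
  o : Bool
  e : ℕ
  D : ℤ
deriving DecidableEq

/-- one step of the pair chain; `b` is the parity of `M` -/
def step (b : Bool) (s : St) : St :=
  if s.D % 2 = 0 then
    (if b then ⟨s.o, s.e, (3 * s.D + 1 - 3 ^ s.e) / 2⟩ else ⟨s.o, s.e, s.D / 2⟩)
  else if b = s.o then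
    (match s.e with
      | 0 => ⟨!s.o, 1, (1 - 3 * s.D) / 2⟩
      | e + 1 => ⟨s.o, e, (s.D - 3 ^ e) / 2⟩)
  else ⟨s.o, s.e + 1, (3 * s.D + 1) / 2⟩

/-- the pair has coalesced -/
def absorbed (s : St) : Prop := s.e = 0 ∧ s.D = 0

instance (s : St) : Decidable (absorbed s) := by unfold absorbed; infer_instance

/-- the chain driven by the bits of `u` reaches `(e, D) = (0, 0)` -/
def coal : List Bool → St → Prop
  | [], s => absorbed s
  | b :: l, s => absorbed s ∨ coal l (step b s)

instance coalDec : (u : List Bool) → (s : St) → Decidable (coal u s)
  | [], s => by unfold coal; infer_instance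
  | b :: l, s => by
      unfold coal
      haveI := coalDec l (step b s)
      infer_instance

/-- number of bit lists of length `n` along which the chain started at `s` does not coalesce -/
def nc (n : ℕ) (s : St) : ℕ := ((bits n).filter (fun u => ¬ coal u s)).card

/-- the pattern of `y` (first `F` bits) when `j` ones are still to come:
`y ↦ y/2` for even `y`, `y ↦ (y - 3^(j-1))/2` and `j ↦ j - 1` for odd `y`. -/
def patt : ℕ → ℕ → ℤ → List Bool
  | _, 0, _ => []
  | j, F + 1, y =>
      if y % 2 = 0 then false :: patt j F (y / 2)
      else true :: patt (j - 1) F ((y - 3 ^ (j - 1)) / 2)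

/-- twice the number of ones minus the length -/
def imb (l : List Bool) : ℤ := 2 * (ones l : ℤ) - (l.length : ℤ)

end Pool.Agent.WCC
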