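import Pool.Agent.WCC.PotB

/-! # The non-coalescence bound -/

set_option autoImplicit false

namespace Pool.Agent.WCC

open Finset

theorem pot_exists_b : ∃ b : ℝ, 0 ≤ b ∧ ∀ e : ℕ,
    Real.sqrt ((9 / 10) ^ e) * (1 + (72 / 100) * ((Nat.log 2 (e + 2) : ℝ) + 3)) ≤
      b * (1 / (((e : ℝ) + 1) * (e + 2) * (e + 3))) := by
  set r : ℝ := Real.sqrt (9 / 10) with hr
  have hr0 : 0 < r := Real.sqrt_pos.mpr (by norm_num)
  have hr1 : r < 1 := by
    rw [hr]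
    have : Real.sqrt (9 / 10) < Real.sqrt 1 := Real.sqrt_lt_sqrt (by norm_num) (by norm_num)
    rwa [Real.sqrt_one] at this
  have ht : Filter.Tendsto (fun n : ℕ => (n : ℝ) ^ 4 * r ^ n) Filter.atTop (nhds 0) :=
    tendsto_pow_const_mul_const_pow_of_abs_lt_one 4 (by rw [abs_of_pos hr0]; exact hr1)
  obtain ⟨B, hB⟩ := ht.bddAbove_range
  have hB' : ∀ n : ℕ, (n : ℝ) ^ 4 * r ^ n ≤ B := fun n => hB ⟨n, rfl⟩
  have hB0 : 0 ≤ B := by
    have := hB' 0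
    simpa using this
  refine ⟨B / r ^ 5, by positivity, fun e => ?_⟩
  have h1 : Real.sqrt ((9 / 10) ^ e) = r ^ e := by
    rw [hr, Real.sqrt_eq_iff_mul_self_eq (by positivity) (by positivity), ← mul_pow,
      Real.mul_self_sqrt (by norm_num)]
  rw [h1]
  have h2 : (Nat.log 2 (e + 2) : ℝ) ≤ e + 1 := by
    have : Nat.log 2 (e + 2) < e + 2 := Nat.log_lt_self 2 (by omega)
    have h : Nat.log 2 (e + 2) ≤ e + 1 := by omega
    exact_mod_cast h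
  have h3 := hB' (e + 5)
  push_cast at h3
  have hre : 0 < r ^ e := by positivity
  rw [mul_one_div, le_div_iff₀ (by positivity)]
  have h4 : r ^ e * (1 + 72 / 100 * ((Nat.log 2 (e + 2) : ℝ) + 3)) *
      (((e : ℝ) + 1) * (e + 2) * (e + 3)) ≤ ((e : ℝ) + 5) ^ 4 * r ^ e := by
    have h5 : (1 + 72 / 100 * ((Nat.log 2 (e + 2) : ℝ) + 3)) ≤ (e : ℝ) + 5 := by
      have : (0 : ℝ) ≤ e := by positivity
      linarith
    have h50 : (0 : ℝ) ≤ 1 + 72 / 100 * ((Nat.log 2 (e + 2) : ℝ) + 3) := by positivity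
    have h6 : ((e : ℝ) + 1) * (e + 2) * (e + 3) ≤ ((e : ℝ) + 5) ^ 3 := by
      have : (0 : ℝ) ≤ e := by positivity
      nlinarith [sq_nonneg (e : ℝ), mul_nonneg this this]
    have h7 : (1 + 72 / 100 * ((Nat.log 2 (e + 2) : ℝ) + 3)) *
        (((e : ℝ) + 1) * (e + 2) * (e + 3)) ≤ ((e : ℝ) + 5) * ((e : ℝ) + 5) ^ 3 :=
      mul_le_mul h5 h6 (by positivity) (by positivity)
    calc _ = r ^ e * ((1 + 72 / 100 * ((Nat.log 2 (e + 2) : ℝ) + 3)) *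
        (((e : ℝ) + 1) * (e + 2) * (e + 3))) := by ring
      _ ≤ r ^ e * (((e : ℝ) + 5) * ((e : ℝ) + 5) ^ 3) := mul_le_mul_of_nonneg_left h7 hre.le
      _ = ((e : ℝ) + 5) ^ 4 * r ^ e := by ring
  refine h4.trans ?_
  rw [le_div_iff₀ (by positivity)]
  calc ((e : ℝ) + 5) ^ 4 * r ^ e * r ^ 5 = ((e : ℝ) + 5) ^ 4 * r ^ (e + 5) := by
        rw [pow_add]; ring
    _ ≤ B := h3

/-- the level parameter -/
noncomputable def potBeta (n : ℕ) : ℝ := 2 * (2 * ((Nat.log 2 (n + 1) : ℝ) + 3) + 1)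

theorem potBeta_ge (n : ℕ) : 14 ≤ potBeta n := by
  unfold potBeta
  have : (0 : ℝ) ≤ (Nat.log 2 (n + 1) : ℝ) := by positivity
  linarith

theorem potBeta_le (n : ℕ) (hn : 2 ≤ n) : potBeta n ≤ 32 * Real.log n := by
  unfold potBeta
  have hn2 : (2 : ℝ) ≤ n := by exact_mod_cast hn
  have hn0 : (0 : ℝ) < n := by linarith
  have hl2 := Real.log_two_gt_d9
  have hlog2 : Real.log 2 ≤ Real.log n := Real.log_le_log (by norm_num) hn2
  have h1 : (Nat.log 2 (n + 1) : ℝ) ≤ Real.logb 2 ((n + 1 : ℕ) : ℝ) := by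
    have := Real.natLog_le_logb (n + 1) 2
    exact_mod_cast this
  have h2 : Real.log ((n + 1 : ℕ) : ℝ) ≤ 2 * Real.log n := by
    have : (((n + 1 : ℕ) : ℝ)) ≤ (n : ℝ) ^ 2 := by push_cast; nlinarith
    calc Real.log ((n + 1 : ℕ) : ℝ) ≤ Real.log ((n : ℝ) ^ 2) :=
          Real.log_le_log (by positivity) this
      _ = 2 * Real.log n := by rw [Real.log_pow]; norm_num
  have h3 : (Nat.log 2 (n + 1) : ℝ) * Real.log 2 ≤ 2 * Real.log n := by
    rw [Real.logb, le_div_iff₀ (by linarith)] at h1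
    linarith
  have h4 : (Nat.log 2 (n + 1) : ℝ) * (6931 / 10000) ≤ 2 * Real.log n := by
    have : (0 : ℝ) ≤ (Nat.log 2 (n + 1) : ℝ) := by positivity
    nlinarith
  linarith

theorem nc_bound (κ : ℕ) : ∃ C : ℝ, 0 < C ∧ ∀ n : ℕ, 2 ≤ n →
    (nc n ⟨true, 1, -(κ : ℤ)⟩ : ℝ) ≤ C * Real.sqrt (Real.log n) * 2 ^ n / Real.sqrt n := by
  obtain ⟨b, hb, hbe⟩ := pot_exists_b
  obtain ⟨B0, hB0⟩ : ∃ B0 : ℕ, 13 + b / 2 ≤ (3 / 100) * Real.sqrt B0 := by
    obtain ⟨m, hm⟩ := exists_nat_ge ((100 / 3 : ℝ) * (13 + b / 2))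
    refine ⟨m ^ 2, ?_⟩
    push_cast
    rw [Real.sqrt_sq (by positivity)]
    linarith
  obtain ⟨L, hL⟩ := reach B0
  set C1 : ℝ := 2 ^ L * (13 + b / 2) with hC1
  have hC10 : 0 ≤ C1 := by positivity
  set K : ℝ := 11 + b / 2 + phi 1 (-(κ : ℤ)) + C1 * L with hK
  have hK0 : 0 < K := by
    have := phi_nonneg 1 (-(κ : ℤ))
    positivity
  refine ⟨2 * K * Real.sqrt 32, by positivity, fun n hn => ?_⟩
  have hn2 : (2 : ℝ) ≤ n := by exact_mod_cast hn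
  have hn0 : (0 : ℝ) < n := by linarith
  set γ : ℝ := Real.sqrt n with hγd
  have hγ : 1 ≤ γ := by
    rw [hγd, Real.one_le_sqrt]; linarith
  have hγn : γ ≤ n := by
    rw [hγd, Real.sqrt_le_left (by linarith)]
    nlinarith
  have hγ0 : 0 < γ := by linarith
  set sb : ℝ := Real.sqrt (potBeta n) with hsbd
  have hβ14 := potBeta_ge n
  have hsb : 1 ≤ sb := by
    rw [hsbd, Real.one_le_sqrt]; linarith
  have hsb2 : sb ^ 2 = potBeta n := Real.sq_sqrt (by linarith)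
  have hβ : ∀ e : ℕ, ((e + 1 : ℕ) : ℝ) * (sb / γ) ≤ 1 →
      2 * (2 * ((Nat.log 2 (e + 2) : ℝ) + 3) + 1) ≤ sb ^ 2 := by
    intro e he
    rw [hsb2]
    have h1 : ((e + 1 : ℕ) : ℝ) ≤ n := by
      rw [← mul_div_assoc, div_le_one hγ0] at he
      have h0 : (0 : ℝ) ≤ ((e + 1 : ℕ) : ℝ) := by positivity
      nlinarith
    have h2 : e + 1 ≤ n := by exact_mod_cast h1
    have h3 : Nat.log 2 (e + 2) ≤ Nat.log 2 (n + 1) := Nat.log_mono_right (by omega)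
    have h4 : (Nat.log 2 (e + 2) : ℝ) ≤ (Nat.log 2 (n + 1) : ℝ) := by exact_mod_cast h3
    unfold potBeta
    linarith
  have hdrift := pot_drift γ sb b C1 L B0 hγ hsb hb hbe hB0 hL hC1 hβ
  have hmain := pot_abstract n hn (pot γ sb b C1 L)
    (fun s => pot_nonneg γ sb b C1 L s hγ0 (by linarith) hb hC10) hdrift ⟨true, 1, -(κ : ℤ)⟩
  -- value at the start
  have hstart : pot γ sb b C1 L ⟨true, 1, -(κ : ℤ)⟩ ≤ sb * K := by
    unfold pot
    simp only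
    have hA1 := potA_one_le γ (sb / γ) hγ0.le (by positivity)
    have hA1' : 2 * γ * (sb / γ) = 2 * sb := by field_simp
    have m1 := mup_le 1 1 le_rfl (-(κ : ℤ))
    have m1' := mup_nonneg 1 (-(κ : ℤ))
    have hlog : (Nat.log 2 1 : ℝ) = 0 := by simp
    rw [hlog, zero_add] at m1
    have hH1 : potH 1 = 1 / 2 := by unfold potH; norm_num
    have hsq : Real.sqrt ((9 / 10) ^ 1) ≤ 1 := by
      rw [Real.sqrt_le_one]; norm_num
    have q5a : Real.sqrt ((9 / 10) ^ 1) * mup 1 (-(κ : ℤ)) ≤ 1 * 3 :=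
      mul_le_mul hsq m1 m1' zero_le_one
    have q2 : 2 / γ * mup 1 (-(κ : ℤ)) ≤ 6 := by
      have h2γ : 2 / γ ≤ 2 := by rw [div_le_iff₀ hγ0]; linarith
      have h2γ0 : 0 ≤ 2 / γ := by positivity
      nlinarith
    have hχ := mul_le_mul_of_nonneg_left (chi_le L ⟨true, 1, -(κ : ℤ)⟩) hC10
    rw [hH1]
    have hin : b * (1 / 2) + phi 1 (-(κ : ℤ)) +
        72 / 100 * (Real.sqrt ((9 / 10) ^ 1) * mup 1 (-(κ : ℤ))) +
        C1 * chi L ⟨true, 1, -(κ : ℤ)⟩ ≤ K - 8 := by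
      rw [hK]
      linarith
    have hin' := mul_le_mul_of_nonneg_left hin (by linarith : 0 ≤ sb)
    nlinarith
  have hsb3 : sb ≤ Real.sqrt 32 * Real.sqrt (Real.log n) := by
    rw [hsbd, ← Real.sqrt_mul (by norm_num)]
    exact Real.sqrt_le_sqrt (potBeta_le n hn)
  have h2n : (0 : ℝ) < 2 ^ n := by positivity
  rw [div_le_iff₀ h2n] at hmain
  calc (nc n ⟨true, 1, -(κ : ℤ)⟩ : ℝ) ≤
        2 * pot γ sb b C1 L ⟨true, 1, -(κ : ℤ)⟩ / Real.sqrt n * 2 ^ n := hmain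
    _ ≤ 2 * (Real.sqrt 32 * Real.sqrt (Real.log n) * K) / Real.sqrt n * 2 ^ n := by
      have : pot γ sb b C1 L ⟨true, 1, -(κ : ℤ)⟩ ≤ Real.sqrt 32 * Real.sqrt (Real.log n) * K :=
        hstart.trans (mul_le_mul_of_nonneg_right hsb3 hK0.le)
      gcongr
    _ = 2 * K * Real.sqrt 32 * Real.sqrt (Real.log n) * 2 ^ n / Real.sqrt n := by ring

end Pool.Agent.WCC
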