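import Pool.Agent.WCC.Core
import Pool.Agent.WCC.Asym
import Pool.Agent.WCC.Pot

/-! # Final numerics -/

set_option autoImplicit false

namespace Pool.Agent.WCC

open Finset

/-- units below a multiple of three -/
theorem final_card_units (q : ℕ) :
    ((range (3 * q)).filter (fun a => ¬ 3 ∣ a)).card = 2 * q := by
  induction q with
  | zero => simp
  | succ q ih =>
    have h : 3 * (q + 1) = 3 * q + 1 + 1 + 1 := by ring
    rw [h, range_add_one, range_add_one, range_add_one, filter_insert, filter_insert,
      filter_insert]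
    have h0 : ¬ ¬ 3 ∣ 3 * q := by omega
    have h1 : ¬ 3 ∣ 3 * q + 1 := by omega
    have h2 : ¬ 3 ∣ 3 * q + 1 + 1 := by omega
    rw [if_pos h2, if_pos h1, if_neg h0, card_insert_of_notMem, card_insert_of_notMem, ih]
    · ring
    · simp
    · simp

/-- count of lists by a property of the upper part -/
theorem final_card_drop (a b : ℕ) (p : List Bool → Prop) [DecidablePred p] :
    ((bits (a + b)).filter (fun z => p (z.drop a))).card =
      2 ^ a * ((bits b).filter (fun u => p u)).card := by
  rw [card_filter, sum_bits_append]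
  have : ∀ v ∈ bits a, ∑ u ∈ bits b, (if p ((v ++ u).drop a) then 1 else 0) =
      ((bits b).filter (fun u => p u)).card := by
    intro v hv
    rw [card_filter]
    apply sum_congr rfl
    intro u _
    have hl : v.length = a := (mem_bits a v).mp hv
    rw [← hl, List.drop_left]
  rw [sum_congr rfl this, sum_const, card_bits, smul_eq_mul]

/-- count of lists by a property of the lower part -/
theorem final_card_take (a b : ℕ) (p : List Bool → Prop) [DecidablePred p] :
    ((bits (a + b)).filter (fun z => p (z.take a))).card =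
      ((bits a).filter (fun u => p u)).card * 2 ^ b := by
  rw [card_filter, sum_bits_append]
  have : ∀ v ∈ bits a, ∑ u ∈ bits b, (if p ((v ++ u).take a) then 1 else 0) =
      2 ^ b * (if p v then 1 else 0) := by
    intro v hv
    have hl : v.length = a := (mem_bits a v).mp hv
    have : ∀ u ∈ bits b, (if p ((v ++ u).take a) then 1 else 0) = (if p v then 1 else 0) := by
      intro u _
      rw [← hl, List.take_left]
    rw [sum_congr rfl this, sum_const, card_bits, smul_eq_mul]
  rw [sum_congr rfl this, ← mul_sum, mul_comm, card_filter]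

/-- the bad set -/
noncomputable def Zbad (q w B : ℕ) : Finset (List Bool) := by
  classical
  exact (bits (11 * q + 4 * q)).filter (fun z => ((w : ℤ) ≤ |imb (z.drop (11 * q))|) ∨
    B * 2 ^ (12 * q) < 3 ^ ones (z.take (11 * q)) * 3 ^ q + 2 ^ q * val (z.take (11 * q)))

theorem Zbad_card (q w B : ℕ) :
    (Zbad q w B).card ≤
      2 ^ (11 * q) * ((bits (4 * q)).filter (fun u => (w : ℤ) ≤ |imb u|)).card +
      ((bits (11 * q)).filter
        (fun l => B * 2 ^ (12 * q) < 3 ^ ones l * 3 ^ q + 2 ^ q * val l)).card * 2 ^ (4 * q) := by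
  classical
  unfold Zbad
  rw [filter_or]
  refine (card_union_le _ _).trans ?_
  rw [final_card_drop (11 * q) (4 * q) (fun u => (w : ℤ) ≤ |imb u|),
    final_card_take (11 * q) (4 * q)
      (fun l => B * 2 ^ (12 * q) < 3 ^ ones l * 3 ^ q + 2 ^ q * val l)]

theorem Zbad_mem (q w B : ℕ) (x : List Bool) (hx : x.length = 2 * (8 * q))
    (h : ¬ (val (x.take (12 * q)) ≤ B * 2 ^ (12 * q) ∧ |imb (x.drop (12 * q))| ≤ (w : ℤ))) :
    x.drop q ∈ Zbad q w B := by
  classical
  unfold Zbad
  rw [mem_filter, mem_bits]
  refine ⟨by rw [List.length_drop]; omega, ?_⟩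
  have e1 : (x.drop q).drop (11 * q) = x.drop (12 * q) := by
    rw [List.drop_drop]; congr 1; omega
  have e2 : x.take (12 * q) = x.take q ++ (x.drop q).take (11 * q) := by
    rw [← List.take_add]; congr 1; omega
  rw [e1]
  by_contra hcon
  push Not at hcon
  obtain ⟨h1, h2⟩ := hcon
  apply h
  refine ⟨?_, h1.le⟩
  have hl : (x.take q).length = q := by rw [List.length_take]; omega
  rw [e2, val_append, hl]
  have h3 : val (x.take q) ≤ 3 ^ q := by
    have := val_le_three_pow (x.take q)
    rwa [hl] at this
  have h4 : 3 ^ ones ((x.drop q).take (11 * q)) * val (x.take q) ≤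
      3 ^ ones ((x.drop q).take (11 * q)) * 3 ^ q := Nat.mul_le_mul_left _ h3
  omega

end Pool.Agent.WCC
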