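import Pool.Agent.WCC.Pat

/-! # WCC/Mu: the 2-adic valuation that controls the runs of even `D` -/

set_option autoImplicit false

namespace Pool.Agent.WCC

/-- `μ(e, D) = min (v_2 D, v_2 (3^e - 1))` -/
noncomputable def mu (e : ℕ) (D : ℤ) : ℕ := padicValNat 2 (Int.gcd D (3 ^ e - 1))

theorem Mu_pos (e : ℕ) (he : 1 ≤ e) : (0 : ℤ) < 3 ^ e - 1 := by
  have : (3 : ℤ) ^ 1 ≤ 3 ^ e := pow_le_pow_right₀ (by norm_num) he
  omega

theorem Mu_iff (e : ℕ) (he : 1 ≤ e) (D : ℤ) (i : ℕ) :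
    i ≤ mu e D ↔ (2 : ℤ) ^ i ∣ D ∧ (2 : ℤ) ^ i ∣ 3 ^ e - 1 := by
  have hne : Int.gcd D (3 ^ e - 1) ≠ 0 := by
    intro h
    rw [Int.gcd_eq_zero_iff] at h
    exact (Mu_pos e he).ne' h.2
  rw [mu, ← padicValNat_dvd_iff_le hne, ← Int.natCast_dvd_natCast]
  push_cast
  exact Int.dvd_coe_gcd_iff

theorem Mu_even_pow (e : ℕ) : ((3 : ℤ) ^ e - 1) % 2 = 0 := by
  have : (3 : ℤ) ^ e % 2 = 1 := by
    have h : (3 : ℤ) ^ e ≡ 1 ^ e [ZMOD 2] := Int.ModEq.pow e (by decide)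
    rw [one_pow] at h
    exact h
  omega

theorem mu_even (e : ℕ) (he : 1 ≤ e) (D : ℤ) (hD : D % 2 = 0) :
    mu e (D / 2) + mu e ((3 * D + 1 - 3 ^ e) / 2) + 1 ≤ 2 * mu e D := by
  have hN := Mu_even_pow e
  obtain ⟨D1, rfl⟩ : ∃ D1, D = 2 * D1 := ⟨D / 2, by omega⟩
  obtain ⟨N, hNe⟩ : ∃ N : ℤ, 3 ^ e - 1 = 2 * N := ⟨(3 ^ e - 1) / 2, by omega⟩
  have e1 : 2 * D1 / 2 = D1 := by omega
  have e2 : (3 * (2 * D1) + 1 - 3 ^ e) / 2 = 3 * D1 - N := by omega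
  rw [e1, e2]
  obtain ⟨h11, h12⟩ := (Mu_iff e he D1 _).1 le_rfl
  obtain ⟨h21, h22⟩ := (Mu_iff e he (3 * D1 - N) _).1 le_rfl
  set i1 := mu e D1 with hi1
  set i2 := mu e (3 * D1 - N) with hi2
  have hcop : ∀ i : ℕ, ∀ z : ℤ, (2 : ℤ) ^ i ∣ 3 * z → (2 : ℤ) ^ i ∣ z := by
    intro i z h
    have hc : IsCoprime ((2 : ℤ) ^ i) 3 := by
      apply IsCoprime.pow_left
      exact ⟨-1, 1, by norm_num⟩
    exact hc.dvd_of_dvd_mul_left h
  have a1 : i1 ≤ mu e (2 * D1) := (Mu_iff e he _ _).2 ⟨Dvd.dvd.mul_left h11 2, h12⟩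
  have h21' : (2 : ℤ) ^ (i2 + 1) ∣ 2 * (3 * D1 - N) := by
    rw [pow_succ, mul_comm]
    exact mul_dvd_mul_left 2 h21
  have h2d : (2 : ℤ) ^ i2 ∣ 2 * D1 := by
    apply hcop
    have h1 : (2 : ℤ) ^ i2 ∣ 2 * (3 * D1 - N) := dvd_trans (pow_dvd_pow 2 (Nat.le_succ _)) h21'
    have h2 := dvd_add h1 h22
    rw [hNe] at h2
    have h3 : 2 * (3 * D1 - N) + 2 * N = 3 * (2 * D1) := by ring
    rwa [h3] at h2
  have a2 : i2 ≤ mu e (2 * D1) := (Mu_iff e he _ _).2 ⟨h2d, h22⟩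
  by_contra hcon
  have b1 : i1 = mu e (2 * D1) := by omega
  have b2 : i2 = mu e (2 * D1) := by omega
  have c1 : (2 : ℤ) ^ (i1 + 1) ∣ 2 * D1 := by
    rw [pow_succ, mul_comm]
    exact mul_dvd_mul_left 2 h11
  have c2 : (2 : ℤ) ^ (i1 + 1) ∣ 3 ^ e - 1 := by
    rw [hNe]
    have h1 : (2 : ℤ) ^ (i1 + 1) ∣ 2 * (3 * D1 - N) := by rw [b1, ← b2]; exact h21'
    have h2 := dvd_sub (Dvd.dvd.mul_left c1 3) h1
    have h3 : 3 * (2 * D1) - 2 * (3 * D1 - N) = 2 * N := by ring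
    rwa [h3] at h2
  have := (Mu_iff e he _ _).2 ⟨c1, c2⟩
  omega

theorem mu_odd (e : ℕ) (D : ℤ) (hD : D % 2 ≠ 0) : mu e D = 0 := by
  rw [mu]
  apply padicValNat.eq_zero_of_not_dvd
  intro h
  have h1 : (2 : ℤ) ∣ (Int.gcd D (3 ^ e - 1) : ℤ) := by exact_mod_cast h
  have h2 : (2 : ℤ) ∣ D := dvd_trans h1 (Int.gcd_dvd_left ..)
  omega

theorem mu_le (e : ℕ) (he : 1 ≤ e) (D : ℤ) : mu e D ≤ Nat.log 2 e + 3 := by
  obtain ⟨-, h2⟩ := (Mu_iff e he D _).1 le_rfl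
  set i := mu e D with hi
  have h3 : (2 : ℕ) ^ i ∣ 3 ^ e - 1 := by
    have : ((3 ^ e - 1 : ℕ) : ℤ) = 3 ^ e - 1 := by
      rw [Nat.cast_sub (Nat.one_le_pow _ _ (by norm_num))]
      push_cast; ring
    rw [← this] at h2
    exact_mod_cast h2
  have hne : 3 ^ e - 1 ≠ 0 := by
    have : 3 ^ 1 ≤ 3 ^ e := Nat.pow_le_pow_right (by norm_num) he
    omega
  have h4 : i ≤ padicValNat 2 (3 ^ e - 1) := (padicValNat_dvd_iff_le hne).1 h3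
  rcases Nat.even_or_odd e with h | h
  · have h5 := padicValNat.pow_two_sub_one (x := 3) (n := e) (by norm_num) (by norm_num)
      (by omega) h
    have h6 : padicValNat 2 (3 + 1) = 2 := by
      have : (3 + 1 : ℕ) = 2 ^ 2 := by norm_num
      rw [this]; exact padicValNat.prime_pow 2
    have h7 : padicValNat 2 (3 - 1) = 1 := by
      have : (3 - 1 : ℕ) = 2 ^ 1 := by norm_num
      rw [this]; exact padicValNat.prime_pow 1
    have h8 := padicValNat_le_nat_log (p := 2) e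
    omega
  · -- e odd: 4 does not divide 3^e - 1
    have h5 : ¬ (2 ^ 2 ∣ 3 ^ e - 1) := by
      obtain ⟨k, rfl⟩ := h
      have h6 : 3 ^ (2 * k + 1) % 4 = 3 := by
        rw [pow_succ, pow_mul, Nat.mul_mod, Nat.pow_mod]
        norm_num
      rintro ⟨c, hc⟩
      have h7 : 1 ≤ 3 ^ (2 * k + 1) := Nat.one_le_pow _ _ (by norm_num)
      clear hne h4 h3 h2 hi i
      generalize 3 ^ (2 * k + 1) = X at *
      omega
    by_contra hcon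
    apply h5
    exact dvd_trans (pow_dvd_pow 2 (by omega)) h3

end Pool.Agent.WCC
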