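import Pool.Agent.WCC.Defs

/-! # Basic lemmas on bit lists -/

set_option autoImplicit false

namespace Pool.Agent.WCC

open Finset

theorem mem_bits (n : ℕ) (l : List Bool) : l ∈ bits n ↔ l.length = n := by
  induction n generalizing l with
  | zero => simp [bits, List.length_eq_zero_iff]
  | succ n ih =>
    simp only [bits, mem_union, mem_image]
    constructor
    · rintro (⟨a, ha, rfl⟩ | ⟨a, ha, rfl⟩) <;> simp [(ih a).1 ha]
    · intro h
      cases l with
      | nil => simp at h
      | cons b l =>
        have hl : l.length = n := by simpa using h
        cases b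
        · exact Or.inl ⟨l, (ih l).2 hl, rfl⟩
        · exact Or.inr ⟨l, (ih l).2 hl, rfl⟩

theorem disj_bits (n : ℕ) :
    Disjoint ((bits n).image (List.cons false)) ((bits n).image (List.cons true)) := by
  rw [Finset.disjoint_left]
  intro a h1 h2
  simp only [mem_image] at h1 h2
  obtain ⟨x, _, rfl⟩ := h1
  obtain ⟨y, _, hy⟩ := h2
  simp at hy

theorem sum_bits_succ {α : Type*} [AddCommMonoid α] (n : ℕ) (f : List Bool → α) :
    ∑ l ∈ bits (n + 1), f l = ∑ l ∈ bits n, (f (false :: l) + f (true :: l)) := by
  rw [bits, sum_union (disj_bits n), sum_image, sum_image, sum_add_distrib]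
  · intro a _ b _ h; simpa using h
  · intro a _ b _ h; simpa using h

theorem sum_bits_append {α : Type*} [AddCommMonoid α] (m n : ℕ) (f : List Bool → α) :
    ∑ l ∈ bits (m + n), f l = ∑ v ∈ bits m, ∑ u ∈ bits n, f (v ++ u) := by
  induction m generalizing f with
  | zero => simp [bits]
  | succ m ih =>
    rw [show m + 1 + n = (m + n) + 1 by ring, sum_bits_succ, ih, sum_bits_succ]
    refine sum_congr rfl fun v _ => ?_
    rw [← sum_add_distrib]
    rfl

theorem card_bits (n : ℕ) : (bits n).card = 2 ^ n := by
  induction n with
  | zero => simp [bits]
  | succ n ih =>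
    rw [card_eq_sum_ones, sum_bits_succ, sum_const, ih]
    simp [pow_succ]

theorem ones_nil : ones [] = 0 := rfl

theorem ones_cons (b : Bool) (l : List Bool) : ones (b :: l) = ones l + (if b then 1 else 0) := by
  cases b <;> simp [ones]

theorem ones_append (v u : List Bool) : ones (v ++ u) = ones v + ones u := by
  simp [ones]

theorem ones_le_length (l : List Bool) : ones l ≤ l.length := List.count_le_length

theorem val_nil : val [] = 0 := rfl

theorem val_cons (b : Bool) (l : List Bool) :
    val (b :: l) = 2 * val l + (if b then 3 ^ ones l else 0) := rfl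

theorem val_append (v u : List Bool) :
    val (v ++ u) = 3 ^ ones u * val v + 2 ^ v.length * val u := by
  induction v with
  | nil => simp [val]
  | cons b v ih =>
    rw [List.cons_append, val_cons, val_cons, ih, ones_append, List.length_cons]
    cases b
    · simp; ring
    · simp; ring

theorem val_add_le (l : List Bool) : val l + 2 ^ l.length ≤ 3 ^ l.length := by
  induction l with
  | nil => simp [val]
  | cons b l ih =>
    rw [val_cons, List.length_cons, pow_succ, pow_succ]
    have h1 : (if b then 3 ^ ones l else 0) ≤ 3 ^ l.length := by
      split_ifs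
      · exact Nat.pow_le_pow_right (by norm_num) (ones_le_length l)
      · exact Nat.zero_le _
    omega

theorem val_mul_le (l : List Bool) : val l * 2 ^ ones l ≤ 2 ^ l.length * 3 ^ ones l := by
  induction l with
  | nil => simp [val]
  | cons b l ih =>
    have h1 : 2 ^ ones l ≤ 2 ^ l.length := Nat.pow_le_pow_right (by norm_num) (ones_le_length l)
    have h3 : 0 < 3 ^ ones l := by positivity
    cases b
    · simp only [val_cons, ones_cons, List.length_cons, Bool.false_eq_true, if_false, add_zero,
        pow_succ]
      nlinarith
    · simp only [val_cons, ones_cons, List.length_cons, if_true, pow_succ]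
      nlinarith [Nat.mul_le_mul_right (3 ^ ones l) h1]

theorem val_cons_mod_two (b : Bool) (l : List Bool) :
    val (b :: l) % 2 = if b then 1 else 0 := by
  rw [val_cons]
  cases b
  · simp
  · have : (3 ^ ones l) % 2 = 1 := by
      rw [Nat.pow_mod]; simp
    simp only [if_true]
    omega

/-- the low part of the pattern is determined by the value modulo a power of two -/
theorem pat_inj (v v' u u' : List Bool) (hl : v.length = v'.length)
    (ho : ones (v ++ u) = ones (v' ++ u'))
    (hm : val (v ++ u) % 2 ^ v.length = val (v' ++ u') % 2 ^ v.length) : v = v' := by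
  induction v generalizing v' with
  | nil =>
    cases v' with
    | nil => rfl
    | cons b l => simp at hl
  | cons b v ih =>
    cases v' with
    | nil => simp at hl
    | cons b' v' =>
      have hl' : v.length = v'.length := by simpa using hl
      rw [List.length_cons] at hm
      have hm2 : val (b :: (v ++ u)) % 2 = val (b' :: (v' ++ u')) % 2 := by
        have h1 := congrArg (fun x => x % 2) hm
        simp only [List.cons_append] at h1
        rwa [Nat.mod_mod_of_dvd _ (dvd_pow_self 2 (Nat.succ_ne_zero _)),
          Nat.mod_mod_of_dvd _ (dvd_pow_self 2 (Nat.succ_ne_zero _))] at h1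
      rw [val_cons_mod_two, val_cons_mod_two] at hm2
      have hb : b = b' := by
        cases b <;> cases b' <;> simp_all
      subst hb
      have ho' : ones (v ++ u) = ones (v' ++ u') := by
        simp only [List.cons_append, ones_cons] at ho
        omega
      have hm' : val (v ++ u) % 2 ^ v.length = val (v' ++ u') % 2 ^ v.length := by
        simp only [List.cons_append, val_cons, ho'] at hm
        have h2 : 2 * val (v ++ u) ≡ 2 * val (v' ++ u') [MOD 2 * 2 ^ v.length] := by
          have h3 : (2 * val (v ++ u) + (if b then 3 ^ ones (v' ++ u') else 0)) ≡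
              (2 * val (v' ++ u') + (if b then 3 ^ ones (v' ++ u') else 0))
              [MOD 2 ^ (v.length + 1)] := hm
          rw [pow_succ, mul_comm] at h3
          exact Nat.ModEq.add_right_cancel' _ h3
        exact Nat.ModEq.mul_left_cancel' (by norm_num) h2
      rw [ih v' hl' ho' hm']

theorem val_mod_congr (v u u' : List Bool) (ho : ones u = ones u') :
    val (v ++ u) % 2 ^ v.length = val (v ++ u') % 2 ^ v.length := by
  rw [val_append, val_append, ho, Nat.add_mul_mod_self_left, Nat.add_mul_mod_self_left]

theorem val_inj (u u' : List Bool) (hl : u.length = u'.length) (ho : ones u = ones u')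
    (h : val u = val u') : u = u' := by
  have := pat_inj u u' [] [] hl (by simpa using ho) (by simp [h])
  exact this

theorem val_pos (l : List Bool) (h : 0 < ones l) : 0 < val l := by
  induction l with
  | nil => simp [ones] at h
  | cons b l ih =>
    rw [val_cons]
    cases b
    · have : 0 < ones l := by simpa [ones_cons] using h
      have := ih this
      simp; omega
    · simp

theorem imb_append (v u : List Bool) : imb (v ++ u) = imb v + imb u := by
  unfold imb
  rw [ones_append, List.length_append]
  push_cast
  ring

theorem abs_imb_le (l : List Bool) : |imb l| ≤ l.length := by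
  unfold imb
  have := ones_le_length l
  rw [abs_le]
  constructor <;> omega

end Pool.Agent.WCC
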