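import Pool.Agent.WCC.Pat

/-! # WCC/Phi: the function `√((3/10)^e |D|)` -/

set_option autoImplicit false

namespace Pool.Agent.WCC

noncomputable def phi (e : ℕ) (D : ℤ) : ℝ := Real.sqrt ((3 / 10) ^ e * |(D : ℝ)|)

theorem Phi_sqrt_add (a b : ℝ) (ha : 0 ≤ a) (hb : 0 ≤ b) :
    Real.sqrt (a + b) ≤ Real.sqrt a + Real.sqrt b := by
  rw [Real.sqrt_le_left (by positivity)]
  nlinarith [Real.sq_sqrt ha, Real.sq_sqrt hb, mul_nonneg (Real.sqrt_nonneg a) (Real.sqrt_nonneg b)]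

/-- `√x ≤ c √a + d √b` if `x ≤ p a + q b`, `p ≤ c²`, `q ≤ d²` -/
theorem Phi_bound (x a b p q c d : ℝ) (ha : 0 ≤ a) (hb : 0 ≤ b) (hp : 0 ≤ p) (hq : 0 ≤ q)
    (hc : 0 ≤ c) (hd : 0 ≤ d) (hx : x ≤ p * a + q * b) (h1 : p ≤ c ^ 2) (h2 : q ≤ d ^ 2) :
    Real.sqrt x ≤ c * Real.sqrt a + d * Real.sqrt b := by
  calc Real.sqrt x ≤ Real.sqrt (p * a + q * b) := Real.sqrt_le_sqrt hx
    _ ≤ Real.sqrt (p * a) + Real.sqrt (q * b) := Phi_sqrt_add _ _ (by positivity) (by positivity)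
    _ ≤ Real.sqrt (c ^ 2 * a) + Real.sqrt (d ^ 2 * b) := by
        apply add_le_add
        · exact Real.sqrt_le_sqrt (mul_le_mul_of_nonneg_right h1 ha)
        · exact Real.sqrt_le_sqrt (mul_le_mul_of_nonneg_right h2 hb)
    _ = c * Real.sqrt a + d * Real.sqrt b := by
        rw [Real.sqrt_mul (by positivity), Real.sqrt_mul (by positivity), Real.sqrt_sq hc,
          Real.sqrt_sq hd]

theorem Phi_half (D E : ℤ) (h : 2 * E = D) : |(E : ℝ)| = |(D : ℝ)| / 2 := by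
  have : (D : ℝ) = 2 * E := by rw [← h]; push_cast; ring
  rw [this, abs_mul, abs_of_pos (by norm_num : (0 : ℝ) < 2)]
  ring

theorem Phi_odd_pow (e : ℕ) : ((3 : ℤ) ^ e) % 2 = 1 := by
  have h : (3 : ℤ) ^ e ≡ 1 ^ e [ZMOD 2] := Int.ModEq.pow e (by decide)
  rw [one_pow] at h
  exact h

theorem Phi_pow (e : ℕ) : ((3 : ℝ) / 10) ^ e * 3 ^ e = (9 / 10) ^ e := by
  rw [← mul_pow]; norm_num

/-- `D` even -/
theorem phi_even (e : ℕ) (D : ℤ) (hD : D % 2 = 0) :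
    (phi e (D / 2) + phi e ((3 * D + 1 - 3 ^ e) / 2)) / 2 ≤
      (97 / 100) * phi e D + (36 / 100) * Real.sqrt ((9 / 10) ^ e) := by
  have ho := Phi_odd_pow e
  have h1 := Phi_half D (D / 2) (by omega)
  have h2 := Phi_half (3 * D + 1 - 3 ^ e) ((3 * D + 1 - 3 ^ e) / 2) (by omega)
  have hpe : (0 : ℝ) ≤ (3 / 10) ^ e := by positivity
  have h3e : (1 : ℝ) ≤ 3 ^ e := one_le_pow₀ (by norm_num)
  have b1 : phi e (D / 2) ≤ (7072 / 10000) * phi e D + 0 * Real.sqrt ((9 / 10) ^ e) := by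
    unfold phi
    rw [h1]
    refine Phi_bound _ _ _ (1 / 2) 0 _ _ (by positivity) (by positivity) (by norm_num) le_rfl
      (by norm_num) le_rfl ?_ (by norm_num) (by norm_num)
    linarith
  have b2 : phi e ((3 * D + 1 - 3 ^ e) / 2) ≤
      (12248 / 10000) * phi e D + (7072 / 10000) * Real.sqrt ((9 / 10) ^ e) := by
    unfold phi
    rw [h2]
    refine Phi_bound _ _ _ (3 / 2) (1 / 2) _ _ (by positivity) (by positivity) (by norm_num)
      (by norm_num) (by norm_num) (by norm_num) ?_ (by norm_num) (by norm_num)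
    have h3 : |((3 * D + 1 - 3 ^ e : ℤ) : ℝ)| ≤ 3 * |(D : ℝ)| + 3 ^ e := by
      push_cast
      have h4 : (3 * (D : ℝ) + 1 - 3 ^ e) = 3 * D - (3 ^ e - 1) := by ring
      rw [h4]
      calc |3 * (D : ℝ) - (3 ^ e - 1)| ≤ |3 * (D : ℝ)| + |(3 : ℝ) ^ e - 1| := abs_sub _ _
        _ = 3 * |(D : ℝ)| + ((3 : ℝ) ^ e - 1) := by
            rw [abs_mul, abs_of_pos (by norm_num : (0 : ℝ) < 3),
              abs_of_nonneg (by linarith : (0 : ℝ) ≤ 3 ^ e - 1)]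
        _ ≤ 3 * |(D : ℝ)| + 3 ^ e := by linarith
    have h5 := mul_le_mul_of_nonneg_left h3 hpe
    have h6 := Phi_pow e
    nlinarith
  linarith [Real.sqrt_nonneg (((3 : ℝ) / 10) ^ e * |(D : ℝ)|), Real.sqrt_nonneg (((9 : ℝ) / 10) ^ e),
    show phi e D = Real.sqrt (((3 : ℝ) / 10) ^ e * |(D : ℝ)|) from rfl]

/-- `D` even, `e = 0` -/
theorem phi_even_zero (D : ℤ) (hD : D % 2 = 0) :
    (phi 0 (D / 2) + phi 0 ((3 * D + 1 - 3 ^ 0) / 2)) / 2 ≤ (97 / 100) * phi 0 D := by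
  have h1 := Phi_half D (D / 2) (by omega)
  have h2 := Phi_half (3 * D + 1 - 3 ^ 0) ((3 * D + 1 - 3 ^ 0) / 2) (by omega)
  have b1 : phi 0 (D / 2) ≤ (7072 / 10000) * phi 0 D + 0 * Real.sqrt 1 := by
    unfold phi
    rw [h1]
    refine Phi_bound _ _ _ (1 / 2) 0 _ _ (by positivity) (by positivity) (by norm_num) le_rfl
      (by norm_num) le_rfl ?_ (by norm_num) (by norm_num)
    simp; linarith
  have b2 : phi 0 ((3 * D + 1 - 3 ^ 0) / 2) ≤ (12248 / 10000) * phi 0 D + 0 * Real.sqrt 1 := by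
    unfold phi
    rw [h2]
    refine Phi_bound _ _ _ (3 / 2) 0 _ _ (by positivity) (by positivity) (by norm_num)
      le_rfl (by norm_num) le_rfl ?_ (by norm_num) (by norm_num)
    have h3 : ((3 * D + 1 - 3 ^ 0 : ℤ) : ℝ) = 3 * D := by push_cast; ring
    rw [h3, abs_mul, abs_of_pos (by norm_num : (0 : ℝ) < 3)]
    simp; linarith
  have : 0 ≤ phi 0 D := Real.sqrt_nonneg _
  linarith

/-- `D` odd, height `e + 1` -/
theorem phi_odd (e : ℕ) (D : ℤ) (hD : D % 2 ≠ 0) :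
    (phi (e + 2) ((3 * D + 1) / 2) + phi e ((D - 3 ^ e) / 2)) / 2 ≤
      (99 / 100) * phi (e + 1) D + Real.sqrt ((9 / 10) ^ e) := by
  have ho := Phi_odd_pow e
  have h1 := Phi_half (3 * D + 1) ((3 * D + 1) / 2) (by omega)
  have h2 := Phi_half (D - 3 ^ e) ((D - 3 ^ e) / 2) (by omega)
  have hpe : (0 : ℝ) ≤ (3 / 10) ^ e := by positivity
  have h3e : (1 : ℝ) ≤ 3 ^ e := one_le_pow₀ (by norm_num)
  have h6 := Phi_pow e
  have hle : ((3 : ℝ) / 10) ^ e ≤ (9 / 10) ^ e :=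
    pow_le_pow_left₀ (by norm_num) (by norm_num) e
  have b1 : phi (e + 2) ((3 * D + 1) / 2) ≤
      (671 / 1000) * phi (e + 1) D + (22 / 100) * Real.sqrt ((9 / 10) ^ e) := by
    unfold phi
    rw [h1]
    refine Phi_bound _ _ _ (45 / 100) (45 / 1000) _ _ (by positivity) (by positivity) (by norm_num)
      (by norm_num) (by norm_num) (by norm_num) ?_ (by norm_num) (by norm_num)
    have h3 : |((3 * D + 1 : ℤ) : ℝ)| ≤ 3 * |(D : ℝ)| + 1 := by
      push_cast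
      calc |3 * (D : ℝ) + 1| ≤ |3 * (D : ℝ)| + |(1 : ℝ)| := abs_add_le _ _
        _ = 3 * |(D : ℝ)| + 1 := by
            rw [abs_mul, abs_of_pos (by norm_num : (0 : ℝ) < 3), abs_one]
    have h5 := mul_le_mul_of_nonneg_left h3 hpe
    have e1 : ((3 : ℝ) / 10) ^ (e + 1) = (3 / 10) ^ e * (3 / 10) := pow_succ _ _
    have e2 : ((3 : ℝ) / 10) ^ (e + 2) = (3 / 10) ^ e * (9 / 100) := by rw [pow_add]; norm_num
    rw [e1, e2]
    nlinarith [mul_nonneg hpe (abs_nonneg (D : ℝ))]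
  have b2 : phi e ((D - 3 ^ e) / 2) ≤
      (1291 / 1000) * phi (e + 1) D + (7072 / 10000) * Real.sqrt ((9 / 10) ^ e) := by
    unfold phi
    rw [h2]
    refine Phi_bound _ _ _ (10 / 6) (1 / 2) _ _ (by positivity) (by positivity) (by norm_num)
      (by norm_num) (by norm_num) (by norm_num) ?_ (by norm_num) (by norm_num)
    have h3 : |((D - 3 ^ e : ℤ) : ℝ)| ≤ |(D : ℝ)| + 3 ^ e := by
      push_cast
      calc |(D : ℝ) - 3 ^ e| ≤ |(D : ℝ)| + |(3 : ℝ) ^ e| := abs_sub _ _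
        _ = |(D : ℝ)| + 3 ^ e := by rw [abs_of_nonneg (by linarith : (0 : ℝ) ≤ 3 ^ e)]
    have h5 := mul_le_mul_of_nonneg_left h3 hpe
    have e1 : ((3 : ℝ) / 10) ^ (e + 1) = (3 / 10) ^ e * (3 / 10) := pow_succ _ _
    rw [e1]
    nlinarith [mul_nonneg hpe (abs_nonneg (D : ℝ))]
  have n1 : 0 ≤ phi (e + 1) D := Real.sqrt_nonneg _
  have n2 : 0 ≤ Real.sqrt (((9 : ℝ) / 10) ^ e) := Real.sqrt_nonneg _
  linarith

/-- `D` odd, height `0` -/
theorem phi_odd_zero (D : ℤ) (hD : D % 2 ≠ 0) :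
    (phi 1 ((3 * D + 1) / 2) + phi 1 ((1 - 3 * D) / 2)) / 2 ≤
      (68 / 100) * phi 0 D + 1 := by
  have h1 := Phi_half (3 * D + 1) ((3 * D + 1) / 2) (by omega)
  have h2 := Phi_half (1 - 3 * D) ((1 - 3 * D) / 2) (by omega)
  have b1 : phi 1 ((3 * D + 1) / 2) ≤ (671 / 1000) * phi 0 D + (39 / 100) * Real.sqrt 1 := by
    unfold phi
    rw [h1]
    refine Phi_bound _ _ _ (45 / 100) (15 / 100) _ _ (by positivity) (by positivity) (by norm_num)
      (by norm_num) (by norm_num) (by norm_num) ?_ (by norm_num) (by norm_num)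
    have h3 : |((3 * D + 1 : ℤ) : ℝ)| ≤ 3 * |(D : ℝ)| + 1 := by
      push_cast
      calc |3 * (D : ℝ) + 1| ≤ |3 * (D : ℝ)| + |(1 : ℝ)| := abs_add_le _ _
        _ = 3 * |(D : ℝ)| + 1 := by
            rw [abs_mul, abs_of_pos (by norm_num : (0 : ℝ) < 3), abs_one]
    rw [pow_one, pow_zero]
    linarith
  have b2 : phi 1 ((1 - 3 * D) / 2) ≤ (671 / 1000) * phi 0 D + (39 / 100) * Real.sqrt 1 := by
    unfold phi
    rw [h2]
    refine Phi_bound _ _ _ (45 / 100) (15 / 100) _ _ (by positivity) (by positivity) (by norm_num)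
      (by norm_num) (by norm_num) (by norm_num) ?_ (by norm_num) (by norm_num)
    have h3 : |((1 - 3 * D : ℤ) : ℝ)| ≤ 3 * |(D : ℝ)| + 1 := by
      push_cast
      calc |1 - 3 * (D : ℝ)| ≤ |(1 : ℝ)| + |3 * (D : ℝ)| := abs_sub _ _
        _ = 3 * |(D : ℝ)| + 1 := by
            rw [abs_mul, abs_of_pos (by norm_num : (0 : ℝ) < 3), abs_one]; ring
    rw [pow_one, pow_zero]
    linarith
  rw [Real.sqrt_one] at b1 b2
  have n1 : 0 ≤ phi 0 D := Real.sqrt_nonneg _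
  linarith

end Pool.Agent.WCC
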