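import Pool.Agent.WCC.Chi

/-! # Potential argument for the pair chain: abstract part -/

set_option autoImplicit false

namespace Pool.Agent.WCC

open Finset

/-- discounted non-coalescence probabilities -/
noncomputable def potC (lam : ℝ) : ℕ → St → ℝ
  | 0, _ => 0
  | N + 1, s => if absorbed s then 0 else
      (1 - lam) + lam * ((potC lam N (step false s) + potC lam N (step true s)) / 2)

theorem potC_nonneg (lam : ℝ) (h0 : 0 ≤ lam) (h1 : lam ≤ 1) (N : ℕ) :
    ∀ s, 0 ≤ potC lam N s := by
  induction N with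
  | zero => intro s; simp [potC]
  | succ N ih =>
    intro s
    simp only [potC]
    split_ifs
    · exact le_rfl
    · have a := ih (step false s)
      have b := ih (step true s)
      have : 0 ≤ lam * ((potC lam N (step false s) + potC lam N (step true s)) / 2) :=
        mul_nonneg h0 (by linarith)
      linarith

theorem potC_le_one (lam : ℝ) (h0 : 0 ≤ lam) (h1 : lam ≤ 1) (N : ℕ) :
    ∀ s, potC lam N s ≤ 1 := by
  induction N with
  | zero => intro s; simp [potC]
  | succ N ih =>
    intro s
    simp only [potC]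
    split_ifs
    · exact zero_le_one
    · have a := ih (step false s)
      have b := ih (step true s)
      have : lam * ((potC lam N (step false s) + potC lam N (step true s)) / 2) ≤ lam * 1 :=
        mul_le_mul_of_nonneg_left (by linarith) h0
      linarith

theorem nc_div_le_one (N : ℕ) (s : St) : (nc N s : ℝ) / 2 ^ N ≤ 1 := by
  rw [div_le_one (by positivity)]
  exact_mod_cast nc_le N s

theorem nc_div_nonneg (N : ℕ) (s : St) : 0 ≤ (nc N s : ℝ) / 2 ^ N := by positivity

theorem nc_div_succ (N : ℕ) (s : St) (h : ¬ absorbed s) :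
    (nc (N + 1) s : ℝ) / 2 ^ (N + 1) =
      ((nc N (step false s) : ℝ) / 2 ^ N + (nc N (step true s) : ℝ) / 2 ^ N) / 2 := by
  rw [nc_succ, if_neg h]
  push_cast
  field_simp
  ring

theorem nc_div_absorbed (N : ℕ) (s : St) (h : absorbed s) : (nc N s : ℝ) / 2 ^ N = 0 := by
  cases N with
  | zero => rw [nc_zero, if_pos h]; simp
  | succ N => rw [nc_succ, if_pos h]; simp

theorem potC_lower (lam : ℝ) (h0 : 0 ≤ lam) (h1 : lam ≤ 1) (N : ℕ) :
    ∀ s, (1 - lam ^ N) * ((nc N s : ℝ) / 2 ^ N) ≤ potC lam N s := by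
  induction N with
  | zero => intro s; simp [potC]
  | succ N ih =>
    intro s
    by_cases hs : absorbed s
    · rw [nc_div_absorbed _ _ hs, mul_zero]
      exact potC_nonneg lam h0 h1 _ _
    · have hle := nc_div_le_one (N + 1) s
      have heq := nc_div_succ N s hs
      have a := ih (step false s)
      have b := ih (step true s)
      simp only [potC, if_neg hs]
      have hab : (1 - lam ^ N) * ((nc (N + 1) s : ℝ) / 2 ^ (N + 1)) ≤
          (potC lam N (step false s) + potC lam N (step true s)) / 2 := by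
        rw [heq]
        have : (1 - lam ^ N) * (((nc N (step false s) : ℝ) / 2 ^ N +
            (nc N (step true s) : ℝ) / 2 ^ N) / 2) =
            ((1 - lam ^ N) * ((nc N (step false s) : ℝ) / 2 ^ N) +
            (1 - lam ^ N) * ((nc N (step true s) : ℝ) / 2 ^ N)) / 2 := by ring
        rw [this]
        linarith
      have h2 : lam * ((1 - lam ^ N) * ((nc (N + 1) s : ℝ) / 2 ^ (N + 1))) ≤
          lam * ((potC lam N (step false s) + potC lam N (step true s)) / 2) :=
        mul_le_mul_of_nonneg_left hab h0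
      have h3 : (1 - lam) * ((nc (N + 1) s : ℝ) / 2 ^ (N + 1)) ≤ (1 - lam) * 1 :=
        mul_le_mul_of_nonneg_left hle (by linarith)
      have h4 : (1 - lam ^ (N + 1)) * ((nc (N + 1) s : ℝ) / 2 ^ (N + 1)) =
          (1 - lam) * ((nc (N + 1) s : ℝ) / 2 ^ (N + 1)) +
          lam * ((1 - lam ^ N) * ((nc (N + 1) s : ℝ) / 2 ^ (N + 1))) := by
        rw [pow_succ]; ring
      rw [h4]
      linarith

theorem potC_upper (lam γ : ℝ) (h0 : 0 ≤ lam) (h1 : lam ≤ 1) (hγ : 0 < γ)
    (hlam : 1 - lam = 1 / γ ^ 2) (g : St → ℝ) (g0 : ∀ s, 0 ≤ g s)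
    (hg : ∀ s, ¬ absorbed s → γ ≤ g s ∨
      (g (step false s) + g (step true s)) / 2 + 1 / γ ≤ g s) (N : ℕ) :
    ∀ s, potC lam N s ≤ g s / γ := by
  induction N with
  | zero => intro s; simp only [potC]; exact div_nonneg (g0 s) hγ.le
  | succ N ih =>
    intro s
    by_cases hs : absorbed s
    · simp only [potC, if_pos hs]; exact div_nonneg (g0 s) hγ.le
    · rcases hg s hs with h | h
      · refine (potC_le_one lam h0 h1 _ _).trans ?_
        rw [le_div_iff₀ hγ]; linarith
      · simp only [potC, if_neg hs]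
        have a := ih (step false s)
        have b := ih (step true s)
        have c0 : 0 ≤ (potC lam N (step false s) + potC lam N (step true s)) / 2 := by
          have := potC_nonneg lam h0 h1 N (step false s)
          have := potC_nonneg lam h0 h1 N (step true s)
          linarith
        have c1 : lam * ((potC lam N (step false s) + potC lam N (step true s)) / 2) ≤
            (potC lam N (step false s) + potC lam N (step true s)) / 2 :=
          mul_le_of_le_one_left c0 h1
        have c2 : (g (step false s) / γ + g (step true s) / γ) / 2 + 1 / γ ^ 2 ≤ g s / γ := by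
          have : (g (step false s) / γ + g (step true s) / γ) / 2 + 1 / γ ^ 2 =
              ((g (step false s) + g (step true s)) / 2 + 1 / γ) / γ := by
            field_simp
          rw [this]
          exact div_le_div_of_nonneg_right h hγ.le
        rw [hlam]
        linarith

theorem pow_one_sub_inv_le_half (n : ℕ) (hn : 2 ≤ n) : (1 - 1 / (n : ℝ)) ^ n ≤ 1 / 2 := by
  have hn0 : (0 : ℝ) < n := by positivity
  have h1 : (1 : ℝ) - 1 / n ≤ Real.exp (-(1 / n)) := by
    have := Real.add_one_le_exp (-(1 / (n : ℝ)))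
    linarith
  have h0 : (0 : ℝ) ≤ 1 - 1 / n := by
    rw [sub_nonneg, div_le_one hn0]
    have : (2 : ℝ) ≤ n := by exact_mod_cast hn
    linarith
  calc (1 - 1 / (n : ℝ)) ^ n ≤ (Real.exp (-(1 / n))) ^ n := pow_le_pow_left₀ h0 h1 n
    _ = Real.exp (-1) := by
      rw [← Real.exp_nat_mul]
      congr 1
      field_simp
    _ ≤ 1 / 2 := by
      rw [Real.exp_neg, one_div]
      apply inv_anti₀ (by norm_num)
      have := Real.add_one_le_exp (1 : ℝ)
      linarith

/-- the abstract potential argument -/
theorem pot_abstract (n : ℕ) (hn : 2 ≤ n) (g : St → ℝ) (g0 : ∀ s, 0 ≤ g s)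
    (hg : ∀ s, ¬ absorbed s → Real.sqrt n ≤ g s ∨
      (g (step false s) + g (step true s)) / 2 + 1 / Real.sqrt n ≤ g s) (s : St) :
    (nc n s : ℝ) / 2 ^ n ≤ 2 * g s / Real.sqrt n := by
  have hn0 : (0 : ℝ) < n := by positivity
  have hn2 : (2 : ℝ) ≤ n := by exact_mod_cast hn
  have hγ : 0 < Real.sqrt n := Real.sqrt_pos.mpr hn0
  have h0 : (0 : ℝ) ≤ 1 - 1 / n := by
    rw [sub_nonneg, div_le_one hn0]
    linarith
  have h1 : (1 : ℝ) - 1 / n ≤ 1 := by
    have : (0 : ℝ) ≤ 1 / n := by positivity
    linarith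
  have hup := potC_upper (1 - 1 / n) (Real.sqrt n) h0 h1 hγ
    (by rw [Real.sq_sqrt hn0.le]; ring) g g0 hg n s
  have hlo := potC_lower (1 - 1 / n) h0 h1 n s
  have hp := pow_one_sub_inv_le_half n hn
  have ha := nc_div_nonneg n s
  have : (1 / 2) * ((nc n s : ℝ) / 2 ^ n) ≤ (1 - (1 - 1 / (n : ℝ)) ^ n) * ((nc n s : ℝ) / 2 ^ n) :=
    mul_le_mul_of_nonneg_right (by linarith) ha
  have h5 : (nc n s : ℝ) / 2 ^ n ≤ 2 * (g s / Real.sqrt n) := by linarith
  rw [mul_div_assoc]
  exact h5

end Pool.Agent.WCC
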