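import Pool.Agent.WCC.Mu
import Pool.Agent.WCC.Phi
import Pool.Agent.WCC.PotA

/-! # Potential argument for the pair chain: the potential function -/

set_option autoImplicit false

namespace Pool.Agent.WCC

open Finset

/-! ### steps -/

theorem step_avg_even (f : ℕ → ℤ → ℝ) (s : St) (hD : s.D % 2 = 0) :
    f (step false s).e (step false s).D + f (step true s).e (step true s).D =
      f s.e (s.D / 2) + f s.e ((3 * s.D + 1 - 3 ^ s.e) / 2) := by
  simp [step, hD]

theorem step_avg_odd_succ (f : ℕ → ℤ → ℝ) (s : St) (e : ℕ) (he : s.e = e + 1)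
    (hD : s.D % 2 ≠ 0) :
    f (step false s).e (step false s).D + f (step true s).e (step true s).D =
      f (e + 2) ((3 * s.D + 1) / 2) + f e ((s.D - 3 ^ e) / 2) := by
  obtain ⟨o, e', D⟩ := s
  simp only at he hD
  subst he
  cases o
  · simp [step, hD]
    exact add_comm _ _
  · simp [step, hD]

theorem step_avg_odd_zero (f : ℕ → ℤ → ℝ) (s : St) (he : s.e = 0) (hD : s.D % 2 ≠ 0) :
    f (step false s).e (step false s).D + f (step true s).e (step true s).D =
      f 1 ((3 * s.D + 1) / 2) + f 1 ((1 - 3 * s.D) / 2) := by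
  obtain ⟨o, e', D⟩ := s
  simp only at he hD
  subst he
  cases o <;> simp [step, hD, add_comm]

/-! ### components -/

/-- the main concave term -/
noncomputable def potA (γ δ : ℝ) (e : ℕ) : ℝ := γ * (1 - (max (1 - e * δ) 0) ^ 2)

theorem potA_zero (γ δ : ℝ) : potA γ δ 0 = 0 := by simp [potA]

theorem potA_nonneg (γ δ : ℝ) (hγ : 0 ≤ γ) (hδ : 0 ≤ δ) (e : ℕ) : 0 ≤ potA γ δ e := by
  unfold potA
  apply mul_nonneg hγ
  have h1 : max (1 - (e : ℝ) * δ) 0 ≤ 1 := by
    apply max_le _ zero_le_one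
    have : 0 ≤ (e : ℝ) * δ := by positivity
    linarith
  have h0 : 0 ≤ max (1 - (e : ℝ) * δ) 0 := le_max_right _ _
  nlinarith

theorem potA_one_le (γ δ : ℝ) (hγ : 0 ≤ γ) (hδ : 0 ≤ δ) : potA γ δ 1 ≤ 2 * γ * δ := by
  unfold potA
  have : 1 - (max (1 - ((1 : ℕ) : ℝ) * δ) 0) ^ 2 ≤ 2 * δ := by
    push_cast
    rcases le_total (1 - 1 * δ) 0 with h | h
    · rw [max_eq_right h]; nlinarith
    · rw [max_eq_left h]; nlinarith
  calc γ * (1 - (max (1 - ((1 : ℕ) : ℝ) * δ) 0) ^ 2) ≤ γ * (2 * δ) :=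
        mul_le_mul_of_nonneg_left this hγ
    _ = 2 * γ * δ := by ring

theorem potA_big (γ δ : ℝ) (e : ℕ) (h : 1 ≤ e * δ) : potA γ δ e = γ := by
  unfold potA
  rw [max_eq_right (by linarith)]
  ring

theorem potA_drift (γ δ : ℝ) (hγ : 0 ≤ γ) (hδ : 0 ≤ δ) (e : ℕ) (h : ((e + 1 : ℕ) : ℝ) * δ ≤ 1) :
    (potA γ δ (e + 2) + potA γ δ e) / 2 + γ * δ ^ 2 / 2 ≤ potA γ δ (e + 1) := by
  unfold potA
  push_cast at *
  set y := 1 - ((e : ℝ) + 1) * δ with hy
  have hy0 : 0 ≤ y := by linarith
  have e1 : max y 0 = y := max_eq_left hy0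
  have e2 : 1 - (e : ℝ) * δ = y + δ := by rw [hy]; ring
  have e3 : 1 - ((e : ℝ) + 2) * δ = y - δ := by rw [hy]; ring
  rw [e1, e2, e3, max_eq_left (by linarith : 0 ≤ y + δ)]
  have key : y ^ 2 + δ ^ 2 / 2 ≤ ((y + δ) ^ 2 + (max (y - δ) 0) ^ 2) / 2 := by
    rcases le_total (y - δ) 0 with h1 | h1
    · rw [max_eq_right h1]; nlinarith
    · rw [max_eq_left h1]; nlinarith
  nlinarith [mul_le_mul_of_nonneg_left key hγ]

/-- the bounded concave term -/
noncomputable def potH (e : ℕ) : ℝ := 1 - 1 / ((e : ℝ) + 1)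

theorem potH_nonneg (e : ℕ) : 0 ≤ potH e := by
  unfold potH
  rw [sub_nonneg, div_le_one (by positivity)]
  have : (0 : ℝ) ≤ e := by positivity
  linarith

theorem potH_drift (e : ℕ) :
    (potH (e + 2) + potH e) / 2 + 1 / (((e : ℝ) + 1) * (e + 2) * (e + 3)) = potH (e + 1) := by
  unfold potH
  push_cast
  field_simp
  ring

/-- `μ` switched off at height `0` -/
noncomputable def mup (e : ℕ) (D : ℤ) : ℝ := if e = 0 then 0 else (mu e D : ℝ)

theorem mup_nonneg (e : ℕ) (D : ℤ) : 0 ≤ mup e D := by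
  unfold mup; split_ifs <;> positivity

theorem mup_zero (D : ℤ) : mup 0 D = 0 := by simp [mup]

theorem mup_odd (e : ℕ) (D : ℤ) (hD : D % 2 ≠ 0) : mup e D = 0 := by
  unfold mup; split_ifs
  · rfl
  · rw [mu_odd e D hD]; simp

theorem mup_even (e : ℕ) (he : 1 ≤ e) (D : ℤ) (hD : D % 2 = 0) :
    (mup e (D / 2) + mup e ((3 * D + 1 - 3 ^ e) / 2)) / 2 + 1 / 2 ≤ mup e D := by
  unfold mup
  have h0 : e ≠ 0 := by omega
  simp only [if_neg h0]
  have := mu_even e he D hD
  have h : ((mu e (D / 2) + mu e ((3 * D + 1 - 3 ^ e) / 2) + 1 : ℕ) : ℝ) ≤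
      ((2 * mu e D : ℕ) : ℝ) := by exact_mod_cast this
  push_cast at h
  linarith

theorem mup_le (e E : ℕ) (h : e ≤ E) (D : ℤ) : mup e D ≤ (Nat.log 2 E : ℝ) + 3 := by
  unfold mup
  split_ifs with h0
  · positivity
  · have h1 := mu_le e (by omega) D
    have h2 : Nat.log 2 e ≤ Nat.log 2 E := Nat.log_mono_right h
    have h3 : mu e D ≤ Nat.log 2 E + 3 := by omega
    exact_mod_cast h3

theorem phi_nonneg (e : ℕ) (D : ℤ) : 0 ≤ phi e D := Real.sqrt_nonneg _

/-- finite-horizon occupation function -/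
noncomputable def chi (L : ℕ) (s : St) : ℝ := ∑ i ∈ range L, (nc i s : ℝ) / 2 ^ i

theorem chi_nonneg (L : ℕ) (s : St) : 0 ≤ chi L s :=
  sum_nonneg fun i _ => nc_div_nonneg i s

theorem chi_le (L : ℕ) (s : St) : chi L s ≤ L := by
  unfold chi
  calc ∑ i ∈ range L, (nc i s : ℝ) / 2 ^ i ≤ ∑ i ∈ range L, (1 : ℝ) :=
        sum_le_sum fun i _ => nc_div_le_one i s
    _ = L := by simp

theorem chi_drift (L : ℕ) (s : St) (hs : ¬ absorbed s) :
    (chi L (step false s) + chi L (step true s)) / 2 + (1 - (nc L s : ℝ) / 2 ^ L) = chi L s := by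
  have h0 : (nc 0 s : ℝ) / 2 ^ 0 = 1 := by rw [nc_zero, if_neg hs]; simp
  have h1 : (chi L (step false s) + chi L (step true s)) / 2 =
      ∑ i ∈ range L, (nc (i + 1) s : ℝ) / 2 ^ (i + 1) := by
    unfold chi
    rw [← sum_add_distrib, sum_div]
    exact sum_congr rfl fun i _ => (nc_div_succ i s hs).symm
  rw [h1]
  have h2 : ∑ i ∈ range L, (nc (i + 1) s : ℝ) / 2 ^ (i + 1) + (nc 0 s : ℝ) / 2 ^ 0 =
      ∑ i ∈ range L, (nc i s : ℝ) / 2 ^ i + (nc L s : ℝ) / 2 ^ L := by
    rw [← sum_range_succ' (fun i => (nc i s : ℝ) / 2 ^ i), sum_range_succ]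
  unfold chi
  linarith

/-! ### the potential -/

/-- the potential function -/
noncomputable def pot (γ sb b C1 : ℝ) (L : ℕ) (s : St) : ℝ :=
  potA γ (sb / γ) s.e + (2 / γ) * mup s.e s.D +
    sb * (b * potH s.e + phi s.e s.D +
      (72 / 100) * (Real.sqrt ((9 / 10) ^ s.e) * mup s.e s.D) + C1 * chi L s)

theorem pot_nonneg (γ sb b C1 : ℝ) (L : ℕ) (s : St) (hγ : 0 < γ) (hsb : 0 ≤ sb) (hb : 0 ≤ b)
    (hC1 : 0 ≤ C1) : 0 ≤ pot γ sb b C1 L s := by
  unfold pot
  have h1 := potA_nonneg γ (sb / γ) hγ.le (by positivity) s.e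
  have h2 := mup_nonneg s.e s.D
  have h3 := potH_nonneg s.e
  have h4 := phi_nonneg s.e s.D
  have h5 := chi_nonneg L s
  positivity

theorem pot_drift (γ sb b C1 : ℝ) (L B0 : ℕ) (hγ : 1 ≤ γ) (hsb : 1 ≤ sb) (hb : 0 ≤ b)
    (hbe : ∀ e : ℕ, Real.sqrt ((9 / 10) ^ e) * (1 + (72 / 100) * ((Nat.log 2 (e + 2) : ℝ) + 3)) ≤
      b * (1 / (((e : ℝ) + 1) * (e + 2) * (e + 3))))
    (hB0 : 13 + b / 2 ≤ (3 / 100) * Real.sqrt B0)
    (hL : ∀ s : St, s.e = 0 → |s.D| ≤ B0 → nc L s + 1 ≤ 2 ^ L)
    (hC1 : C1 = 2 ^ L * (13 + b / 2))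
    (hβ : ∀ e : ℕ, ((e + 1 : ℕ) : ℝ) * (sb / γ) ≤ 1 →
      2 * (2 * ((Nat.log 2 (e + 2) : ℝ) + 3) + 1) ≤ sb ^ 2)
    (s : St) (hs : ¬ absorbed s) :
    γ ≤ pot γ sb b C1 L s ∨
      (pot γ sb b C1 L (step false s) + pot γ sb b C1 L (step true s)) / 2 + 1 / γ ≤
        pot γ sb b C1 L s := by
  have hγ0 : 0 < γ := by linarith
  have hsb0 : 0 < sb := by linarith
  have hδ0 : 0 ≤ sb / γ := by positivity
  have hC0 : 0 ≤ C1 := by rw [hC1]; positivity
  have hinv : 1 / γ ≤ 1 := by rw [div_le_one hγ0]; exact hγ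
  have hinv0 : 0 < 1 / γ := by positivity
  -- the two parts of the potential
  set f1 : ℕ → ℤ → ℝ := fun e D => potA γ (sb / γ) e with hf1
  set f2 : ℕ → ℤ → ℝ := fun e D => (2 / γ) * mup e D with hf2
  set f3 : ℕ → ℤ → ℝ := fun e D => b * potH e with hf3
  set f4 : ℕ → ℤ → ℝ := fun e D => phi e D with hf4
  set f5 : ℕ → ℤ → ℝ := fun e D => (72 / 100) * (Real.sqrt ((9 / 10) ^ e) * mup e D) with hf5
  have hpot : ∀ t : St, pot γ sb b C1 L t = f1 t.e t.D + f2 t.e t.D +
      sb * (f3 t.e t.D + f4 t.e t.D + f5 t.e t.D + C1 * chi L t) := fun t => rfl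
  have hchi := chi_drift L s hs
  have hchi0 : 0 ≤ 1 - (nc L s : ℝ) / 2 ^ L := by
    have := nc_div_le_one L s; linarith
  by_cases hbig : 1 ≤ (s.e : ℝ) * (sb / γ)
  · left
    rw [hpot]
    have h1 : f1 s.e s.D = γ := potA_big γ (sb / γ) s.e hbig
    have h2 := mup_nonneg s.e s.D
    have h3 := potH_nonneg s.e
    have h4 := phi_nonneg s.e s.D
    have h5 := chi_nonneg L s
    rw [h1]
    have : 0 ≤ f2 s.e s.D := by simp only [hf2]; positivity
    have : 0 ≤ sb * (f3 s.e s.D + f4 s.e s.D + f5 s.e s.D + C1 * chi L s) := by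
      simp only [hf3, hf4, hf5]; positivity
    linarith
  push Not at hbig
  right
  rw [hpot s, hpot (step false s), hpot (step true s)]
  rcases Nat.eq_zero_or_pos s.e with he | he
  · -- height 0
    have key : (chi L (step false s) + chi L (step true s)) / 2 * C1 +
        C1 * (1 - (nc L s : ℝ) / 2 ^ L) = C1 * chi L s := by
      rw [← hchi]; ring
    have hD0 : s.D ≠ 0 := fun h => hs ⟨he, h⟩
    -- a lower bound valid at height zero
    have hgain : 13 + b / 2 ≤ (3 / 100) * phi 0 s.D + C1 * (1 - (nc L s : ℝ) / 2 ^ L) := by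
      by_cases hB : |s.D| ≤ B0
      · have h1 := hL s he hB
        have h2 : (nc L s : ℝ) + 1 ≤ 2 ^ L := by exact_mod_cast h1
        have h3 : (1 : ℝ) / 2 ^ L ≤ 1 - (nc L s : ℝ) / 2 ^ L := by
          have : (0 : ℝ) < 2 ^ L := by positivity
          rw [le_sub_iff_add_le, ← add_div, div_le_one this]
          linarith
        have h4 : 13 + b / 2 = C1 * (1 / 2 ^ L) := by
          rw [hC1]; field_simp
        rw [h4]
        have h5 := mul_le_mul_of_nonneg_left h3 hC0
        have h6 := phi_nonneg 0 s.D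
        linarith
      · push Not at hB
        have h1 : Real.sqrt B0 ≤ phi 0 s.D := by
          unfold phi
          apply Real.sqrt_le_sqrt
          rw [pow_zero, one_mul]
          have : ((B0 : ℤ) : ℝ) ≤ ((|s.D| : ℤ) : ℝ) := by exact_mod_cast hB.le
          push_cast at this
          exact this
        have h2 : 0 ≤ C1 * (1 - (nc L s : ℝ) / 2 ^ L) := mul_nonneg hC0 hchi0
        linarith
    have hφ0 := phi_nonneg 0 s.D
    by_cases hD : s.D % 2 = 0
    · have e1 := step_avg_even f1 s hD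
      have e2 := step_avg_even f2 s hD
      have e3 := step_avg_even f3 s hD
      have e4 := step_avg_even f4 s hD
      have e5 := step_avg_even f5 s hD
      rw [he] at e1 e2 e3 e4 e5
      have p4 := phi_even_zero s.D hD
      simp only [hf2, hf5, mup_zero, mul_zero] at e2 e5 ⊢
      simp only [hf1, hf3, hf4] at e1 e3 e4 ⊢
      rw [he]
      have hf : (b * potH (step false s).e + phi (step false s).e (step false s).D +
          (72 / 100) * (Real.sqrt ((9 / 10) ^ (step false s).e) *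
            mup (step false s).e (step false s).D) + C1 * chi L (step false s)) +
          (b * potH (step true s).e + phi (step true s).e (step true s).D +
          (72 / 100) * (Real.sqrt ((9 / 10) ^ (step true s).e) *
            mup (step true s).e (step true s).D) + C1 * chi L (step true s)) ≤
          2 * (b * potH 0 + phi 0 s.D + C1 * chi L s) - 2 := by
        linarith
      have hf' := mul_le_mul_of_nonneg_left hf hsb0.le
      simp only [mup_zero, mul_zero]
      nlinarith [hf', e1, e2]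
    · have e1 := step_avg_odd_zero f1 s he hD
      have e2 := step_avg_odd_zero f2 s he hD
      have e3 := step_avg_odd_zero f3 s he hD
      have e4 := step_avg_odd_zero f4 s he hD
      have e5 := step_avg_odd_zero f5 s he hD
      have p4 := phi_odd_zero s.D hD
      have m1 := mup_le 1 1 le_rfl ((3 * s.D + 1) / 2)
      have m2 := mup_le 1 1 le_rfl ((1 - 3 * s.D) / 2)
      have m1' := mup_nonneg 1 ((3 * s.D + 1) / 2)
      have m2' := mup_nonneg 1 ((1 - 3 * s.D) / 2)
      have hlog : (Nat.log 2 1 : ℝ) = 0 := by simp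
      rw [hlog, zero_add] at m1 m2
      have hsq : Real.sqrt ((9 / 10) ^ 1) ≤ 1 := by
        rw [Real.sqrt_le_one]; norm_num
      have hsq0 : 0 ≤ Real.sqrt ((9 / 10 : ℝ) ^ 1) := Real.sqrt_nonneg _
      have hA1 := potA_one_le γ (sb / γ) hγ0.le hδ0
      have hA1' : 2 * γ * (sb / γ) = 2 * sb := by field_simp
      have hA0 := potA_zero γ (sb / γ)
      have hH1 : potH 1 = 1 / 2 := by unfold potH; norm_num
      have hH0 : potH 0 = 0 := by unfold potH; norm_num
      simp only [hf1, hf2, hf3, hf4, hf5] at e1 e2 e3 e4 e5 ⊢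
      rw [he, hA0, mup_zero, hH0]
      simp only [mul_zero]
      have q2 : (2 / γ) * mup 1 ((3 * s.D + 1) / 2) + (2 / γ) * mup 1 ((1 - 3 * s.D) / 2) ≤ 12 := by
        have h2γ : 2 / γ ≤ 2 := by rw [div_le_iff₀ hγ0]; linarith
        have h2γ0 : 0 ≤ 2 / γ := by positivity
        nlinarith
      have q5a : Real.sqrt ((9 / 10) ^ 1) * mup 1 ((3 * s.D + 1) / 2) ≤ 1 * 3 :=
        mul_le_mul hsq m1 m1' zero_le_one
      have q5b : Real.sqrt ((9 / 10) ^ 1) * mup 1 ((1 - 3 * s.D) / 2) ≤ 1 * 3 :=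
        mul_le_mul hsq m2 m2' zero_le_one
      have hf : (b * potH (step false s).e + phi (step false s).e (step false s).D +
          (72 / 100) * (Real.sqrt ((9 / 10) ^ (step false s).e) *
            mup (step false s).e (step false s).D) + C1 * chi L (step false s)) +
          (b * potH (step true s).e + phi (step true s).e (step true s).D +
          (72 / 100) * (Real.sqrt ((9 / 10) ^ (step true s).e) *
            mup (step true s).e (step true s).D) + C1 * chi L (step true s)) ≤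
          2 * (phi 0 s.D + C1 * chi L s) - 18 := by
        rw [hH1] at e3
        linarith
      have hf' := mul_le_mul_of_nonneg_left hf hsb0.le
      nlinarith [hf', e1, e2]
  · -- positive height
    obtain ⟨e, hee⟩ : ∃ e, s.e = e + 1 := ⟨s.e - 1, by omega⟩
    have key : (chi L (step false s) + chi L (step true s)) / 2 * C1 +
        C1 * (1 - (nc L s : ℝ) / 2 ^ L) = C1 * chi L s := by
      rw [← hchi]; ring
    have hCchi : 0 ≤ C1 * (1 - (nc L s : ℝ) / 2 ^ L) := mul_nonneg hC0 hchi0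
    by_cases hD : s.D % 2 = 0
    · have e1 := step_avg_even f1 s hD
      have e2 := step_avg_even f2 s hD
      have e3 := step_avg_even f3 s hD
      have e4 := step_avg_even f4 s hD
      have e5 := step_avg_even f5 s hD
      have p4 := phi_even s.e s.D hD
      have pm := mup_even s.e he s.D hD
      simp only [hf1, hf2, hf3, hf4, hf5] at e1 e2 e3 e4 e5 ⊢
      have hφ0 := phi_nonneg s.e s.D
      have hsq0 : 0 ≤ Real.sqrt ((9 / 10 : ℝ) ^ s.e) := Real.sqrt_nonneg _
      have q5 := mul_le_mul_of_nonneg_left pm hsq0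
      have q2 := mul_le_mul_of_nonneg_left pm (by positivity : (0 : ℝ) ≤ 2 / γ)
      have hf : (b * potH (step false s).e + phi (step false s).e (step false s).D +
          (72 / 100) * (Real.sqrt ((9 / 10) ^ (step false s).e) *
            mup (step false s).e (step false s).D) + C1 * chi L (step false s)) +
          (b * potH (step true s).e + phi (step true s).e (step true s).D +
          (72 / 100) * (Real.sqrt ((9 / 10) ^ (step true s).e) *
            mup (step true s).e (step true s).D) + C1 * chi L (step true s)) ≤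
          2 * (b * potH s.e + phi s.e s.D +
            72 / 100 * (Real.sqrt ((9 / 10) ^ s.e) * mup s.e s.D) + C1 * chi L s) := by
        linarith
      have hf' := mul_le_mul_of_nonneg_left hf hsb0.le
      have h2g : 2 / γ * (1 / 2) = 1 / γ := by ring
      nlinarith [hf', e1, e2, q2]
    · have e1 := step_avg_odd_succ f1 s e hee hD
      have e2 := step_avg_odd_succ f2 s e hee hD
      have e3 := step_avg_odd_succ f3 s e hee hD
      have e4 := step_avg_odd_succ f4 s e hee hD
      have e5 := step_avg_odd_succ f5 s e hee hD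
      have p4 := phi_odd e s.D hD
      rw [← hee] at p4
      have pA := potA_drift γ (sb / γ) hγ0.le hδ0 e (by rw [← hee]; exact hbig.le)
      have pβ := hβ e (by rw [← hee]; exact hbig.le)
      have pH := potH_drift e
      have pb := hbe e
      have m0 := mup_odd s.e s.D hD
      have m1 := mup_le (e + 2) (e + 2) le_rfl ((3 * s.D + 1) / 2)
      have m2 := mup_le e (e + 2) (by omega) ((s.D - 3 ^ e) / 2)
      have m1' := mup_nonneg (e + 2) ((3 * s.D + 1) / 2)
      have m2' := mup_nonneg e ((s.D - 3 ^ e) / 2)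
      simp only [hf1, hf2, hf3, hf4, hf5] at e1 e2 e3 e4 e5 ⊢
      rw [m0]
      rw [hee] at *
      set Λ : ℝ := (Nat.log 2 (e + 2) : ℝ) + 3 with hΛ
      have hφ0 := phi_nonneg (e + 1) s.D
      have hsq0 : 0 ≤ Real.sqrt ((9 / 10 : ℝ) ^ e) := Real.sqrt_nonneg _
      have hsqle : Real.sqrt ((9 / 10 : ℝ) ^ (e + 2)) ≤ Real.sqrt ((9 / 10 : ℝ) ^ e) := by
        apply Real.sqrt_le_sqrt
        apply pow_le_pow_of_le_one (by norm_num) (by norm_num) (by omega)
      have hsq2 : 0 ≤ Real.sqrt ((9 / 10 : ℝ) ^ (e + 2)) := Real.sqrt_nonneg _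
      have q5a : Real.sqrt ((9 / 10) ^ (e + 2)) * mup (e + 2) ((3 * s.D + 1) / 2) ≤
          Real.sqrt ((9 / 10) ^ e) * Λ := mul_le_mul hsqle m1 m1' hsq0
      have q5b : Real.sqrt ((9 / 10) ^ e) * mup e ((s.D - 3 ^ e) / 2) ≤
          Real.sqrt ((9 / 10) ^ e) * Λ := mul_le_mul_of_nonneg_left m2 hsq0
      have q2a := mul_le_mul_of_nonneg_left m1 (by positivity : (0 : ℝ) ≤ 2 / γ)
      have q2b := mul_le_mul_of_nonneg_left m2 (by positivity : (0 : ℝ) ≤ 2 / γ)
      have pH' : b * potH (e + 2) + b * potH e +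
          2 * (b * (1 / (((e : ℝ) + 1) * (e + 2) * (e + 3)))) = 2 * (b * potH (e + 1)) := by
        rw [← pH]; ring
      have pb' : Real.sqrt ((9 / 10) ^ e) + 72 / 100 * (Real.sqrt ((9 / 10) ^ e) * Λ) ≤
          b * (1 / (((e : ℝ) + 1) * (e + 2) * (e + 3))) := by
        calc _ = Real.sqrt ((9 / 10) ^ e) * (1 + 72 / 100 * Λ) := by ring
          _ ≤ _ := pb
      have hf : (b * potH (step false s).e + phi (step false s).e (step false s).D +
          (72 / 100) * (Real.sqrt ((9 / 10) ^ (step false s).e) *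
            mup (step false s).e (step false s).D) + C1 * chi L (step false s)) +
          (b * potH (step true s).e + phi (step true s).e (step true s).D +
          (72 / 100) * (Real.sqrt ((9 / 10) ^ (step true s).e) *
            mup (step true s).e (step true s).D) + C1 * chi L (step true s)) ≤
          2 * (b * potH (e + 1) + phi (e + 1) s.D + C1 * chi L s) := by
        linarith
      have hf' := mul_le_mul_of_nonneg_left hf hsb0.le
      have hA : γ * (sb / γ) ^ 2 / 2 = (1 / γ) * (sb ^ 2 / 2) := by field_simp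
      have hA' : (1 / γ) * (2 * Λ + 1) ≤ (1 / γ) * (sb ^ 2 / 2) :=
        mul_le_mul_of_nonneg_left (by linarith) hinv0.le
      have h2g : 2 / γ * Λ = (1 / γ) * (2 * Λ) := by ring
      simp only [mul_zero]
      nlinarith [hf', e1, e2, pA]

end Pool.Agent.WCC
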